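import Pool.Agent.H81.Co.C3c
import Pool.Agent.H61.Rh.Dm

/-! # C3d: the two dimensional inequalities on the whole domain -/

set_option autoImplicit false

namespace Pool.H61.Rh

open Complex

private theorem n_qn (x z : ℝ) : qn x (-z) = qn x z := by unfold qn; ring
private theorem n_qVr (x z : ℝ) : qVr x (-z) = -qVr x z := by
  unfold qVr; rw [n_qn]; ring
private theorem n_qVi (x z : ℝ) : qVi x (-z) = qVi x z := by
  unfold qVi; rw [n_qn]
private theorem n_qw (x z : ℝ) : qw x (-z) = qw x z := by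
  unfold qw; rw [n_qVi, n_qVr]; ring
private theorem n_qB (x z : ℝ) : cqB x (-z) = cqB x z := by
  unfold cqB; rw [n_qn]; ring
private theorem n_qbr (x z : ℝ) : qbr x (-z) = -qbr x z := by unfold qbr; ring
private theorem n_qbi (x z : ℝ) : qbi x (-z) = qbi x z := by unfold qbi; ring
private theorem n_qBr (x z : ℝ) : qBr x (-z) = qBr x z := by
  unfold qBr; rw [n_qVi, n_qVr]; ring
private theorem n_qBi (x z : ℝ) : qBi x (-z) = -qBi x z := by
  unfold qBi; rw [n_qVi, n_qVr]; ring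
private theorem n_qor (x z : ℝ) : qor x (-z) = qor x z := by
  unfold qor; rw [n_qbi, n_qBr]
private theorem n_qoi (x z : ℝ) : qoi x (-z) = -qoi x z := by
  unfold qoi; rw [n_qbr, n_qBi]; ring
private theorem n_qs (x z : ℝ) : qs x (-z) = qs x z := by
  unfold qs; rw [n_qn, n_qB, n_qw]
private theorem n_qgr (x z : ℝ) : qgr x (-z) = qgr x z := by
  unfold qgr; rw [n_qs, n_qbi, n_qBr]
private theorem n_qgi (x z : ℝ) : qgi x (-z) = -qgi x z := by
  unfold qgi; rw [n_qs, n_qbr, n_qBi]; ring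
private theorem n_qE (x z : ℝ) : qE x (-z) = qE x z := by
  unfold qE; rw [n_qn, n_qB, n_qw]
private theorem n_qF (K3 Ph Cl lam r x z : ℝ) : qF K3 Ph Cl lam r x (-z) = qF K3 Ph Cl lam r x z := by
  unfold qF; rw [n_qn, n_qB, n_qor, n_qoi, n_qE, n_qgr, n_qgi]; ring

theorem good_neg (x z : ℝ) (h : Good x z) : Good x (-z) := by
  obtain ⟨h1, K3, Ph, Cl, lam, hl, hc, h2, h3⟩ := h
  refine ⟨by rw [n_qE]; exact h1, K3, Ph, Cl, lam, hl, ?_, by rw [n_qF]; exact h2,
    by rw [n_qF]; exact h3⟩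
  unfold QCls at hc ⊢
  rw [n_qn]
  exact hc

theorem coarse2d (y : ℂ) (h : Dom y) : Good y.re y.im := by
  have hN := dom_norm h
  have hs := s3_mul
  have hs0 : 433 / 250 ≤ s3 := by
    unfold s3
    apply Real.le_sqrt_of_sq_le
    norm_num
  have hq : qn y.re y.im = normSq y := by rw [normSq_apply]; rfl
  have hn : qn y.re y.im ≤ 79 / 100 := by
    rw [hq, normSq_eq_norm_sq]
    nlinarith [norm_nonneg y]
  have e0 : dt (uu 0) y = y.re := by
    show (1 : ℂ).re * y.re + (1 : ℂ).im * y.im = y.re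
    simp
  have e1 : dt (uu 1) y = -(y.re / 2) + s3 * y.im / 2 := by
    show (-1 / 2 : ℝ) * y.re + s3 / 2 * y.im = _
    ring
  have e2 : dt (uu 2) y = -(y.re / 2) - s3 * y.im / 2 := by
    show (-1 / 2 : ℝ) * y.re + (-(s3 / 2)) * y.im = _
    ring
  have key : ∀ d : ℝ, 1 / 30 ≤ d → 59 / 1000 * (1 - normSq y) ≤ d ^ 2 → 111 / 1000 ≤ d := by
    intro d h1 h2
    rw [← hq] at h2
    by_contra hc
    push Not at hc
    nlinarith
  have h0 := h 0
  have h1 := h 1
  have h2 := h 2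
  rw [e0] at h0
  rw [e1] at h1
  rw [e2] at h2
  have d0 := key _ h0.1 h0.2
  have d1 := key _ h1.1 h1.2
  have d2 := key _ h2.1 h2.2
  have he : 59 / 1000 * (1 - qn y.re y.im) ≤ (1 - 2 * y.re) ^ 2 := by
    rw [hq]
    exact h0.2
  rcases le_or_gt 0 y.im with hz | hz
  · refine good_nonneg y.re y.im hz hn d0 he ?_
    nlinarith
  · have hg := good_nonneg y.re (-y.im) (by linarith) (by rw [n_qn]; exact hn) d0
      (by rw [n_qn]; exact he) (by nlinarith)
    have := good_neg _ _ hg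
    rwa [neg_neg] at this

end Pool.H61.Rh
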