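import Pool.Agent.H81.Co.C2
import Pool.Agent.H81.Co.C3d

/-! # C4: the coarse inequality at the vertex `0` -/

set_option autoImplicit false

namespace Pool.H61.Rh

open Complex

theorem c4_V (y : ℂ) (hd : 0 < 1 - 2 * y.re) :
    (Vx y 0).re * cqd y.re = qVr y.re y.im ∧ (Vx y 0).im * cqd y.re = qVi y.re y.im := by
  have e0 : dt (uu 0) y = y.re := by
    show (1 : ℂ).re * y.re + (1 : ℂ).im * y.im = y.re
    simp
  have hu : uu 0 = 1 := rfl
  have hd' : (1 - 2 * y.re) ≠ 0 := ne_of_gt hd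
  have ht : 2 * (1 - normSq y) / (1 - 2 * y.re) * (1 - 2 * y.re) = 2 * (1 - normSq y) :=
    div_mul_cancel₀ _ hd'
  unfold Vx qVr qVi cqd qn
  rw [e0, hu]
  have hn : normSq y = y.re * y.re + y.im * y.im := normSq_apply y
  generalize 2 * (1 - normSq y) / (1 - 2 * y.re) = t at ht ⊢
  constructor
  · simp only [hn, mul_re, mul_im, I_re, I_im, sub_re, sub_im, ofReal_re, ofReal_im,
      one_re, one_im]
    ring
  · simp only [mul_re, mul_im, I_re, I_im, sub_re, sub_im, ofReal_re, ofReal_im,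
      one_re, one_im]
    rw [hn] at ht ⊢
    linear_combination (1 - (y.re * y.re + y.im * y.im)) * ht

theorem c4_forms (y : ℂ) (hd : 0 < 1 - 2 * y.re) :
    cw y (Vx y 0) * cqd y.re = qw y.re y.im ∧
    dt (cbe y) (I * y) = cqB y.re y.im ∧
    (cbV y (Vx y 0)).re * cqd y.re = qBr y.re y.im ∧
    (cbV y (Vx y 0)).im * cqd y.re = qBi y.re y.im := by
  obtain ⟨h1, h2⟩ := c4_V y hd
  refine ⟨?_, ?_, ?_, ?_⟩
  · unfold cw qw
    rw [← h1, ← h2]
    ring
  · unfold dt cbe cqB qn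
    simp only [mul_re, mul_im, I_re, I_im]
    ring
  · unfold cbV qBr
    rw [← h1, ← h2]
    ring
  · unfold cbV qBi
    rw [← h1, ← h2]
    ring

theorem c4_om (y : ℂ) (hd : 0 < 1 - 2 * y.re) :
    (-I * cbe y - cbV y (Vx y 0)).re * cqd y.re = qor y.re y.im ∧
    (-I * cbe y - cbV y (Vx y 0)).im * cqd y.re = qoi y.re y.im := by
  obtain ⟨-, -, h3, h4⟩ := c4_forms y hd
  constructor
  · unfold qor
    rw [← h3]
    simp only [mul_re, sub_re, neg_re, neg_im, I_re, I_im, cbe, qbi]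
    ring
  · unfold qoi
    rw [← h4]
    simp only [mul_im, sub_im, neg_re, neg_im, I_re, I_im, cbe, qbr]
    ring

theorem c4_g (y : ℂ) (hd : 0 < 1 - 2 * y.re) :
    (ecg (9 / 64) y (cbe y) (cbV y (Vx y 0)) (cw y (Vx y 0))).re * cqd y.re = qgr y.re y.im ∧
    (ecg (9 / 64) y (cbe y) (cbV y (Vx y 0)) (cw y (Vx y 0))).im * cqd y.re = qgi y.re y.im := by
  obtain ⟨h1, h2, h3, h4⟩ := c4_forms y hd
  have hn : normSq y = qn y.re y.im := by rw [normSq_apply]; rfl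
  have hb : (cbe y).re = qbr y.re y.im ∧ (cbe y).im = qbi y.re y.im := by
    constructor
    · unfold cbe qbr; ring
    · unfold cbe qbi; ring
  constructor
  · unfold ecg qgr qs
    rw [← h1, ← h3, h2, hn, ← hb.2]
    simp only [mul_re, sub_re, neg_re, neg_im, I_re, I_im, ofReal_re, ofReal_im, mul_im, re_ofNat,
      im_ofNat]
    ring
  · unfold ecg qgi qs
    rw [← h1, ← h4, h2, hn, ← hb.1]
    simp only [mul_re, sub_im, neg_re, neg_im, I_re, I_im, ofReal_re, ofReal_im, mul_im, re_ofNat,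
      im_ofNat]
    ring

theorem c4_E (y : ℂ) (hd : 0 < 1 - 2 * y.re) :
    ec0 (9 / 64) (413 / 65536) y (cbe y) (cw y (Vx y 0)) * cqd y.re = qE y.re y.im := by
  obtain ⟨h1, h2, -, -⟩ := c4_forms y hd
  have hn : normSq y = qn y.re y.im := by rw [normSq_apply]; rfl
  unfold ec0 qE
  rw [← h1, h2, hn]
  ring

/-- bound of `cw` -/
theorem c4_w (y : ℂ) (h : Dom y) : |cw y (Vx y 0)| ≤ 3 / 100 := by
  have h0 := h 0
  have e0 : dt (uu 0) y = y.re := by
    show (1 : ℂ).re * y.re + (1 : ℂ).im * y.im = y.re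
    simp
  rw [e0] at h0
  obtain ⟨hd1, hd2⟩ := h0
  have hd : 0 < 1 - 2 * y.re := by linarith
  have hlt := dom_normSq h
  have hn : normSq y = y.re * y.re + y.im * y.im := normSq_apply y
  have hu : uu 0 = 1 := rfl
  -- `|V|²`
  set d : ℝ := 1 - 2 * y.re with hdd
  set w : ℝ := 1 - normSq y with hw
  have hw0 : 0 < w := by rw [hw]; linarith
  have hw1 : w ≤ 1 := by rw [hw]; linarith [normSq_nonneg y]
  set t : ℝ := 2 * w / d with ht
  have htd : t * d = 2 * w := div_mul_cancel₀ _ (ne_of_gt hd)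
  have ht0 : 0 < t := by rw [ht]; positivity
  have hV : Vx y 0 = I * (w : ℂ) * ((t : ℂ) * 1 - y) := by
    unfold Vx
    rw [e0, hu]
  have hVr : (Vx y 0).re = w * y.im := by
    rw [hV]
    simp only [mul_re, mul_im, I_re, I_im, sub_re, sub_im, ofReal_re, ofReal_im, one_re, one_im]
    ring
  have hVi : (Vx y 0).im = w * (t - y.re) := by
    rw [hV]
    simp only [mul_re, mul_im, I_re, I_im, sub_re, sub_im, ofReal_re, ofReal_im, one_re, one_im]
    ring
  have hVV : (Vx y 0).re ^ 2 + (Vx y 0).im ^ 2 = w ^ 2 * (t ^ 2 - t + 1 + w) := by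
    rw [hVr, hVi]
    have hx : y.re = (1 - d) / 2 := by rw [hdd]; ring
    have hni : y.im * y.im = 1 - w - y.re * y.re := by rw [hw, hn]; ring
    have e : w ^ 2 * (y.im * y.im) + w ^ 2 * (t - y.re) ^ 2 = w ^ 2 * (t ^ 2 - t + 1 + w) := by
      rw [hni, hx]
      linear_combination w ^ 2 * htd
    linear_combination e
  -- `t² ≤ 4 w / .059`
  have ht2 : 59 / 1000 * t ^ 2 ≤ 4 * w := by
    have h1 : 59 / 1000 * w * t ^ 2 ≤ d ^ 2 * t ^ 2 := by
      apply mul_le_mul_of_nonneg_right hd2 (sq_nonneg t)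
    have h2 : d ^ 2 * t ^ 2 = 4 * w * w := by
      have : d ^ 2 * t ^ 2 = (t * d) ^ 2 := by ring
      rw [this, htd]
      ring
    rw [h2] at h1
    have h3 : w * (59 / 1000 * t ^ 2) ≤ w * (4 * w) := by linarith
    exact le_of_mul_le_mul_left h3 hw0
  -- `cw² = (33/2048)² Im(y² V)² ≤ (33/2048)² (1-w)² |V|²`
  have hc : cw y (Vx y 0) ^ 2 ≤ (33 / 2048) ^ 2 * ((1 - w) ^ 2 *
      ((Vx y 0).re ^ 2 + (Vx y 0).im ^ 2)) := by
    have h1 : (1 - w) = y.re * y.re + y.im * y.im := by rw [hw, hn]; ring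
    rw [h1]
    unfold cw
    have h2 : (33 / 2048 : ℝ) ^ 2 * ((y.re * y.re + y.im * y.im) ^ 2 *
        ((Vx y 0).re ^ 2 + (Vx y 0).im ^ 2)) -
        (-(33 / 2048) * ((y.re ^ 2 - y.im ^ 2) * (Vx y 0).im + 2 * (y.re * y.im) * (Vx y 0).re)) ^ 2
        = (33 / 2048 : ℝ) ^ 2 * ((y.re ^ 2 - y.im ^ 2) * (Vx y 0).re
          - 2 * (y.re * y.im) * (Vx y 0).im) ^ 2 := by ring
    have h3 : 0 ≤ (33 / 2048 : ℝ) ^ 2 * ((y.re ^ 2 - y.im ^ 2) * (Vx y 0).re
          - 2 * (y.re * y.im) * (Vx y 0).im) ^ 2 := by positivity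
    linarith
  have hp1 : w ^ 2 * (1 - w) ≤ 4 / 27 := by
    nlinarith [mul_nonneg (by linarith : (0 : ℝ) ≤ 3 * w + 1) (sq_nonneg (3 * w - 2))]
  have hp2 : w * (1 - w) ≤ 1 / 4 := by nlinarith [sq_nonneg (2 * w - 1)]
  have hp3 : 0 ≤ w * (1 - w) := mul_nonneg hw0.le (by linarith)
  have hV2 : (1 - w) ^ 2 * ((Vx y 0).re ^ 2 + (Vx y 0).im ^ 2) ≤ 67 / 20 := by
    rw [hVV]
    have h1 : t ^ 2 - t + 1 + w ≤ 4000 / 59 * w + 1 + w := by linarith
    have h2 : (1 - w) ^ 2 * (w ^ 2 * (t ^ 2 - t + 1 + w)) =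
        (w * (1 - w)) ^ 2 * (t ^ 2 - t + 1 + w) := by ring
    rw [h2]
    have h3 : (w * (1 - w)) ^ 2 * (t ^ 2 - t + 1 + w) ≤
        (w * (1 - w)) ^ 2 * (4000 / 59 * w + 1 + w) :=
      mul_le_mul_of_nonneg_left h1 (sq_nonneg _)
    have h4 : (w * (1 - w)) ^ 2 * (4000 / 59 * w + 1 + w) =
        (w * (1 - w)) * (4059 / 59 * (w ^ 2 * (1 - w)) + w * (1 - w)) := by ring
    have h5 : 4059 / 59 * (w ^ 2 * (1 - w)) + w * (1 - w) ≤ 4059 / 59 * (4 / 27) + 1 / 4 := by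
      linarith
    have h6 : (w * (1 - w)) * (4059 / 59 * (w ^ 2 * (1 - w)) + w * (1 - w)) ≤
        (w * (1 - w)) * (4059 / 59 * (4 / 27) + 1 / 4) := mul_le_mul_of_nonneg_left h5 hp3
    nlinarith
  apply abs_le_of_sq_le_sq _ (by norm_num)
  nlinarith

theorem c4_B (y : ℂ) (h : Dom y) : 0 ≤ cqB y.re y.im ∧
    (qn y.re y.im ≤ 1 / 4 → 163 / 1024 * qn y.re y.im ≤ cqB y.re y.im) ∧
    31 / 204 * qn y.re y.im ≤ cqB y.re y.im := by
  have hN := dom_norm h
  have hr0 := norm_nonneg y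
  have hn : qn y.re y.im = ‖y‖ ^ 2 := by
    rw [← normSq_eq_norm_sq, normSq_apply]
    rfl
  -- `|Re y³| ≤ |y|³`
  have hc : (y.re * (y.re * y.re - 3 * (y.im * y.im))) ^ 2 ≤ (‖y‖ ^ 3) ^ 2 := by
    have e : (‖y‖ ^ 3) ^ 2 = (y.re * y.re + y.im * y.im) ^ 3 := by
      have : (‖y‖ ^ 3) ^ 2 = (‖y‖ ^ 2) ^ 3 := by ring
      rw [this, ← hn]
      rfl
    rw [e]
    have : (y.re * y.re + y.im * y.im) ^ 3 - (y.re * (y.re * y.re - 3 * (y.im * y.im))) ^ 2 =
      (y.im * (3 * (y.re * y.re) - y.im * y.im)) ^ 2 := by ring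
    nlinarith [sq_nonneg (y.im * (3 * (y.re * y.re) - y.im * y.im))]
  have hc' := abs_le_of_sq_le_sq' hc (by positivity)
  have hB : cqB y.re y.im = 173 / 1024 * ‖y‖ ^ 2 +
      77 / 4096 * (y.re * (y.re * y.re - 3 * (y.im * y.im))) := by
    unfold cqB
    rw [hn]
    ring
  have hlow : 173 / 1024 * ‖y‖ ^ 2 - 77 / 4096 * ‖y‖ ^ 3 ≤ cqB y.re y.im := by
    rw [hB]
    linarith [hc'.1]
  have h2 : 31 / 204 * qn y.re y.im ≤ cqB y.re y.im := by
    refine le_trans ?_ hlow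
    rw [hn]
    have : ‖y‖ ^ 3 ≤ 8887 / 10000 * ‖y‖ ^ 2 := by
      have := mul_le_mul_of_nonneg_right hN (sq_nonneg ‖y‖)
      nlinarith
    nlinarith [sq_nonneg ‖y‖]
  refine ⟨?_, ?_, h2⟩
  · have : 0 ≤ qn y.re y.im := by rw [hn]; positivity
    linarith
  · intro hq
    refine le_trans ?_ hlow
    rw [hn] at hq ⊢
    have hr : ‖y‖ ≤ 1 / 2 := by nlinarith
    have : ‖y‖ ^ 3 ≤ 1 / 2 * ‖y‖ ^ 2 := by
      have := mul_le_mul_of_nonneg_right hr (sq_nonneg ‖y‖)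
      nlinarith
    nlinarith [sq_nonneg ‖y‖]

/-- quadratic form -/
theorem c4_quad (E R : ℝ) (g v : ℂ) (hE : 0 < E) (h : normSq g ≤ 4 * R * E) :
    0 ≤ E + dt g v + R * normSq v := by
  have hg := normSq_nonneg g
  have hv := normSq_nonneg v
  have hR : 0 ≤ R := by
    by_contra hc
    push Not at hc
    nlinarith
  have hCS : dt g v ^ 2 ≤ normSq g * normSq v := by
    rw [normSq_apply, normSq_apply]
    unfold dt
    nlinarith [sq_nonneg (g.re * v.im - g.im * v.re)]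
  have h1 : dt g v ^ 2 ≤ (E + R * normSq v) ^ 2 := by
    have h2 : normSq g * normSq v ≤ 4 * R * E * normSq v := mul_le_mul_of_nonneg_right h hv
    nlinarith [sq_nonneg (E - R * normSq v)]
  have h3 := abs_le_of_sq_le_sq' h1 (by positivity)
  linarith [h3.1]

theorem coarse0 (y v : ℂ) (h : Dom y) (hv : ‖v‖ ≤ 3 / 10) :
    0 ≤ EC (9 / 64) (413 / 65536) y v (cbe y) (cbV y (Vx y 0)) (cw y (Vx y 0)) := by
  have h0 := h 0
  have e0 : dt (uu 0) y = y.re := by
    show (1 : ℂ).re * y.re + (1 : ℂ).im * y.im = y.re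
    simp
  rw [e0] at h0
  have hd : 0 < 1 - 2 * y.re := by linarith [h0.1]
  have hqd : cqd y.re = 1 - 2 * y.re := by unfold cqd; ring
  have hqd0 : 0 < cqd y.re := by rw [hqd]; exact hd
  obtain ⟨hE, K3, Ph, Cl, lam, hl, hc, hF1, hF2⟩ := coarse2d y h
  obtain ⟨-, hBB, -, -⟩ := c4_forms y hd
  obtain ⟨ho1, ho2⟩ := c4_om y hd
  obtain ⟨hg1, hg2⟩ := c4_g y hd
  have hEE := c4_E y hd
  obtain ⟨hB0, hB1, hB2⟩ := c4_B y h
  have hn : normSq y = qn y.re y.im := by rw [normSq_apply]; rfl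
  have hN := dom_norm h
  have hqn0 : 0 ≤ qn y.re y.im := by rw [← hn]; exact normSq_nonneg y
  have hqn8 : normSq y ≤ (8887 / 10000) ^ 2 := by
    rw [normSq_eq_norm_sq]
    exact pow_le_pow_left₀ (norm_nonneg y) hN 2
  set g := ecg (9 / 64) y (cbe y) (cbV y (Vx y 0)) (cw y (Vx y 0)) with hg
  set om := -I * cbe y - cbV y (Vx y 0) with hom
  set E0 := ec0 (9 / 64) (413 / 65536) y (cbe y) (cw y (Vx y 0)) with hE0
  set d := cqd y.re with hdd
  set B := cqB y.re y.im with hB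
  set n := qn y.re y.im with hnn
  -- the numbers `N r`
  have hNr : ∀ r : ℝ, normSq (((lam - Cl : ℝ) : ℂ) * y + ((r : ℝ) : ℂ) * om) * d ^ 2 =
      ((lam - Cl) * d * y.re + r * qor y.re y.im) * ((lam - Cl) * d * y.re + r * qor y.re y.im)
        + ((lam - Cl) * d * y.im + r * qoi y.re y.im) *
          ((lam - Cl) * d * y.im + r * qoi y.re y.im) := by
    intro r
    rw [← ho1, ← ho2, normSq_apply]
    simp only [mul_re, mul_im, add_re, add_im, ofReal_re, ofReal_im]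
    ring
  set N1 := normSq (((lam - Cl : ℝ) : ℂ) * y + ((1 : ℝ) : ℂ) * om) with hN1
  set N2 := normSq (((lam - Cl : ℝ) : ℂ) * y + ((535 / 512 : ℝ) : ℂ) * om) with hN2
  have hgd : normSq g * d ^ 2 = qgr y.re y.im * qgr y.re y.im + qgi y.re y.im * qgi y.re y.im := by
    rw [← hg1, ← hg2, normSq_apply]
    ring
  have hE0p : 0 < E0 := by
    have : 0 < E0 * d := by rw [hEE]; exact hE
    exact (mul_pos_iff_of_pos_right hqd0).mp this
  have key : ∀ r : ℝ, 0 ≤ qF K3 Ph Cl lam r y.re y.im →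
      lam * normSq g ≤ (4 * lam * (81 / 16 - 9 / 64 * n + 125 / 256 * B - K3) -
        Ph * normSq (((lam - Cl : ℝ) : ℂ) * y + ((r : ℝ) : ℂ) * om)) * E0 := by
    intro r hr
    have e : qF K3 Ph Cl lam r y.re y.im = ((4 * lam * (81 / 16 - 9 / 64 * n + 125 / 256 * B - K3) -
        Ph * normSq (((lam - Cl : ℝ) : ℂ) * y + ((r : ℝ) : ℂ) * om)) * E0
          - lam * normSq g) * d ^ 3 := by
      unfold qF
      rw [← hNr r, ← hgd, ← hEE]
      ring
    rw [e] at hr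
    have hd3 : 0 < d ^ 3 := by positivity
    have := nonneg_of_mul_nonneg_left hr hd3
    linarith
  have k1 := key 1 hF1
  have k2 := key (535 / 512) hF2
  rw [← hN1] at k1
  rw [← hN2] at k2
  -- the constant `M`
  set M := max N1 N2 / (4 * lam) with hM
  have h4l : 0 < 4 * lam := by linarith
  have hMm : 4 * lam * M = max N1 N2 := by
    rw [hM]
    field_simp
  have hN1M : N1 ≤ 4 * lam * M := by rw [hMm]; exact le_max_left _ _
  have hN2M : N2 ≤ 4 * lam * M := by rw [hMm]; exact le_max_right _ _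
  have hR : normSq g ≤ 4 * (81 / 16 - 9 / 64 * n + 125 / 256 * B - K3 - Ph * M) * E0 := by
    have h1 : lam * normSq g ≤ (4 * lam * (81 / 16 - 9 / 64 * n + 125 / 256 * B - K3) -
        Ph * max N1 N2) * E0 := by
      rcases le_total N1 N2 with hh | hh
      · rw [max_eq_right hh]; exact k2
      · rw [max_eq_left hh]; exact k1
    rw [← hMm] at h1
    have h2 : lam * normSq g ≤
        lam * (4 * (81 / 16 - 9 / 64 * n + 125 / 256 * B - K3 - Ph * M) * E0) := by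
      refine h1.trans (le_of_eq ?_)
      ring
    exact le_of_mul_le_mul_left h2 hl
  have hq := c4_quad E0 _ g v hE0p hR
  have hel : ∀ H : ℝ, 0 ≤ H → H ≤ 9 / 10 → normSq y ≤ H ^ 2 →
      1 ≤ Ph * (1 - 2874 / 10000 * H) →
      1437 / 10000 * H * (103 / 100 + 2937 / 10000 * H ^ 2) ≤ K3 →
      Cl ≤ 97 / 100 + B + 9 / 64 * (2 * (1 / (1 + 2874 / 10000 * H))
        - 109 / 100 * n * (2 + 1 / (1 + 2874 / 10000 * H))) →
      0 ≤ EC (9 / 64) (413 / 65536) y v (cbe y) (cbV y (Vx y 0)) (cw y (Vx y 0)) := by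
    intro H hH0 hH1 hyH hPh hK hC
    have := coarse_elim (413 / 65536) y v (cbe y) (cbV y (Vx y 0)) (cw y (Vx y 0)) H Ph K3 Cl lam M
      hH0 hH1 hyH hv (c4_w y h) (by rw [hBB]; exact hB0) hPh hK
      (by rw [hBB, hn]; exact hC) hl
      (by
        have e : (((lam - Cl : ℝ) : ℂ) * y + (-I * cbe y - cbV y (Vx y 0))) =
            ((lam - Cl : ℝ) : ℂ) * y + ((1 : ℝ) : ℂ) * om := by
          rw [hom]; push_cast; ring
        rw [e]
        exact hN1M)
      hN2M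
    rw [hBB, hn] at this
    linarith
  rcases hc with ⟨hc1, hc2, hc3, hc4⟩ | ⟨hc1, hc2, hc3, hc4⟩
  · refine hel (1 / 2) (by norm_num) (by norm_num) ?_ ?_ ?_ ?_
    · rw [hn]; norm_num; linarith
    · rw [hc3]; norm_num
    · rw [hc2]; norm_num
    · have := hB1 hc1
      rw [hc4]
      norm_num
      linarith
  · refine hel (8887 / 10000) (by norm_num) (by norm_num) hqn8 ?_ ?_ ?_
    · rw [hc3]; norm_num
    · rw [hc2]; norm_num
    · rw [hc4]
      norm_num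
      linarith

end Pool.H61.Rh
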