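import Pool.Agent.H81.Co.C1
import Pool.Agent.H81.Co.C4
import Pool.Agent.H61.Rc.R5a
import Pool.Agent.H61.Rc.N8b

/-! # C5: the coarse calibration -/

set_option autoImplicit false

namespace Pool.H61.Rh

open Complex

/-- derivative of `W0c` -/
noncomputable def Dc (y v V u : ℂ) : ℝ := cw y V + dt (cbV y V) v + dt (cbe y) u

theorem W0c_contDiff : ContDiff ℝ 1 W0c := by
  have h1 : ContDiff ℝ 1 (fun p : ℂ × ℂ => p.1.re) :=
    Complex.reCLM.contDiff.comp contDiff_fst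
  have h2 : ContDiff ℝ 1 (fun p : ℂ × ℂ => p.1.im) :=
    Complex.imCLM.contDiff.comp contDiff_fst
  have h3 : ContDiff ℝ 1 (fun p : ℂ × ℂ => p.2.re) :=
    Complex.reCLM.contDiff.comp contDiff_snd
  have h4 : ContDiff ℝ 1 (fun p : ℂ × ℂ => p.2.im) :=
    Complex.imCLM.contDiff.comp contDiff_snd
  have e : W0c = fun p : ℂ × ℂ =>
      (-(173 / 1024) * p.1.im + 77 / 2048 * (p.1.re * p.1.im)) * p.2.re
      + (173 / 1024 * p.1.re + 77 / 4096 * (p.1.re ^ 2 - p.1.im ^ 2)) * p.2.im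
      - 11 / 2048 * (3 * p.1.re ^ 2 * p.1.im - p.1.im ^ 3) := by
    funext p
    rfl
  rw [e]
  exact ((((contDiff_const.mul h2).add (contDiff_const.mul (h1.mul h2))).mul h3).add
    (((contDiff_const.mul h1).add (contDiff_const.mul ((h1.pow 2).sub (h2.pow 2)))).mul h4)).sub
    (contDiff_const.mul (((contDiff_const.mul (h1.pow 2)).mul h2).sub (h2.pow 3)))

theorem W0c_fderiv (y v V u : ℂ) : fderiv ℝ W0c (y, v) (V, u) = Dc y v V u := by
  have hl : HasDerivAt (fun t : ℝ => ((y, v) : ℂ × ℂ) + t • ((V, u) : ℂ × ℂ)) (V, u) 0 := by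
    have h1 := ((hasDerivAt_id (0 : ℝ)).smul_const ((V, u) : ℂ × ℂ)).const_add ((y, v) : ℂ × ℂ)
    simpa using h1
  have hf : HasFDerivAt W0c (fderiv ℝ W0c (y, v)) (((y, v) : ℂ × ℂ) + (0 : ℝ) • ((V, u) : ℂ × ℂ)) := by
    have := (W0c_contDiff.differentiable (by norm_num) (y, v)).hasFDerivAt
    simpa using this
  have h1 := hf.comp_hasDerivAt (0 : ℝ) hl
  have hx : HasDerivAt (fun t : ℝ => y.re + t * V.re) V.re 0 := by
    simpa using ((hasDerivAt_id (0 : ℝ)).mul_const V.re).const_add y.re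
  have hz : HasDerivAt (fun t : ℝ => y.im + t * V.im) V.im 0 := by
    simpa using ((hasDerivAt_id (0 : ℝ)).mul_const V.im).const_add y.im
  have ha : HasDerivAt (fun t : ℝ => v.re + t * u.re) u.re 0 := by
    simpa using ((hasDerivAt_id (0 : ℝ)).mul_const u.re).const_add v.re
  have hb : HasDerivAt (fun t : ℝ => v.im + t * u.im) u.im 0 := by
    simpa using ((hasDerivAt_id (0 : ℝ)).mul_const u.im).const_add v.im
  have h2 := ((((hz.const_mul (-(173 / 1024))).add ((hx.mul hz).const_mul (77 / 2048))).mul ha).add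
    (((hx.const_mul (173 / 1024)).add (((hx.pow 2).sub (hz.pow 2)).const_mul (77 / 4096))).mul hb)).sub
    ((((hx.pow 2).const_mul 3).mul hz |>.sub (hz.pow 3)).const_mul (11 / 2048))
  have h3 : HasDerivAt (W0c ∘ fun t : ℝ => ((y, v) : ℂ × ℂ) + t • ((V, u) : ℂ × ℂ)) (Dc y v V u) 0 := by
    refine (h2.congr_of_eventuallyEq ?_).congr_deriv ?_
    · refine Filter.Eventually.of_forall fun t => ?_
      simp [W0c, dt, cbe]
    · simp [Dc, cw, dt, cbV, cbe]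
      ring
  exact h1.unique h3

private theorem u1n : normSq (uu 1) = 1 := by
  have := s3_mul
  have h : uu 1 = ⟨-1 / 2, s3 / 2⟩ := rfl
  rw [h, normSq_apply]
  nlinarith

private theorem u1c : uu 1 * (starRingEnd ℂ) (uu 1) = 1 := by
  rw [mul_conj, u1n]
  simp

private theorem u1_3 : uu 1 ^ 3 = 1 := by
  have hs := s3_mul
  have h : uu 1 = ⟨-1 / 2, s3 / 2⟩ := rfl
  have e : uu 1 ^ 3 = uu 1 * (uu 1 * uu 1) := by ring
  rw [e, h]
  apply Complex.ext
  · simp only [mul_re, mul_im, one_re]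
    linear_combination (3 / 8 : ℝ) * hs
  · simp only [mul_re, mul_im, one_im]
    linear_combination (-s3 / 8 : ℝ) * hs

private theorem u2 : uu 2 = uu 1 * uu 1 := by
  have hs := s3_mul
  have h : uu 1 = ⟨-1 / 2, s3 / 2⟩ := rfl
  have h2 : uu 2 = ⟨-1 / 2, -(s3 / 2)⟩ := rfl
  rw [h2, h]
  apply Complex.ext
  · simp only [mul_re]
    linear_combination (1 / 4 : ℝ) * hs
  · simp only [mul_im]
    ring

theorem W0c_eq (y v : ℂ) : W0c (y, v) =
    (-(173 / 1024 : ℂ) * (y * (starRingEnd ℂ) v) + (77 / 4096 : ℂ) * (y ^ 2 * v)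
      - (11 / 2048 : ℂ) * y ^ 3).im := by
  have e2 : y ^ 2 = y * y := by ring
  have e3 : y ^ 3 = y * (y * y) := by ring
  have c1 : (173 / 1024 : ℂ) = ((173 / 1024 : ℝ) : ℂ) := by push_cast; rfl
  have c2 : (77 / 4096 : ℂ) = ((77 / 4096 : ℝ) : ℂ) := by push_cast; rfl
  have c3 : (11 / 2048 : ℂ) = ((11 / 2048 : ℝ) : ℂ) := by push_cast; rfl
  rw [e2, e3, c1, c2, c3]
  simp only [sub_im, add_im, mul_im, mul_re, neg_re, neg_im, ofReal_re, ofReal_im, conj_re,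
    conj_im]
  unfold W0c dt cbe
  simp only
  ring

theorem Dc_eq (y v V u : ℂ) : Dc y v V u =
    (-(173 / 1024 : ℂ) * (V * (starRingEnd ℂ) v + y * (starRingEnd ℂ) u)
      + (77 / 4096 : ℂ) * (2 * (y * V * v) + y ^ 2 * u)
      - (33 / 2048 : ℂ) * (y ^ 2 * V)).im := by
  have e2 : y ^ 2 = y * y := by ring
  have c1 : (173 / 1024 : ℂ) = ((173 / 1024 : ℝ) : ℂ) := by push_cast; rfl
  have c2 : (77 / 4096 : ℂ) = ((77 / 4096 : ℝ) : ℂ) := by push_cast; rfl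
  have c3 : (33 / 2048 : ℂ) = ((33 / 2048 : ℝ) : ℂ) := by push_cast; rfl
  have c4 : (2 : ℂ) = ((2 : ℝ) : ℂ) := by push_cast; rfl
  rw [e2, c1, c2, c3, c4]
  simp only [sub_im, add_im, add_re, mul_im, mul_re, neg_re, neg_im, ofReal_re, ofReal_im, conj_re,
    conj_im]
  unfold Dc cw cbV cbe dt
  simp only
  ring

private theorem rot3 (a b c : ℂ) : (uu 1 * a) * (uu 1 * b) * (uu 1 * c) = a * b * c := by
  linear_combination (a * b * c) * u1_3

private theorem rotc (a b : ℂ) : (uu 1 * a) * (starRingEnd ℂ) (uu 1 * b) =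
    a * (starRingEnd ℂ) b := by
  rw [map_mul]
  linear_combination (a * (starRingEnd ℂ) b) * u1c

theorem W0c_rot (y v : ℂ) : W0c (uu 1 * y, uu 1 * v) = W0c (y, v) := by
  rw [W0c_eq, W0c_eq, rotc]
  have h1 : (uu 1 * y) ^ 2 * (uu 1 * v) = y ^ 2 * v := by
    linear_combination (y ^ 2 * v) * u1_3
  have h2 : (uu 1 * y) ^ 3 = y ^ 3 := by
    linear_combination (y ^ 3) * u1_3
  rw [h1, h2]

theorem Dc_rot (y v V u : ℂ) : Dc (uu 1 * y) (uu 1 * v) (uu 1 * V) (uu 1 * u) = Dc y v V u := by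
  rw [Dc_eq, Dc_eq, rotc, rotc, rot3]
  have h1 : (uu 1 * y) ^ 2 * (uu 1 * u) = y ^ 2 * u := by
    linear_combination (y ^ 2 * u) * u1_3
  have h2 : (uu 1 * y) ^ 2 * (uu 1 * V) = y ^ 2 * V := by
    linear_combination (y ^ 2 * V) * u1_3
  rw [h1, h2]

private theorem cr_rot' (y v : ℂ) : cr (uu 1 * y) (uu 1 * v) = cr y v := by
  have h := u1n
  rw [normSq_apply] at h
  simp only [cr, mul_re, mul_im]
  linear_combination (y.re * v.im - y.im * v.re) * h

private theorem dt_rot' (y v : ℂ) : dt (uu 1 * y) (uu 1 * v) = dt y v := by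
  have h := u1n
  rw [normSq_apply] at h
  simp only [dt, mul_re, mul_im]
  linear_combination (y.re * v.re + y.im * v.im) * h

theorem Lag1_rot (k2 : ℝ) (y v : ℂ) : Lag1 k2 (uu 1 * y) (uu 1 * v) = Lag1 k2 y v := by
  unfold Lag1
  rw [bp_rot, cr_rot', normSq_mul, normSq_mul, u1n, one_mul, one_mul]

theorem vt_rot (y v : ℂ) : vt (uu 1 * y) (uu 1 * v) = uu 1 * vt y v := by
  unfold vt
  rw [fs_rot, bp_rot]
  ring

theorem Vx_rot1 (y : ℂ) : Vx (uu 1 * y) 1 = uu 1 * Vx y 0 := by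
  unfold Vx
  have h : dt (uu 1) (uu 1 * y) = dt (uu 0) y := by
    have := dt_rot' (uu 0) y
    have h0 : uu 1 * uu 0 = uu 1 := by
      have : uu 0 = 1 := rfl
      rw [this, mul_one]
    rwa [h0] at this
  rw [h, normSq_mul, u1n, one_mul]
  have h0 : uu 0 = 1 := rfl
  rw [h0]
  ring

theorem Vx_rot2 (y : ℂ) : Vx (uu 1 * y) 2 = uu 1 * Vx y 1 := by
  unfold Vx
  have h : dt (uu 2) (uu 1 * y) = dt (uu 1) y := by
    have := dt_rot' (uu 1) y
    rwa [← u2] at this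
  rw [h, normSq_mul, u1n, one_mul, u2]
  ring

private theorem unrot (y : ℂ) : y = uu 1 * (uu 1 * (uu 1 * y)) := by
  linear_combination (-y) * u1_3

private theorem norm_rot (v : ℂ) : ‖uu 1 * v‖ = ‖v‖ := by
  rw [norm_mul]
  have : ‖uu 1‖ = 1 := by
    have h := u1n
    rw [normSq_eq_norm_sq] at h
    nlinarith [norm_nonneg (uu 1)]
  rw [this, one_mul]

theorem ineq0 (y v : ℂ) (h : Dom y) (hv : ‖v‖ ≤ 3 / 10) :
    Dc y v (Vx y 0) (vt y v) ≤ (Lag1 (9 / 64) y v + 413 / 65536) * fs y v := by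
  obtain ⟨h1, h2⟩ := coarse_alg (9 / 64) (413 / 65536) y v (cbe y) (cbV y (Vx y 0))
    (cw y (Vx y 0)) (dom_normSq h)
  have h3 := mul_nonneg h1.le (coarse0 y v h hv)
  rw [← h2] at h3
  unfold Dc
  linarith

theorem ineq1 (y v : ℂ) (h : Dom y) (hv : ‖v‖ ≤ 3 / 10) :
    Dc y v (Vx y 1) (vt y v) ≤ (Lag1 (9 / 64) y v + 413 / 65536) * fs y v := by
  have h1 := ineq0 (uu 1 * (uu 1 * y)) (uu 1 * (uu 1 * v)) (dom_rot (dom_rot h))
    (by rw [norm_rot, norm_rot]; exact hv)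
  rw [← Dc_rot, ← Vx_rot1, ← vt_rot, ← Lag1_rot, ← fs_rot, ← unrot, ← unrot] at h1
  exact h1

theorem ineq2 (y v : ℂ) (h : Dom y) (hv : ‖v‖ ≤ 3 / 10) :
    Dc y v (Vx y 2) (vt y v) ≤ (Lag1 (9 / 64) y v + 413 / 65536) * fs y v := by
  have h1 := ineq1 (uu 1 * (uu 1 * y)) (uu 1 * (uu 1 * v)) (dom_rot (dom_rot h))
    (by rw [norm_rot, norm_rot]; exact hv)
  rw [← Dc_rot, ← Vx_rot2, ← vt_rot, ← Lag1_rot, ← fs_rot, ← unrot, ← unrot] at h1
  exact h1

/-- THE COARSE CERTIFICATE -/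
theorem coarse : Cal1 (9 / 64) (413 / 65536) W0c := by
  refine ⟨W0c_contDiff.contDiffOn, fun y v _ _ => W0c_rot y v, ?_⟩
  intro y h v hv j
  rw [W0c_fderiv]
  fin_cases j
  · exact ineq0 y v h hv
  · exact ineq1 y v h hv
  · exact ineq2 y v h hv

end Pool.H61.Rh
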