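import Pool.Agent.H61.Rc.N11
import Pool.Agent.H61.Rc.H0

/-! # C0: the autonomous (coarse) calibration: definitions

`W0c (y, v) = -(173/1024) Im (y v̄) + (77/4096) Im (y² v) - (11/2048) Im (y³)`,
`= dt (cbe y) v - (11/2048) Im (y³)`.  `cbV y V`, `cw y V` are the derivatives of `cbe y` and of
`-(11/2048) Im (y³)` in the direction `V`.  With `φ = 1/fs`, `ρ = √(1+|v|²)`:
`(Lag1 k2 y v + κ) fs - DW0c [V, vt] = fs * EC`. -/

set_option autoImplicit false

namespace Pool.H61.Rh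

open Complex

/-- gradient in `v` -/
noncomputable def cbe (y : ℂ) : ℂ :=
  ⟨-(173 / 1024) * y.im + 77 / 2048 * (y.re * y.im),
    173 / 1024 * y.re + 77 / 4096 * (y.re ^ 2 - y.im ^ 2)⟩

/-- derivative of `cbe` at `y` in the direction `V` -/
noncomputable def cbV (y V : ℂ) : ℂ :=
  ⟨-(173 / 1024) * V.im + 77 / 2048 * (V.re * y.im + y.re * V.im),
    173 / 1024 * V.re + 77 / 2048 * (y.re * V.re - y.im * V.im)⟩

/-- derivative of the part without `v` in the direction `V` -/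
noncomputable def cw (y V : ℂ) : ℝ :=
  -(33 / 2048) * ((y.re ^ 2 - y.im ^ 2) * V.im + 2 * (y.re * y.im) * V.re)

/-- the calibration function -/
noncomputable def W0c (p : ℂ × ℂ) : ℝ :=
  dt (cbe p.1) p.2 - 11 / 2048 * (3 * p.1.re ^ 2 * p.1.im - p.1.im ^ 3)

/-- `(Lag1 + κ) - DW/fs` in terms of `φ = 1/fs`, `ρ` -/
noncomputable def EC (k2 κ : ℝ) (y v β βV : ℂ) (w : ℝ) : ℝ :=
  κ + 36 * k2 * normSq v + (1 / fs y v - 1)
    - k2 * ((1 / fs y v) ^ 2 * rh v ^ 2 * normSq y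
        - (1 - 1 / fs y v) ^ 2 * (1 + rh v ^ 2))
    + 1 / fs y v * rh v * dt β (I * y) + (1 + 1 / fs y v) * dt β (I * v)
    - 1 / fs y v * (w + dt βV v)

/-- value of `EC` at `v = 0` -/
noncomputable def ec0 (k2 κ : ℝ) (y β : ℂ) (w : ℝ) : ℝ :=
  κ - k2 * normSq y + dt β (I * y) - w

/-- gradient of `EC` at `v = 0` -/
noncomputable def ecg (k2 : ℝ) (y β βV : ℂ) (w : ℝ) : ℂ :=
  ((-1 + 2 * k2 * normSq y - dt β (I * y) + w : ℝ) : ℂ) * y - 2 * I * β - βV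

/-! real polynomials, `y = x + i z`, vertex `0`, everything multiplied by `d = 1 - 2x` -/

noncomputable def qn (x z : ℝ) : ℝ := x * x + z * z
noncomputable def cqd (x : ℝ) : ℝ := 1 - (x + x)
/-- `d V_0` -/
noncomputable def qVr (x z : ℝ) : ℝ := (1 - qn x z) * cqd x * z
noncomputable def qVi (x z : ℝ) : ℝ :=
  (1 - qn x z) * (((1 - qn x z) + (1 - qn x z)) - x * cqd x)
/-- `d cw` -/
noncomputable def qw (x z : ℝ) : ℝ :=
  -(33 / 2048) * ((x * x - z * z) * qVi x z + (x * z + x * z) * qVr x z)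
/-- `dt β (I y)` -/
noncomputable def cqB (x z : ℝ) : ℝ :=
  173 / 1024 * qn x z + 77 / 4096 * (x * (x * x - (z * z + z * z + z * z)))
/-- `β` -/
noncomputable def qbr (x z : ℝ) : ℝ := 77 / 2048 * (x * z) - 173 / 1024 * z
noncomputable def qbi (x z : ℝ) : ℝ := 173 / 1024 * x + 77 / 4096 * (x * x - z * z)
/-- `d βV` -/
noncomputable def qBr (x z : ℝ) : ℝ :=
  77 / 2048 * (qVr x z * z + x * qVi x z) - 173 / 1024 * qVi x z
noncomputable def qBi (x z : ℝ) : ℝ :=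
  173 / 1024 * qVr x z + 77 / 2048 * (x * qVr x z - z * qVi x z)
/-- `d ω`, `ω = -I β - βV` -/
noncomputable def qor (x z : ℝ) : ℝ := qbi x z * cqd x - qBr x z
noncomputable def qoi (x z : ℝ) : ℝ := 0 - qbr x z * cqd x - qBi x z
/-- `d` times the coefficient of `y` in the gradient -/
noncomputable def qs (x z : ℝ) : ℝ := (9 / 32 * qn x z - 1 - cqB x z) * cqd x + qw x z
/-- `d g` -/
noncomputable def qgr (x z : ℝ) : ℝ :=
  qs x z * x + (qbi x z * cqd x + qbi x z * cqd x) - qBr x z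
noncomputable def qgi (x z : ℝ) : ℝ :=
  qs x z * z - (qbr x z * cqd x + qbr x z * cqd x) - qBi x z
/-- `d E0` -/
noncomputable def qE (x z : ℝ) : ℝ :=
  (413 / 65536 - 9 / 64 * qn x z + cqB x z) * cqd x - qw x z
/-- `lam d³ (4 R E0 - |g|²)` -/
noncomputable def qF (K3 Ph Cl lam r x z : ℝ) : ℝ :=
  (4 * lam * (81 / 16 - 9 / 64 * qn x z + 125 / 256 * cqB x z - K3) * cqd x * cqd x
    - Ph * (((lam - Cl) * cqd x * x + r * qor x z) * ((lam - Cl) * cqd x * x + r * qor x z)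
        + ((lam - Cl) * cqd x * z + r * qoi x z) * ((lam - Cl) * cqd x * z + r * qoi x z)))
    * qE x z - lam * cqd x * (qgr x z * qgr x z + qgi x z * qgi x z)

/-- the two classes of constants: `|y| ≤ 1/2` and `|y| ≤ .8887` -/
def QCls (x z K3 Ph Cl : ℝ) : Prop :=
  (qn x z ≤ 1 / 4 ∧ K3 = 41 / 512 ∧ Ph = 299 / 256 ∧ Cl = 311 / 256 - 73 / 256 * qn x z) ∨
  (qn x z ≤ 79 / 100 ∧ K3 = 83 / 512 ∧ Ph = 43 / 32 ∧ Cl = 305 / 256 - 71 / 256 * qn x z)

end Pool.H61.Rh
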