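import Pool.Agent.H81.Co.C0

/-! # C1: the exact form of the coarse inequality (algebra)

With `ρ = rh v`, `κ' = dt y v / ρ`, `fs = 1 + κ'`, `φ = 1/fs` (`fs > 0` because
`|dt y v| ≤ ‖y‖ ‖v‖ < ρ`), `bp y v = -I G / fs` with `G = ρ y - κ' v` (as
`(1+|v|²) y - (y·v) v = ρ G`, `ρ + dt y v = ρ fs`):
`cr v (bp y v) = -κ'/fs = φ - 1`,
`normSq (bp y v) = φ² (ρ² (|y|² - κ'²) - κ'²) = φ² ρ² |y|² - (1 - φ)² (1 + ρ²)` (`φ κ' = 1 - φ`),
`dt β (vt y v) = dt β (-I G) - 2 fs dt β (I v)`, `dt β (I G) = ρ dt β (I y) - κ' dt β (I v)`.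
(All identities hold in coordinates, only `ρ² = 1 + |v|²` is used.) -/

set_option autoImplicit false

namespace Pool.H61.Rh

open Complex

private theorem C1_abs_dt (x y : ℂ) : |dt x y| ≤ ‖x‖ * ‖y‖ := by
  have h : dt x y = ((starRingEnd ℂ) x * y).re := by
    rw [mul_re, conj_re, conj_im]
    unfold dt
    ring
  rw [h]
  calc |((starRingEnd ℂ) x * y).re| ≤ ‖(starRingEnd ℂ) x * y‖ := abs_re_le_norm _
    _ = ‖x‖ * ‖y‖ := by rw [norm_mul, norm_conj]

theorem coarse_alg (k2 κ : ℝ) (y v β βV : ℂ) (w : ℝ) (hy : normSq y < 1) :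
    0 < fs y v ∧ (Lag1 k2 y v + κ) * fs y v - w - dt βV v - dt β (vt y v) =
      fs y v * EC k2 κ y v β βV w := by
  have hv := normSq_nonneg v
  obtain ⟨r, hr⟩ : ∃ r : ℝ, r = Real.sqrt (1 + normSq v) := ⟨_, rfl⟩
  have hr0 : 0 < r := by rw [hr]; exact Real.sqrt_pos.2 (by linarith)
  have hr2 : r ^ 2 = 1 + normSq v := by rw [hr]; exact Real.sq_sqrt (by linarith)
  have hrh : rh v = r := hr.symm
  have hvr : ‖v‖ < r := by
    rw [hr]
    refine Real.lt_sqrt_of_sq_lt ?_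
    rw [normSq_eq_norm_sq]
    linarith
  have hyn : ‖y‖ ≤ 1 := by
    rw [normSq_eq_norm_sq] at hy
    have h1 := norm_nonneg y
    nlinarith
  have hd : 0 < r + dt y v := by
    have h1 := C1_abs_dt y v
    have h2 := (abs_le.1 h1).1
    have h3 : ‖y‖ * ‖v‖ ≤ 1 * ‖v‖ := mul_le_mul_of_nonneg_right hyn (norm_nonneg v)
    linarith
  obtain ⟨K, hK⟩ : ∃ K : ℝ, K = dt y v / r := ⟨_, rfl⟩
  have hKr : K * r = dt y v := by
    rw [hK]
    field_simp
  have hfs : fs y v = 1 + K := by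
    unfold fs
    rw [hK, hr]
  have hf : 0 < 1 + K := by
    have h1 : r * (1 + K) = r + dt y v := by rw [← hKr]; ring
    have h2 : 0 < r * (1 + K) := by rw [h1]; exact hd
    exact pos_of_mul_pos_right h2 hr0.le
  have hf' : (1 + K) ≠ 0 := hf.ne'
  have hbp : bp y v = ⟨(r * y.im - K * v.im) / (1 + K), -(r * y.re - K * v.re) / (1 + K)⟩ := by
    unfold bp
    rw [← hr]
    have h1 : r + dt y v = r * (1 + K) := by rw [← hKr]; ring
    have h2 : ((1 + normSq v : ℝ) : ℂ) * y - ((dt y v : ℝ) : ℂ) * v =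
        ((r : ℝ) : ℂ) * (((r : ℝ) : ℂ) * y - ((K : ℝ) : ℂ) * v) := by
      rw [← hr2, ← hKr]
      push_cast
      ring
    have h3 : -I * (((r : ℝ) : ℂ) * (((r : ℝ) : ℂ) * y - ((K : ℝ) : ℂ) * v)) /
        ((r * (1 + K) : ℝ) : ℂ) =
        (((1 + K)⁻¹ : ℝ) : ℂ) * (-I * (((r : ℝ) : ℂ) * y - ((K : ℝ) : ℂ) * v)) := by
      have hrc : (r : ℂ) ≠ 0 := by exact_mod_cast hr0.ne'
      have hfc : (1 + (K : ℂ)) ≠ 0 := by exact_mod_cast hf'
      push_cast
      field_simp
    rw [h1, h2, h3]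
    apply Complex.ext
    · rw [re_ofReal_mul, mul_re, neg_re, neg_im, I_re, I_im, sub_re, sub_im, re_ofReal_mul,
        re_ofReal_mul, im_ofReal_mul, im_ofReal_mul]
      rw [div_eq_inv_mul]
      ring
    · rw [im_ofReal_mul, mul_im, neg_re, neg_im, I_re, I_im, sub_re, sub_im, re_ofReal_mul,
        re_ofReal_mul, im_ofReal_mul, im_ofReal_mul]
      rw [div_eq_inv_mul]
      ring
  have hD : K * r = y.re * v.re + y.im * v.im := hKr
  have hr2' : r ^ 2 = 1 + (v.re * v.re + v.im * v.im) := by rw [hr2, normSq_apply]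
  have h1 : cr v (bp y v) = -K / (1 + K) := by
    rw [hbp]
    unfold cr
    show v.re * (-(r * y.re - K * v.re) / (1 + K)) - v.im * ((r * y.im - K * v.im) / (1 + K)) = _
    rw [mul_div_assoc', mul_div_assoc', ← sub_div]
    congr 1
    linear_combination r * hD - K * hr2'
  have h2 : normSq (bp y v) =
      (r ^ 2 * normSq y - r ^ 2 * K ^ 2 - K ^ 2) / (1 + K) ^ 2 := by
    rw [hbp, normSq_apply, normSq_apply]
    show (r * y.im - K * v.im) / (1 + K) * ((r * y.im - K * v.im) / (1 + K)) +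
      -(r * y.re - K * v.re) / (1 + K) * (-(r * y.re - K * v.re) / (1 + K)) = _
    rw [div_mul_div_comm, div_mul_div_comm, ← add_div, ← pow_two (1 + K)]
    congr 1
    linear_combination 2 * K * r * hD - K ^ 2 * hr2'
  have h3 : dt β (vt y v) = -(r * dt β (I * y) - K * dt β (I * v)) -
      2 * (1 + K) * dt β (I * v) := by
    have e : vt y v = ⟨(r * y.im - K * v.im) + 2 * (1 + K) * v.im,
        -(r * y.re - K * v.re) - 2 * (1 + K) * v.re⟩ := by
      unfold vt
      rw [hfs, hbp]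
      apply Complex.ext
      · rw [re_ofReal_mul, sub_re, mul_re, mul_re, mul_im, I_re, I_im, re_ofNat, im_ofNat]
        field_simp
        ring
      · rw [im_ofReal_mul, sub_im, mul_im, mul_re, mul_im, I_re, I_im, re_ofNat, im_ofNat]
        field_simp
        ring
    rw [e]
    unfold dt
    simp only [mul_re, mul_im, I_re, I_im]
    ring
  refine ⟨by rw [hfs]; exact hf, ?_⟩
  rw [h3]
  unfold Lag1 EC
  rw [h1, h2, hfs, hrh]
  generalize dt β (I * y) = A
  generalize dt β (I * v) = B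
  generalize dt βV v = D
  field_simp
  ring

end Pool.H61.Rh
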