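import Pool.Agent.H81.Co.C0

/-! # C2: elimination of `v` at `v = 0`

Notation: `n = |y|²`, `r = |v|²`, `ρ = rh v = √(1+r)`, `u = dt y v / ρ`, `φ = 1/(1+u) = 1/fs`,
`p = dt y v = ρ u`, `c1 = 1 - w`, `B1 = dt β (I y)`, `ω = -I β - βV`
(`dt ω v = dt β (I v) - dt βV v`).
EXACT IDENTITY (`φ + u = 1 + φ u²`, `1 - φ = φ u`):
`EC (9/64) κ y v β βV w - ec0 .. - dt (ecg ..) v =`
`(36 k2 - k2 n) r + (ρ - 1) B1 + (c1 + 2 k2 n ρ) u (ρ - 1) + φ u² C - φ u dt ω v`,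
`C = c1 + k2 φ (1 + ρ²) - k2 n ρ² (2 + φ) + B1 ρ`, `k2 = 9/64`.
(Check: `φ - 1 + p = u (ρ - 1) + φ u²`; `φ ρ - 1 + p = (ρ - 1) + ρ φ u²`;
`φ² ρ² - 1 + 2 p = r - 2 ρ u (ρ - 1) + 2 ρ² φ u² + ρ² φ² u²`; `(1-φ)² = φ² u²`.)
BOUNDS: `r ≤ 9/100`, `ρ ≤ 10441/10000`, `ρ² ≤ 109/100`, `|v|/ρ ≤ 2874/10000`
(`r/(1+r) ≤ .09/1.09`), so `|u| ≤ 2874/10000 H =: q < 1`, `1/(1+q) ≤ φ ≤ 1/(1-q) ≤ Ph`;
`(ρ - 1) = r/(1+ρ) ∈ [4892/10000 r, r/2]`, so `(ρ - 1) B1 ≥ 125/256 B1 r` and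
`(c1 + 2 k2 n ρ) u (ρ - 1) ≥ -(103/100 + 2937/10000 H²) (1437/10000 H) r ≥ -K3 r`
(`q/2 = 1437/10000 H`; `2 k2 ρ ≤ .28125 * 1.0441 ≤ .2937`).
`C ≥ c1 + B1 + k2 (2 φ - (109/100) n (2 + φ))` is increasing in `φ` (`2 ≥ 1.09 n`), so `C ≥ Cl` by
`hC`.  Since `φ u² ≥ 0`: `φ u² C - φ u dt ω v ≥ φ (Cl u² - u dt ω v) =
(φ/ρ²) (dt y v) (dt (Cl y - ρ ω) v) ≥ -(φ/ρ²) |lam y - (Cl y - ρ ω)|² r/(4 lam)` because
`4 lam (y·v)(z·v) = ((lam y + z)·v)² - ((lam y - z)·v)²`, `z = Cl y - ρ ω`.  The number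
`|(lam - Cl) y + ρ ω|²` is convex in `ρ ∈ [1, 535/512]`, hence `≤ 4 lam M` by `h1`, `h2`.
Finally `1/ρ² ≤ 1`, `φ ≤ Ph`, `0 ≤ M`. -/

set_option autoImplicit false

namespace Pool.H61.Rh

open Complex

private theorem C2_ident {φ u ρ r n p B1 B2 dV w κ k2 : ℝ} (hφ : φ * (1 + u) = 1)
    (hp : p = ρ * u) (hρ : ρ ^ 2 = 1 + r) :
    (κ + 36 * k2 * r + (φ - 1) - k2 * (φ ^ 2 * ρ ^ 2 * n - (1 - φ) ^ 2 * (1 + ρ ^ 2))
        + φ * ρ * B1 + (1 + φ) * B2 - φ * (w + dV))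
      - (κ - k2 * n + B1 - w) - ((-1 + 2 * k2 * n - B1 + w) * p + 2 * B2 - dV)
    = (36 * k2 - k2 * n) * r + (ρ - 1) * B1 + ((1 - w) + 2 * k2 * n * ρ) * u * (ρ - 1)
      + φ * u ^ 2 * ((1 - w) + k2 * φ * (1 + ρ ^ 2) - k2 * n * ρ ^ 2 * (2 + φ) + B1 * ρ)
      - φ * u * (B2 - dV) := by
  subst hp
  linear_combination ((1 - w) * (1 - u) + B1 * ρ * (1 - u)
    - k2 * n * ρ ^ 2 * (φ * (1 - u) + 1 - 2 * u) - k2 * (1 + ρ ^ 2) * (1 - φ + φ * u)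
    + (B2 - dV)) * hφ + (-k2 * n) * hρ

private theorem C2_conv {a1 a2 o1 o2 ρ X : ℝ} (h1 : 1 ≤ ρ) (h2 : ρ ≤ 535 / 512)
    (e1 : (a1 + o1) ^ 2 + (a2 + o2) ^ 2 ≤ X)
    (e2 : (a1 + 535 / 512 * o1) ^ 2 + (a2 + 535 / 512 * o2) ^ 2 ≤ X) :
    (a1 + ρ * o1) ^ 2 + (a2 + ρ * o2) ^ 2 ≤ X := by
  have key : (a1 + ρ * o1) ^ 2 + (a2 + ρ * o2) ^ 2
      = (512 / 23) * (535 / 512 - ρ) * ((a1 + o1) ^ 2 + (a2 + o2) ^ 2)
        + (512 / 23) * (ρ - 1) * ((a1 + 535 / 512 * o1) ^ 2 + (a2 + 535 / 512 * o2) ^ 2)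
        - (ρ - 1) * (535 / 512 - ρ) * (o1 ^ 2 + o2 ^ 2) := by
    ring
  have k1 : (512 / 23) * (535 / 512 - ρ) * ((a1 + o1) ^ 2 + (a2 + o2) ^ 2)
      ≤ (512 / 23) * (535 / 512 - ρ) * X := mul_le_mul_of_nonneg_left e1 (by linarith)
  have k2 : (512 / 23) * (ρ - 1) * ((a1 + 535 / 512 * o1) ^ 2 + (a2 + 535 / 512 * o2) ^ 2)
      ≤ (512 / 23) * (ρ - 1) * X := mul_le_mul_of_nonneg_left e2 (by linarith)
  have k3 : 0 ≤ (ρ - 1) * (535 / 512 - ρ) * (o1 ^ 2 + o2 ^ 2) :=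
    mul_nonneg (mul_nonneg (by linarith) (by linarith)) (by positivity)
  have k4 : (512 / 23) * (535 / 512 - ρ) * X + (512 / 23) * (ρ - 1) * X = X := by ring
  linarith

/-- the quadratic form step -/
private theorem C2_quad {y1 y2 v1 v2 o1 o2 ρ Cl lam M : ℝ} (hl : 0 < lam)
    (h : ((lam - Cl) * y1 + ρ * o1) ^ 2 + ((lam - Cl) * y2 + ρ * o2) ^ 2 ≤ 4 * lam * M) :
    -(M * (v1 ^ 2 + v2 ^ 2)) ≤
      (y1 * v1 + y2 * v2) * (Cl * (y1 * v1 + y2 * v2) - ρ * (o1 * v1 + o2 * v2)) := by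
  set p := y1 * v1 + y2 * v2 with hp
  set d := o1 * v1 + o2 * v2 with hd
  have e1 : 4 * lam * (p * (Cl * p - ρ * d)) = ((lam + Cl) * p - ρ * d) ^ 2
      - ((lam - Cl) * p + ρ * d) ^ 2 := by ring
  have e2 : ((lam - Cl) * p + ρ * d) ^ 2 ≤
      (((lam - Cl) * y1 + ρ * o1) ^ 2 + ((lam - Cl) * y2 + ρ * o2) ^ 2) * (v1 ^ 2 + v2 ^ 2) := by
    have : (lam - Cl) * p + ρ * d = ((lam - Cl) * y1 + ρ * o1) * v1
        + ((lam - Cl) * y2 + ρ * o2) * v2 := by rw [hp, hd]; ring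
    rw [this]
    nlinarith [sq_nonneg (((lam - Cl) * y1 + ρ * o1) * v2 - ((lam - Cl) * y2 + ρ * o2) * v1)]
  have e3 : (((lam - Cl) * y1 + ρ * o1) ^ 2 + ((lam - Cl) * y2 + ρ * o2) ^ 2)
      * (v1 ^ 2 + v2 ^ 2) ≤ 4 * lam * M * (v1 ^ 2 + v2 ^ 2) :=
    mul_le_mul_of_nonneg_right h (by positivity)
  have e4 : 4 * lam * (-(M * (v1 ^ 2 + v2 ^ 2))) ≤ 4 * lam * (p * (Cl * p - ρ * d)) := by
    rw [e1]
    nlinarith [sq_nonneg ((lam + Cl) * p - ρ * d)]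
  exact le_of_mul_le_mul_left e4 (by positivity)

private theorem C2_core {φ u ρ r n p B1 w D H Ph K3 Cl M : ℝ}
    (hφ : φ * (1 + u) = 1) (hp : p = ρ * u) (hρ : ρ ^ 2 = 1 + r) (hρ0 : 0 < ρ)
    (hr0 : 0 ≤ r) (hr1 : r ≤ 9 / 100) (hn0 : 0 ≤ n) (hpn : p ^ 2 ≤ n * r)
    (hH0 : 0 ≤ H) (hH1 : H ≤ 9 / 10) (hn : n ≤ H ^ 2)
    (hw : |w| ≤ 3 / 100) (hB : 0 ≤ B1)
    (hPh : 1 ≤ Ph * (1 - 2874 / 10000 * H))
    (hK : 1437 / 10000 * H * (103 / 100 + 2937 / 10000 * H ^ 2) ≤ K3)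
    (hC : Cl ≤ 97 / 100 + B1 + 9 / 64 * (2 * (1 / (1 + 2874 / 10000 * H))
      - 109 / 100 * n * (2 + 1 / (1 + 2874 / 10000 * H))))
    (hM : 0 ≤ M)
    (hq : 1 ≤ ρ → ρ ≤ 535 / 512 → -(M * r) ≤ p * (Cl * p - ρ * D)) :
    (81 / 16 - 9 / 64 * n + 125 / 256 * B1 - K3 - Ph * M) * r ≤
      (36 * (9 / 64) - 9 / 64 * n) * r + (ρ - 1) * B1
      + ((1 - w) + 2 * (9 / 64) * n * ρ) * u * (ρ - 1)
      + φ * u ^ 2 * ((1 - w) + 9 / 64 * φ * (1 + ρ ^ 2) - 9 / 64 * n * ρ ^ 2 * (2 + φ) + B1 * ρ)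
      - φ * u * D := by
  obtain ⟨hw1, hw2⟩ := abs_le.1 hw
  have hρ1 : 1 ≤ ρ := by nlinarith
  have hρ2 : ρ ≤ 10441 / 10000 := by nlinarith
  have hn81 : n ≤ 81 / 100 := by nlinarith
  -- bound for `u`
  have hu2 : u ^ 2 ≤ (2874 / 10000 * H) ^ 2 := by
    have h1 : (1 + r) * u ^ 2 ≤ n * r := by
      rw [← hρ]
      calc ρ ^ 2 * u ^ 2 = p ^ 2 := by rw [hp]; ring
        _ ≤ n * r := hpn
    have h2 : n * r ≤ (1 + r) * (2874 / 10000 * H) ^ 2 := by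
      have h3 : n * r ≤ H ^ 2 * r := mul_le_mul_of_nonneg_right hn hr0
      have h4 : 0 ≤ H ^ 2 * ((2874 / 10000) ^ 2 * (1 + r) - r) :=
        mul_nonneg (sq_nonneg _) (by linarith)
      linarith [h3, h4, (by ring : (1 + r) * (2874 / 10000 * H) ^ 2
        = H ^ 2 * ((2874 / 10000) ^ 2 * (1 + r) - r) + H ^ 2 * r)]
    exact le_of_mul_le_mul_left (h1.trans h2) (by linarith)
  have hq0 : 0 ≤ 2874 / 10000 * H := by linarith
  obtain ⟨hu3, hu4⟩ := abs_le_of_sq_le_sq' hu2 hq0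
  have hq1 : 0 < 1 - 2874 / 10000 * H := by linarith
  have hφ0 : 0 < φ := by
    by_contra hneg
    have : φ * (1 + u) ≤ 0 := mul_nonpos_of_nonpos_of_nonneg (not_lt.1 hneg) (by linarith)
    linarith
  have hφP : φ ≤ Ph := by
    have h1 : φ * (1 - 2874 / 10000 * H) ≤ φ * (1 + u) :=
      mul_le_mul_of_nonneg_left (by linarith) hφ0.le
    exact le_of_mul_le_mul_right (by linarith) hq1
  have hφm : 1 / (1 + 2874 / 10000 * H) ≤ φ := by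
    rw [div_le_iff₀ (by linarith)]
    have h1 : φ * (1 + u) ≤ φ * (1 + 2874 / 10000 * H) :=
      mul_le_mul_of_nonneg_left (by linarith) hφ0.le
    linarith
  have hm0 : 0 ≤ 1 / (1 + 2874 / 10000 * H) := by positivity
  -- `ρ - 1`
  have hd1 : (ρ - 1) * (ρ + 1) = r := by nlinarith
  have hd2 : ρ - 1 ≤ r / 2 := by nlinarith
  have hd3 : 4892 / 10000 * r ≤ ρ - 1 := by nlinarith
  have t1 : 125 / 256 * B1 * r ≤ (ρ - 1) * B1 := by
    have h1 : 125 / 256 * r ≤ ρ - 1 := by linarith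
    have := mul_le_mul_of_nonneg_right h1 hB
    linarith
  -- third term
  have t2 : -(K3 * r) ≤ ((1 - w) + 2 * (9 / 64) * n * ρ) * u * (ρ - 1) := by
    have a0 : 0 ≤ (1 - w) + 2 * (9 / 64) * n * ρ := by
      have : 0 ≤ n * ρ := mul_nonneg hn0 hρ0.le
      linarith
    have a1 : (1 - w) + 2 * (9 / 64) * n * ρ ≤ 103 / 100 + 2937 / 10000 * H ^ 2 := by
      have h1 : n * ρ ≤ H ^ 2 * (10441 / 10000) := mul_le_mul hn hρ2 hρ0.le (sq_nonneg _)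
      nlinarith [sq_nonneg H]
    have a2 : -(2874 / 10000 * H) * (ρ - 1) ≤ u * (ρ - 1) :=
      mul_le_mul_of_nonneg_right hu3 (by linarith)
    have a3 : (2874 / 10000 * H) * (ρ - 1) ≤ 1437 / 10000 * H * r := by
      have := mul_le_mul_of_nonneg_left hd2 hq0
      linarith
    have a4 : ((1 - w) + 2 * (9 / 64) * n * ρ) * (1437 / 10000 * H * r)
        ≤ (103 / 100 + 2937 / 10000 * H ^ 2) * (1437 / 10000 * H * r) :=
      mul_le_mul_of_nonneg_right a1 (by positivity)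
    have a5 : ((1 - w) + 2 * (9 / 64) * n * ρ) * (-(1437 / 10000 * H * r))
        ≤ ((1 - w) + 2 * (9 / 64) * n * ρ) * (u * (ρ - 1)) :=
      mul_le_mul_of_nonneg_left (by linarith) a0
    have a6 : 1437 / 10000 * H * (103 / 100 + 2937 / 10000 * H ^ 2) * r ≤ K3 * r :=
      mul_le_mul_of_nonneg_right hK hr0
    linarith
  -- the coefficient
  have hCC : Cl ≤ (1 - w) + 9 / 64 * φ * (1 + ρ ^ 2) - 9 / 64 * n * ρ ^ 2 * (2 + φ) + B1 * ρ := by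
    set m := 1 / (1 + 2874 / 10000 * H) with hm
    have b1 : B1 ≤ B1 * ρ := by nlinarith
    have b2 : 9 / 64 * (2 * φ) ≤ 9 / 64 * φ * (1 + ρ ^ 2) := by
      have : 0 ≤ φ * r := mul_nonneg hφ0.le hr0
      rw [hρ]; linarith
    have b3 : 9 / 64 * n * ρ ^ 2 * (2 + φ) ≤ 9 / 64 * (109 / 100 * n * (2 + φ)) := by
      have h1 : 0 ≤ n * (2 + φ) := mul_nonneg hn0 (by linarith)
      have h2 : n * (2 + φ) * ρ ^ 2 ≤ n * (2 + φ) * (109 / 100) :=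
        mul_le_mul_of_nonneg_left (by rw [hρ]; linarith) h1
      linarith
    have b4 : 9 / 64 * (2 * m - 109 / 100 * n * (2 + m))
        ≤ 9 / 64 * (2 * φ - 109 / 100 * n * (2 + φ)) := by
      have h1 : 0 ≤ (φ - m) * (2 - 109 / 100 * n) := mul_nonneg (by linarith) (by linarith)
      linarith
    linarith
  -- the last part
  have t3 : -(Ph * M * r) ≤ φ * u ^ 2 * ((1 - w) + 9 / 64 * φ * (1 + ρ ^ 2)
      - 9 / 64 * n * ρ ^ 2 * (2 + φ) + B1 * ρ) - φ * u * D := by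
    have c1 : φ * u ^ 2 * Cl ≤ φ * u ^ 2 * ((1 - w) + 9 / 64 * φ * (1 + ρ ^ 2)
        - 9 / 64 * n * ρ ^ 2 * (2 + φ) + B1 * ρ) :=
      mul_le_mul_of_nonneg_left hCC (by positivity)
    have c2 := hq hρ1 (by linarith)
    have c3 : p * (Cl * p - ρ * D) = ρ ^ 2 * (Cl * u ^ 2 - u * D) := by rw [hp]; ring
    have c4 : -(M * r) ≤ Cl * u ^ 2 - u * D := by
      by_contra hneg
      have h1 : Cl * u ^ 2 - u * D < -(M * r) := not_le.1 hneg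
      have h2 : ρ ^ 2 * (Cl * u ^ 2 - u * D) < ρ ^ 2 * (-(M * r)) :=
        mul_lt_mul_of_pos_left h1 (by positivity)
      have h3 : ρ ^ 2 * (-(M * r)) ≤ -(M * r) := by
        rw [hρ]
        nlinarith [mul_nonneg (mul_nonneg hM hr0) hr0]
      linarith
    have c5 : φ * (-(M * r)) ≤ φ * (Cl * u ^ 2 - u * D) := mul_le_mul_of_nonneg_left c4 hφ0.le
    have c6 : φ * (M * r) ≤ Ph * (M * r) := mul_le_mul_of_nonneg_right hφP (mul_nonneg hM hr0)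
    linarith
  linarith

theorem coarse_elim (κ : ℝ) (y v β βV : ℂ) (w H Ph K3 Cl lam M : ℝ)
    (hH0 : 0 ≤ H) (hH1 : H ≤ 9 / 10) (hy : normSq y ≤ H ^ 2) (hv : ‖v‖ ≤ 3 / 10)
    (hw : |w| ≤ 3 / 100) (hB : 0 ≤ dt β (I * y))
    (hPh : 1 ≤ Ph * (1 - 2874 / 10000 * H))
    (hK : 1437 / 10000 * H * (103 / 100 + 2937 / 10000 * H ^ 2) ≤ K3)
    (hC : Cl ≤ 97 / 100 + dt β (I * y) + 9 / 64 * (2 * (1 / (1 + 2874 / 10000 * H))
      - 109 / 100 * normSq y * (2 + 1 / (1 + 2874 / 10000 * H))))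
    (hl : 0 < lam)
    (h1 : normSq (((lam - Cl : ℝ) : ℂ) * y + (-I * β - βV)) ≤ 4 * lam * M)
    (h2 : normSq (((lam - Cl : ℝ) : ℂ) * y + ((535 / 512 : ℝ) : ℂ) * (-I * β - βV))
      ≤ 4 * lam * M) :
    ec0 (9 / 64) κ y β w + dt (ecg (9 / 64) y β βV w) v
      + (81 / 16 - 9 / 64 * normSq y + 125 / 256 * dt β (I * y) - K3 - Ph * M) * normSq v
      ≤ EC (9 / 64) κ y v β βV w := by
  set ρ := rh v with hρdef
  have hr0 : 0 ≤ normSq v := normSq_nonneg v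
  have hρ : ρ ^ 2 = 1 + normSq v := by
    rw [hρdef]; unfold rh; exact Real.sq_sqrt (by linarith)
  have hρ0 : 0 < ρ := by
    rw [hρdef]; unfold rh; exact Real.sqrt_pos.2 (by linarith)
  have hr1 : normSq v ≤ 9 / 100 := by
    rw [normSq_eq_norm_sq]
    nlinarith [norm_nonneg v]
  have hfs : fs y v = 1 + dt y v / ρ := rfl
  set u := dt y v / ρ with hu
  have hp : dt y v = ρ * u := by rw [hu]; field_simp
  have hpn : dt y v ^ 2 ≤ normSq y * normSq v := by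
    simp only [dt, normSq_apply]
    nlinarith [sq_nonneg (y.re * v.im - y.im * v.re)]
  have hn0 : 0 ≤ normSq y := normSq_nonneg y
  have hu1 : 0 < 1 + u := by
    have h1 : ρ ^ 2 * u ^ 2 ≤ normSq y * normSq v := by
      rw [← mul_pow, ← hp]; exact hpn
    have h2 : normSq y ≤ 81 / 100 := by nlinarith
    have h3 : u ^ 2 < 1 := by
      have h4 : normSq y * normSq v ≤ 81 / 100 * (9 / 100) :=
        mul_le_mul h2 hr1 hr0 (by norm_num)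
      have h5 : u ^ 2 ≤ ρ ^ 2 * u ^ 2 := by
        rw [hρ]; nlinarith [mul_nonneg hr0 (sq_nonneg u)]
      linarith
    have h6 : -1 < u := by nlinarith
    linarith
  set φ := 1 / fs y v with hφdef
  have hφ : φ * (1 + u) = 1 := by
    rw [hφdef, hfs]
    field_simp
  have hid := C2_ident (φ := φ) (u := u) (ρ := ρ) (r := normSq v) (n := normSq y) (p := dt y v)
    (B1 := dt β (I * y)) (B2 := dt β (I * v)) (dV := dt βV v) (w := w) (κ := κ) (k2 := 9 / 64)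
    hφ hp hρ
  have hg : dt (ecg (9 / 64) y β βV w) v = (-1 + 2 * (9 / 64) * normSq y - dt β (I * y) + w)
      * dt y v + 2 * dt β (I * v) - dt βV v := by
    unfold ecg
    simp only [dt, sub_re, sub_im, mul_re, mul_im, I_re, I_im, ofReal_re,
      ofReal_im, re_ofNat, im_ofNat]
    ring
  have hM : 0 ≤ M := by
    have h3 : 0 ≤ 4 * lam * M := (normSq_nonneg _).trans h1
    by_contra hneg
    have : 4 * lam * M < 0 := mul_neg_of_pos_of_neg (by linarith) (not_le.1 hneg)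
    linarith
  have e1 : ((lam - Cl) * y.re + (β.im - βV.re)) ^ 2
      + ((lam - Cl) * y.im + (-β.re - βV.im)) ^ 2 ≤ 4 * lam * M := by
    refine le_trans (le_of_eq ?_) h1
    simp only [normSq_apply, add_re, add_im, sub_re, sub_im, mul_re, mul_im, neg_re, neg_im,
      I_re, I_im, ofReal_re, ofReal_im]
    ring
  have e2 : ((lam - Cl) * y.re + 535 / 512 * (β.im - βV.re)) ^ 2
      + ((lam - Cl) * y.im + 535 / 512 * (-β.re - βV.im)) ^ 2 ≤ 4 * lam * M := by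
    refine le_trans (le_of_eq ?_) h2
    simp only [normSq_apply, add_re, add_im, sub_re, sub_im, mul_re, mul_im, neg_re, neg_im,
      I_re, I_im, ofReal_re, ofReal_im]
    ring
  have hcore := C2_core (φ := φ) (u := u) (ρ := ρ) (r := normSq v) (n := normSq y)
    (p := dt y v) (B1 := dt β (I * y)) (w := w) (D := dt β (I * v) - dt βV v) (H := H)
    (Ph := Ph) (K3 := K3) (Cl := Cl) (M := M) hφ hp hρ hρ0 hr0 hr1 hn0 hpn hH0 hH1 hy hw hB hPh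
    hK hC hM (by
      intro k1 k2
      have h3 := C2_quad (v1 := v.re) (v2 := v.im) hl (C2_conv k1 k2 e1 e2)
      have h4 : v.re ^ 2 + v.im ^ 2 = normSq v := by rw [normSq_apply]; ring
      have h5 : y.re * v.re + y.im * v.im = dt y v := rfl
      have h6 : (β.im - βV.re) * v.re + (-β.re - βV.im) * v.im
          = dt β (I * v) - dt βV v := by
        simp only [dt, mul_re, mul_im, I_re, I_im]
        ring
      rw [h4, h5, h6] at h3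
      exact h3)
  have hEC : EC (9 / 64) κ y v β βV w = κ + 36 * (9 / 64) * normSq v + (φ - 1)
      - 9 / 64 * (φ ^ 2 * ρ ^ 2 * normSq y - (1 - φ) ^ 2 * (1 + ρ ^ 2))
      + φ * ρ * dt β (I * y) + (1 + φ) * dt β (I * v) - φ * (w + dt βV v) := rfl
  have hec0 : ec0 (9 / 64) κ y β w = κ - 9 / 64 * normSq y + dt β (I * y) - w := rfl
  rw [hEC, hec0, hg]
  linarith

end Pool.H61.Rh
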