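import Pool.Agent.H47.Kc.Main
import Pool.Agent.H81.Co.C0

/-! # C3a: the programs of the coarse inequality -/

set_option autoImplicit false
set_option maxRecDepth 100000

namespace Pool.H61.Rh

open Complex Pool.H47.Kc

theorem rcs {α : Type} {A : Alg α} {op : Op} {P : List Op} {st : List α} {v R : α}
    (h : step A st op = v) (h' : get A.dflt (run A P (v :: st)) 0 = R) :
    get A.dflt (run A (op :: P) st) 0 = R := by
  subst h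
  exact h'

def cP1 (lz : Int) (le : Nat) (rz : Int) (re : Nat) : List Op :=
  [.x, .y, .mul 1 1, .mul 1 1, .add 1 0, .cst (1) 0, .sub 0 1, .add 6 6, .sub 2 0, .mul 8 7, 
   .mul 3 1, .mul 0 9, .add 5 5, .mul 12 4, .sub 1 0, .mul 8 0, .add 12 12, .add 0 13, 
   .sub 15 0, .mul 18 0, .cst (173) 10, .mul 0 16, .cst (77) 12, .mul 0 3, .add 2 0, 
   .sub 22 21, .cst (-33) 11, .mul 1 11, .add 18 18, .mul 0 17, .add 2 0, .mul 4 0, 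
   .cst (77) 11, .mul 0 23, .mul 13 32, .sub 1 0, .mul 15 35, .mul 14 11, .add 1 0, 
   .mul 27 37, .mul 39 24, .add 1 0, .mul 9 0, .mul 22 27, .sub 1 0, .mul 24 33, 
   .mul 45 34, .mul 45 31, .sub 1 0, .mul 16 0, .add 4 0, .mul 15 42, .mul 13 43, 
   .sub 0 8, .cst (0) 0, .sub 0 3, .sub 0 5, .cst (9) 5, .mul 0 53, .sub 0 53, .sub 0 35, 
   .mul 0 52, .add 0 30, .mul 0 62, .add 11 11, .add 1 0, .sub 0 21, .mul 4 65, 
   .add 16 16, .sub 1 0, .sub 0 19, .cst (413) 16, .cst (9) 6, .mul 0 68, .sub 2 0, 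
   .add 0 50, .mul 0 67, .sub 0 45, .cst (41) 9, .cst (299) 8, .cst (311) 8, .cst (73) 8, 
   .mul 0 77, .sub 2 0, .cst lz le, .sub 0 1, .mul 0 77, .cst rz re, .mul 1 87, 
   .mul 1 35, .add 1 0, .mul 4 89, .mul 4 35, .add 1 0, .mul 3 3, .mul 1 1, .add 1 0, 
   .cst (81) 4, .sub 0 24, .cst (125) 8, .mul 0 75, .add 2 0, .sub 0 23, 
   .cst (4 * lz) le, .mul 0 1, .mul 0 96, .mul 0 97, .mul 27 10, .sub 1 0, .mul 0 31, 
   .mul 25 101, .mul 44 44, .mul 41 41, .add 1 0, .mul 3 0, .sub 5 0]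

def cP2 (lz : Int) (le : Nat) (rz : Int) (re : Nat) : List Op :=
  [.x, .y, .mul 1 1, .mul 1 1, .add 1 0, .cst (1) 0, .sub 0 1, .add 6 6, .sub 2 0, .mul 8 7, 
   .mul 3 1, .mul 0 9, .add 5 5, .mul 12 4, .sub 1 0, .mul 8 0, .add 12 12, .add 0 13, 
   .sub 15 0, .mul 18 0, .cst (173) 10, .mul 0 16, .cst (77) 12, .mul 0 3, .add 2 0, 
   .sub 22 21, .cst (-33) 11, .mul 1 11, .add 18 18, .mul 0 17, .add 2 0, .mul 4 0, 
   .cst (77) 11, .mul 0 23, .mul 13 32, .sub 1 0, .mul 15 35, .mul 14 11, .add 1 0, 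
   .mul 27 37, .mul 39 24, .add 1 0, .mul 9 0, .mul 22 27, .sub 1 0, .mul 24 33, 
   .mul 45 34, .mul 45 31, .sub 1 0, .mul 16 0, .add 4 0, .mul 15 42, .mul 13 43, 
   .sub 0 8, .cst (0) 0, .sub 0 3, .sub 0 5, .cst (9) 5, .mul 0 53, .sub 0 53, .sub 0 35, 
   .mul 0 52, .add 0 30, .mul 0 62, .add 11 11, .add 1 0, .sub 0 21, .mul 4 65, 
   .add 16 16, .sub 1 0, .sub 0 19, .cst (413) 16, .cst (9) 6, .mul 0 68, .sub 2 0, 
   .add 0 50, .mul 0 67, .sub 0 45, .cst (83) 9, .cst (43) 5, .cst (305) 8, .cst (71) 8, 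
   .mul 0 77, .sub 2 0, .cst lz le, .sub 0 1, .mul 0 77, .cst rz re, .mul 1 87, 
   .mul 1 35, .add 1 0, .mul 4 89, .mul 4 35, .add 1 0, .mul 3 3, .mul 1 1, .add 1 0, 
   .cst (81) 4, .sub 0 24, .cst (125) 8, .mul 0 75, .add 2 0, .sub 0 23, 
   .cst (4 * lz) le, .mul 0 1, .mul 0 96, .mul 0 97, .mul 27 10, .sub 1 0, .mul 0 31, 
   .mul 25 101, .mul 44 44, .mul 41 41, .add 1 0, .mul 3 0, .sub 5 0]

def cPE : List Op :=
  [.x, .y, .mul 1 1, .mul 1 1, .add 1 0, .cst (1) 0, .sub 0 1, .add 6 6, .sub 2 0, .mul 8 7, 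
   .mul 3 1, .mul 0 9, .add 5 5, .mul 12 4, .sub 1 0, .mul 8 0, .add 12 12, .add 0 13, 
   .sub 15 0, .mul 18 0, .cst (173) 10, .mul 0 16, .cst (77) 12, .mul 0 3, .add 2 0, 
   .sub 22 21, .cst (-33) 11, .mul 1 11, .add 18 18, .mul 0 17, .add 2 0, .mul 4 0, 
   .cst (413) 16, .cst (9) 6, .mul 0 29, .sub 2 0, .add 0 11, .mul 0 28, .sub 0 6, 
   .cst (1) 12, .sub 1 0]

theorem res_cP1 (β : ℕ → ℝ) (x z : ℝ) (lz : Int) (le : Nat) (rz : Int) (re : Nat) :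
    res (realAlg β x z) (cP1 lz le rz re) =
      qF (41 / 512) (299 / 256) (311 / 256 - 73 / 256 * qn x z) (lz / 2 ^ le) (rz / 2 ^ re) x z := by
  unfold res cP1
  refine rcs (v := x) rfl ?_
  refine rcs (v := z) rfl ?_
  refine rcs (v := (x * x)) rfl ?_
  refine rcs (v := (z * z)) rfl ?_
  refine rcs (v := (qn x z)) rfl ?_
  refine rcs (v := (1 : ℝ)) (by norm_num [step, realAlg]) ?_
  refine rcs (v := ((1 : ℝ) - (qn x z))) rfl ?_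
  refine rcs (v := (x + x)) rfl ?_
  refine rcs (v := (cqd x)) rfl ?_
  refine rcs (v := (x * z)) rfl ?_
  refine rcs (v := (((1 : ℝ) - (qn x z)) * (cqd x))) rfl ?_
  refine rcs (v := (qVr x z)) rfl ?_
  refine rcs (v := (((1 : ℝ) - (qn x z)) + ((1 : ℝ) - (qn x z)))) rfl ?_
  refine rcs (v := (x * (cqd x))) rfl ?_
  refine rcs (v := ((((1 : ℝ) - (qn x z)) + ((1 : ℝ) - (qn x z))) - (x * (cqd x)))) rfl ?_
  refine rcs (v := (qVi x z)) rfl ?_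
  refine rcs (v := ((z * z) + (z * z))) rfl ?_
  refine rcs (v := (((z * z) + (z * z)) + (z * z))) rfl ?_
  refine rcs (v := ((x * x) - (((z * z) + (z * z)) + (z * z)))) rfl ?_
  refine rcs (v := (x * ((x * x) - (((z * z) + (z * z)) + (z * z))))) rfl ?_
  refine rcs (v := (173 / 1024 : ℝ)) (by norm_num [step, realAlg]) ?_
  refine rcs (v := ((173 / 1024 : ℝ) * (qn x z))) rfl ?_
  refine rcs (v := (77 / 4096 : ℝ)) (by norm_num [step, realAlg]) ?_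
  refine rcs (v := ((77 / 4096 : ℝ) * (x * ((x * x) - (((z * z) + (z * z)) + (z * z)))))) rfl ?_
  refine rcs (v := (cqB x z)) rfl ?_
  refine rcs (v := ((x * x) - (z * z))) rfl ?_
  refine rcs (v := (-(33 / 2048) : ℝ)) (by norm_num [step, realAlg]) ?_
  refine rcs (v := (((x * x) - (z * z)) * (qVi x z))) rfl ?_
  refine rcs (v := ((x * z) + (x * z))) rfl ?_
  refine rcs (v := (((x * z) + (x * z)) * (qVr x z))) rfl ?_
  refine rcs (v := ((((x * x) - (z * z)) * (qVi x z)) + (((x * z) + (x * z)) * (qVr x z)))) rfl ?_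
  refine rcs (v := (qw x z)) rfl ?_
  refine rcs (v := (77 / 2048 : ℝ)) (by norm_num [step, realAlg]) ?_
  refine rcs (v := ((77 / 2048 : ℝ) * (x * z))) rfl ?_
  refine rcs (v := ((173 / 1024 : ℝ) * z)) rfl ?_
  refine rcs (v := (qbr x z)) rfl ?_
  refine rcs (v := ((173 / 1024 : ℝ) * x)) rfl ?_
  refine rcs (v := ((77 / 4096 : ℝ) * ((x * x) - (z * z)))) rfl ?_
  refine rcs (v := (qbi x z)) rfl ?_
  refine rcs (v := ((qVr x z) * z)) rfl ?_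
  refine rcs (v := (x * (qVi x z))) rfl ?_
  refine rcs (v := (((qVr x z) * z) + (x * (qVi x z)))) rfl ?_
  refine rcs (v := ((77 / 2048 : ℝ) * (((qVr x z) * z) + (x * (qVi x z))))) rfl ?_
  refine rcs (v := ((173 / 1024 : ℝ) * (qVi x z))) rfl ?_
  refine rcs (v := (qBr x z)) rfl ?_
  refine rcs (v := ((173 / 1024 : ℝ) * (qVr x z))) rfl ?_
  refine rcs (v := (x * (qVr x z))) rfl ?_
  refine rcs (v := (z * (qVi x z))) rfl ?_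
  refine rcs (v := ((x * (qVr x z)) - (z * (qVi x z)))) rfl ?_
  refine rcs (v := ((77 / 2048 : ℝ) * ((x * (qVr x z)) - (z * (qVi x z))))) rfl ?_
  refine rcs (v := (qBi x z)) rfl ?_
  refine rcs (v := ((qbr x z) * (cqd x))) rfl ?_
  refine rcs (v := ((qbi x z) * (cqd x))) rfl ?_
  refine rcs (v := (qor x z)) rfl ?_
  refine rcs (v := (0 : ℝ)) (by norm_num [step, realAlg]) ?_
  refine rcs (v := ((0 : ℝ) - ((qbr x z) * (cqd x)))) rfl ?_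
  refine rcs (v := (qoi x z)) rfl ?_
  refine rcs (v := (9 / 32 : ℝ)) (by norm_num [step, realAlg]) ?_
  refine rcs (v := ((9 / 32 : ℝ) * (qn x z))) rfl ?_
  refine rcs (v := (((9 / 32 : ℝ) * (qn x z)) - (1 : ℝ))) rfl ?_
  refine rcs (v := ((((9 / 32 : ℝ) * (qn x z)) - (1 : ℝ)) - (cqB x z))) rfl ?_
  refine rcs (v := (((((9 / 32 : ℝ) * (qn x z)) - (1 : ℝ)) - (cqB x z)) * (cqd x))) rfl ?_
  refine rcs (v := (qs x z)) rfl ?_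
  refine rcs (v := ((qs x z) * x)) rfl ?_
  refine rcs (v := (((qbi x z) * (cqd x)) + ((qbi x z) * (cqd x)))) rfl ?_
  refine rcs (v := (((qs x z) * x) + (((qbi x z) * (cqd x)) + ((qbi x z) * (cqd x))))) rfl ?_
  refine rcs (v := (qgr x z)) rfl ?_
  refine rcs (v := ((qs x z) * z)) rfl ?_
  refine rcs (v := (((qbr x z) * (cqd x)) + ((qbr x z) * (cqd x)))) rfl ?_
  refine rcs (v := (((qs x z) * z) - (((qbr x z) * (cqd x)) + ((qbr x z) * (cqd x))))) rfl ?_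
  refine rcs (v := (qgi x z)) rfl ?_
  refine rcs (v := (413 / 65536 : ℝ)) (by norm_num [step, realAlg]) ?_
  refine rcs (v := (9 / 64 : ℝ)) (by norm_num [step, realAlg]) ?_
  refine rcs (v := ((9 / 64 : ℝ) * (qn x z))) rfl ?_
  refine rcs (v := ((413 / 65536 : ℝ) - ((9 / 64 : ℝ) * (qn x z)))) rfl ?_
  refine rcs (v := (((413 / 65536 : ℝ) - ((9 / 64 : ℝ) * (qn x z))) + (cqB x z))) rfl ?_
  refine rcs (v := ((((413 / 65536 : ℝ) - ((9 / 64 : ℝ) * (qn x z))) + (cqB x z)) * (cqd x))) rfl ?_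
  refine rcs (v := (qE x z)) rfl ?_
  refine rcs (v := (41 / 512 : ℝ)) (by norm_num [step, realAlg]) ?_
  refine rcs (v := (299 / 256 : ℝ)) (by norm_num [step, realAlg]) ?_
  refine rcs (v := (311 / 256 : ℝ)) (by norm_num [step, realAlg]) ?_
  refine rcs (v := (73 / 256 : ℝ)) (by norm_num [step, realAlg]) ?_
  refine rcs (v := ((73 / 256 : ℝ) * (qn x z))) rfl ?_
  refine rcs (v := ((311 / 256 : ℝ) - ((73 / 256 : ℝ) * (qn x z)))) rfl ?_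
  refine rcs (v := ((lz : ℝ) / 2 ^ le)) rfl ?_
  refine rcs (v := (((lz : ℝ) / 2 ^ le) - ((311 / 256 : ℝ) - ((73 / 256 : ℝ) * (qn x z))))) rfl ?_
  refine rcs (v := ((((lz : ℝ) / 2 ^ le) - ((311 / 256 : ℝ) - ((73 / 256 : ℝ) * (qn x z)))) * (cqd x))) rfl ?_
  refine rcs (v := ((rz : ℝ) / 2 ^ re)) rfl ?_
  refine rcs (v := (((((lz : ℝ) / 2 ^ le) - ((311 / 256 : ℝ) - ((73 / 256 : ℝ) * (qn x z)))) * (cqd x)) * x)) rfl ?_
  refine rcs (v := (((rz : ℝ) / 2 ^ re) * (qor x z))) rfl ?_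
  refine rcs (v := ((((((lz : ℝ) / 2 ^ le) - ((311 / 256 : ℝ) - ((73 / 256 : ℝ) * (qn x z)))) * (cqd x)) * x) + (((rz : ℝ) / 2 ^ re) * (qor x z)))) rfl ?_
  refine rcs (v := (((((lz : ℝ) / 2 ^ le) - ((311 / 256 : ℝ) - ((73 / 256 : ℝ) * (qn x z)))) * (cqd x)) * z)) rfl ?_
  refine rcs (v := (((rz : ℝ) / 2 ^ re) * (qoi x z))) rfl ?_
  refine rcs (v := ((((((lz : ℝ) / 2 ^ le) - ((311 / 256 : ℝ) - ((73 / 256 : ℝ) * (qn x z)))) * (cqd x)) * z) + (((rz : ℝ) / 2 ^ re) * (qoi x z)))) rfl ?_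
  refine rcs (v := (((((((lz : ℝ) / 2 ^ le) - ((311 / 256 : ℝ) - ((73 / 256 : ℝ) * (qn x z)))) * (cqd x)) * x) + (((rz : ℝ) / 2 ^ re) * (qor x z))) * ((((((lz : ℝ) / 2 ^ le) - ((311 / 256 : ℝ) - ((73 / 256 : ℝ) * (qn x z)))) * (cqd x)) * x) + (((rz : ℝ) / 2 ^ re) * (qor x z))))) rfl ?_
  refine rcs (v := (((((((lz : ℝ) / 2 ^ le) - ((311 / 256 : ℝ) - ((73 / 256 : ℝ) * (qn x z)))) * (cqd x)) * z) + (((rz : ℝ) / 2 ^ re) * (qoi x z))) * ((((((lz : ℝ) / 2 ^ le) - ((311 / 256 : ℝ) - ((73 / 256 : ℝ) * (qn x z)))) * (cqd x)) * z) + (((rz : ℝ) / 2 ^ re) * (qoi x z))))) rfl ?_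
  refine rcs (v := ((((((((lz : ℝ) / 2 ^ le) - ((311 / 256 : ℝ) - ((73 / 256 : ℝ) * (qn x z)))) * (cqd x)) * x) + (((rz : ℝ) / 2 ^ re) * (qor x z))) * ((((((lz : ℝ) / 2 ^ le) - ((311 / 256 : ℝ) - ((73 / 256 : ℝ) * (qn x z)))) * (cqd x)) * x) + (((rz : ℝ) / 2 ^ re) * (qor x z)))) + (((((((lz : ℝ) / 2 ^ le) - ((311 / 256 : ℝ) - ((73 / 256 : ℝ) * (qn x z)))) * (cqd x)) * z) + (((rz : ℝ) / 2 ^ re) * (qoi x z))) * ((((((lz : ℝ) / 2 ^ le) - ((311 / 256 : ℝ) - ((73 / 256 : ℝ) * (qn x z)))) * (cqd x)) * z) + (((rz : ℝ) / 2 ^ re) * (qoi x z)))))) rfl ?_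
  refine rcs (v := (81 / 16 : ℝ)) (by norm_num [step, realAlg]) ?_
  refine rcs (v := ((81 / 16 : ℝ) - ((9 / 64 : ℝ) * (qn x z)))) rfl ?_
  refine rcs (v := (125 / 256 : ℝ)) (by norm_num [step, realAlg]) ?_
  refine rcs (v := ((125 / 256 : ℝ) * (cqB x z))) rfl ?_
  refine rcs (v := (((81 / 16 : ℝ) - ((9 / 64 : ℝ) * (qn x z))) + ((125 / 256 : ℝ) * (cqB x z)))) rfl ?_
  refine rcs (v := ((((81 / 16 : ℝ) - ((9 / 64 : ℝ) * (qn x z))) + ((125 / 256 : ℝ) * (cqB x z))) - (41 / 512 : ℝ))) rfl ?_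
  refine rcs (v := (4 * ((lz : ℝ) / 2 ^ le))) (by simp only [step, realAlg]; push_cast; ring) ?_
  refine rcs (v := ((4 * ((lz : ℝ) / 2 ^ le)) * ((((81 / 16 : ℝ) - ((9 / 64 : ℝ) * (qn x z))) + ((125 / 256 : ℝ) * (cqB x z))) - (41 / 512 : ℝ)))) rfl ?_
  refine rcs (v := (((4 * ((lz : ℝ) / 2 ^ le)) * ((((81 / 16 : ℝ) - ((9 / 64 : ℝ) * (qn x z))) + ((125 / 256 : ℝ) * (cqB x z))) - (41 / 512 : ℝ))) * (cqd x))) rfl ?_
  refine rcs (v := ((((4 * ((lz : ℝ) / 2 ^ le)) * ((((81 / 16 : ℝ) - ((9 / 64 : ℝ) * (qn x z))) + ((125 / 256 : ℝ) * (cqB x z))) - (41 / 512 : ℝ))) * (cqd x)) * (cqd x))) rfl ?_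
  refine rcs (v := ((299 / 256 : ℝ) * ((((((((lz : ℝ) / 2 ^ le) - ((311 / 256 : ℝ) - ((73 / 256 : ℝ) * (qn x z)))) * (cqd x)) * x) + (((rz : ℝ) / 2 ^ re) * (qor x z))) * ((((((lz : ℝ) / 2 ^ le) - ((311 / 256 : ℝ) - ((73 / 256 : ℝ) * (qn x z)))) * (cqd x)) * x) + (((rz : ℝ) / 2 ^ re) * (qor x z)))) + (((((((lz : ℝ) / 2 ^ le) - ((311 / 256 : ℝ) - ((73 / 256 : ℝ) * (qn x z)))) * (cqd x)) * z) + (((rz : ℝ) / 2 ^ re) * (qoi x z))) * ((((((lz : ℝ) / 2 ^ le) - ((311 / 256 : ℝ) - ((73 / 256 : ℝ) * (qn x z)))) * (cqd x)) * z) + (((rz : ℝ) / 2 ^ re) * (qoi x z))))))) rfl ?_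
  refine rcs (v := (((((4 * ((lz : ℝ) / 2 ^ le)) * ((((81 / 16 : ℝ) - ((9 / 64 : ℝ) * (qn x z))) + ((125 / 256 : ℝ) * (cqB x z))) - (41 / 512 : ℝ))) * (cqd x)) * (cqd x)) - ((299 / 256 : ℝ) * ((((((((lz : ℝ) / 2 ^ le) - ((311 / 256 : ℝ) - ((73 / 256 : ℝ) * (qn x z)))) * (cqd x)) * x) + (((rz : ℝ) / 2 ^ re) * (qor x z))) * ((((((lz : ℝ) / 2 ^ le) - ((311 / 256 : ℝ) - ((73 / 256 : ℝ) * (qn x z)))) * (cqd x)) * x) + (((rz : ℝ) / 2 ^ re) * (qor x z)))) + (((((((lz : ℝ) / 2 ^ le) - ((311 / 256 : ℝ) - ((73 / 256 : ℝ) * (qn x z)))) * (cqd x)) * z) + (((rz : ℝ) / 2 ^ re) * (qoi x z))) * ((((((lz : ℝ) / 2 ^ le) - ((311 / 256 : ℝ) - ((73 / 256 : ℝ) * (qn x z)))) * (cqd x)) * z) + (((rz : ℝ) / 2 ^ re) * (qoi x z)))))))) rfl ?_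
  refine rcs (v := ((((((4 * ((lz : ℝ) / 2 ^ le)) * ((((81 / 16 : ℝ) - ((9 / 64 : ℝ) * (qn x z))) + ((125 / 256 : ℝ) * (cqB x z))) - (41 / 512 : ℝ))) * (cqd x)) * (cqd x)) - ((299 / 256 : ℝ) * ((((((((lz : ℝ) / 2 ^ le) - ((311 / 256 : ℝ) - ((73 / 256 : ℝ) * (qn x z)))) * (cqd x)) * x) + (((rz : ℝ) / 2 ^ re) * (qor x z))) * ((((((lz : ℝ) / 2 ^ le) - ((311 / 256 : ℝ) - ((73 / 256 : ℝ) * (qn x z)))) * (cqd x)) * x) + (((rz : ℝ) / 2 ^ re) * (qor x z)))) + (((((((lz : ℝ) / 2 ^ le) - ((311 / 256 : ℝ) - ((73 / 256 : ℝ) * (qn x z)))) * (cqd x)) * z) + (((rz : ℝ) / 2 ^ re) * (qoi x z))) * ((((((lz : ℝ) / 2 ^ le) - ((311 / 256 : ℝ) - ((73 / 256 : ℝ) * (qn x z)))) * (cqd x)) * z) + (((rz : ℝ) / 2 ^ re) * (qoi x z))))))) * (qE x z))) rfl ?_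
  refine rcs (v := (((lz : ℝ) / 2 ^ le) * (cqd x))) rfl ?_
  refine rcs (v := ((qgr x z) * (qgr x z))) rfl ?_
  refine rcs (v := ((qgi x z) * (qgi x z))) rfl ?_
  refine rcs (v := (((qgr x z) * (qgr x z)) + ((qgi x z) * (qgi x z)))) rfl ?_
  refine rcs (v := ((((lz : ℝ) / 2 ^ le) * (cqd x)) * (((qgr x z) * (qgr x z)) + ((qgi x z) * (qgi x z))))) rfl ?_
  refine rcs (v := (((((((4 * ((lz : ℝ) / 2 ^ le)) * ((((81 / 16 : ℝ) - ((9 / 64 : ℝ) * (qn x z))) + ((125 / 256 : ℝ) * (cqB x z))) - (41 / 512 : ℝ))) * (cqd x)) * (cqd x)) - ((299 / 256 : ℝ) * ((((((((lz : ℝ) / 2 ^ le) - ((311 / 256 : ℝ) - ((73 / 256 : ℝ) * (qn x z)))) * (cqd x)) * x) + (((rz : ℝ) / 2 ^ re) * (qor x z))) * ((((((lz : ℝ) / 2 ^ le) - ((311 / 256 : ℝ) - ((73 / 256 : ℝ) * (qn x z)))) * (cqd x)) * x) + (((rz : ℝ) / 2 ^ re) * (qor x z)))) + (((((((lz : ℝ) / 2 ^ le) - ((311 / 256 : ℝ)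 - ((73 / 256 : ℝ) * (qn x z)))) * (cqd x)) * z) + (((rz : ℝ) / 2 ^ re) * (qoi x z))) * ((((((lz : ℝ) / 2 ^ le) - ((311 / 256 : ℝ) - ((73 / 256 : ℝ) * (qn x z)))) * (cqd x)) * z) + (((rz : ℝ) / 2 ^ re) * (qoi x z))))))) * (qE x z)) - ((((lz : ℝ) / 2 ^ le) * (cqd x)) * (((qgr x z) * (qgr x z)) + ((qgi x z) * (qgi x z)))))) rfl ?_
  rfl

theorem res_cP2 (β : ℕ → ℝ) (x z : ℝ) (lz : Int) (le : Nat) (rz : Int) (re : Nat) :
    res (realAlg β x z) (cP2 lz le rz re) =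
      qF (83 / 512) (43 / 32) (305 / 256 - 71 / 256 * qn x z) (lz / 2 ^ le) (rz / 2 ^ re) x z := by
  unfold res cP2
  refine rcs (v := x) rfl ?_
  refine rcs (v := z) rfl ?_
  refine rcs (v := (x * x)) rfl ?_
  refine rcs (v := (z * z)) rfl ?_
  refine rcs (v := (qn x z)) rfl ?_
  refine rcs (v := (1 : ℝ)) (by norm_num [step, realAlg]) ?_
  refine rcs (v := ((1 : ℝ) - (qn x z))) rfl ?_
  refine rcs (v := (x + x)) rfl ?_
  refine rcs (v := (cqd x)) rfl ?_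
  refine rcs (v := (x * z)) rfl ?_
  refine rcs (v := (((1 : ℝ) - (qn x z)) * (cqd x))) rfl ?_
  refine rcs (v := (qVr x z)) rfl ?_
  refine rcs (v := (((1 : ℝ) - (qn x z)) + ((1 : ℝ) - (qn x z)))) rfl ?_
  refine rcs (v := (x * (cqd x))) rfl ?_
  refine rcs (v := ((((1 : ℝ) - (qn x z)) + ((1 : ℝ) - (qn x z))) - (x * (cqd x)))) rfl ?_
  refine rcs (v := (qVi x z)) rfl ?_
  refine rcs (v := ((z * z) + (z * z))) rfl ?_
  refine rcs (v := (((z * z) + (z * z)) + (z * z))) rfl ?_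
  refine rcs (v := ((x * x) - (((z * z) + (z * z)) + (z * z)))) rfl ?_
  refine rcs (v := (x * ((x * x) - (((z * z) + (z * z)) + (z * z))))) rfl ?_
  refine rcs (v := (173 / 1024 : ℝ)) (by norm_num [step, realAlg]) ?_
  refine rcs (v := ((173 / 1024 : ℝ) * (qn x z))) rfl ?_
  refine rcs (v := (77 / 4096 : ℝ)) (by norm_num [step, realAlg]) ?_
  refine rcs (v := ((77 / 4096 : ℝ) * (x * ((x * x) - (((z * z) + (z * z)) + (z * z)))))) rfl ?_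
  refine rcs (v := (cqB x z)) rfl ?_
  refine rcs (v := ((x * x) - (z * z))) rfl ?_
  refine rcs (v := (-(33 / 2048) : ℝ)) (by norm_num [step, realAlg]) ?_
  refine rcs (v := (((x * x) - (z * z)) * (qVi x z))) rfl ?_
  refine rcs (v := ((x * z) + (x * z))) rfl ?_
  refine rcs (v := (((x * z) + (x * z)) * (qVr x z))) rfl ?_
  refine rcs (v := ((((x * x) - (z * z)) * (qVi x z)) + (((x * z) + (x * z)) * (qVr x z)))) rfl ?_
  refine rcs (v := (qw x z)) rfl ?_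
  refine rcs (v := (77 / 2048 : ℝ)) (by norm_num [step, realAlg]) ?_
  refine rcs (v := ((77 / 2048 : ℝ) * (x * z))) rfl ?_
  refine rcs (v := ((173 / 1024 : ℝ) * z)) rfl ?_
  refine rcs (v := (qbr x z)) rfl ?_
  refine rcs (v := ((173 / 1024 : ℝ) * x)) rfl ?_
  refine rcs (v := ((77 / 4096 : ℝ) * ((x * x) - (z * z)))) rfl ?_
  refine rcs (v := (qbi x z)) rfl ?_
  refine rcs (v := ((qVr x z) * z)) rfl ?_
  refine rcs (v := (x * (qVi x z))) rfl ?_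
  refine rcs (v := (((qVr x z) * z) + (x * (qVi x z)))) rfl ?_
  refine rcs (v := ((77 / 2048 : ℝ) * (((qVr x z) * z) + (x * (qVi x z))))) rfl ?_
  refine rcs (v := ((173 / 1024 : ℝ) * (qVi x z))) rfl ?_
  refine rcs (v := (qBr x z)) rfl ?_
  refine rcs (v := ((173 / 1024 : ℝ) * (qVr x z))) rfl ?_
  refine rcs (v := (x * (qVr x z))) rfl ?_
  refine rcs (v := (z * (qVi x z))) rfl ?_
  refine rcs (v := ((x * (qVr x z)) - (z * (qVi x z)))) rfl ?_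
  refine rcs (v := ((77 / 2048 : ℝ) * ((x * (qVr x z)) - (z * (qVi x z))))) rfl ?_
  refine rcs (v := (qBi x z)) rfl ?_
  refine rcs (v := ((qbr x z) * (cqd x))) rfl ?_
  refine rcs (v := ((qbi x z) * (cqd x))) rfl ?_
  refine rcs (v := (qor x z)) rfl ?_
  refine rcs (v := (0 : ℝ)) (by norm_num [step, realAlg]) ?_
  refine rcs (v := ((0 : ℝ) - ((qbr x z) * (cqd x)))) rfl ?_
  refine rcs (v := (qoi x z)) rfl ?_
  refine rcs (v := (9 / 32 : ℝ)) (by norm_num [step, realAlg]) ?_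
  refine rcs (v := ((9 / 32 : ℝ) * (qn x z))) rfl ?_
  refine rcs (v := (((9 / 32 : ℝ) * (qn x z)) - (1 : ℝ))) rfl ?_
  refine rcs (v := ((((9 / 32 : ℝ) * (qn x z)) - (1 : ℝ)) - (cqB x z))) rfl ?_
  refine rcs (v := (((((9 / 32 : ℝ) * (qn x z)) - (1 : ℝ)) - (cqB x z)) * (cqd x))) rfl ?_
  refine rcs (v := (qs x z)) rfl ?_
  refine rcs (v := ((qs x z) * x)) rfl ?_
  refine rcs (v := (((qbi x z) * (cqd x)) + ((qbi x z) * (cqd x)))) rfl ?_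
  refine rcs (v := (((qs x z) * x) + (((qbi x z) * (cqd x)) + ((qbi x z) * (cqd x))))) rfl ?_
  refine rcs (v := (qgr x z)) rfl ?_
  refine rcs (v := ((qs x z) * z)) rfl ?_
  refine rcs (v := (((qbr x z) * (cqd x)) + ((qbr x z) * (cqd x)))) rfl ?_
  refine rcs (v := (((qs x z) * z) - (((qbr x z) * (cqd x)) + ((qbr x z) * (cqd x))))) rfl ?_
  refine rcs (v := (qgi x z)) rfl ?_
  refine rcs (v := (413 / 65536 : ℝ)) (by norm_num [step, realAlg]) ?_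
  refine rcs (v := (9 / 64 : ℝ)) (by norm_num [step, realAlg]) ?_
  refine rcs (v := ((9 / 64 : ℝ) * (qn x z))) rfl ?_
  refine rcs (v := ((413 / 65536 : ℝ) - ((9 / 64 : ℝ) * (qn x z)))) rfl ?_
  refine rcs (v := (((413 / 65536 : ℝ) - ((9 / 64 : ℝ) * (qn x z))) + (cqB x z))) rfl ?_
  refine rcs (v := ((((413 / 65536 : ℝ) - ((9 / 64 : ℝ) * (qn x z))) + (cqB x z)) * (cqd x))) rfl ?_
  refine rcs (v := (qE x z)) rfl ?_
  refine rcs (v := (83 / 512 : ℝ)) (by norm_num [step, realAlg]) ?_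
  refine rcs (v := (43 / 32 : ℝ)) (by norm_num [step, realAlg]) ?_
  refine rcs (v := (305 / 256 : ℝ)) (by norm_num [step, realAlg]) ?_
  refine rcs (v := (71 / 256 : ℝ)) (by norm_num [step, realAlg]) ?_
  refine rcs (v := ((71 / 256 : ℝ) * (qn x z))) rfl ?_
  refine rcs (v := ((305 / 256 : ℝ) - ((71 / 256 : ℝ) * (qn x z)))) rfl ?_
  refine rcs (v := ((lz : ℝ) / 2 ^ le)) rfl ?_
  refine rcs (v := (((lz : ℝ) / 2 ^ le) - ((305 / 256 : ℝ) - ((71 / 256 : ℝ) * (qn x z))))) rfl ?_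
  refine rcs (v := ((((lz : ℝ) / 2 ^ le) - ((305 / 256 : ℝ) - ((71 / 256 : ℝ) * (qn x z)))) * (cqd x))) rfl ?_
  refine rcs (v := ((rz : ℝ) / 2 ^ re)) rfl ?_
  refine rcs (v := (((((lz : ℝ) / 2 ^ le) - ((305 / 256 : ℝ) - ((71 / 256 : ℝ) * (qn x z)))) * (cqd x)) * x)) rfl ?_
  refine rcs (v := (((rz : ℝ) / 2 ^ re) * (qor x z))) rfl ?_
  refine rcs (v := ((((((lz : ℝ) / 2 ^ le) - ((305 / 256 : ℝ) - ((71 / 256 : ℝ) * (qn x z)))) * (cqd x)) * x) + (((rz : ℝ) / 2 ^ re) * (qor x z)))) rfl ?_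
  refine rcs (v := (((((lz : ℝ) / 2 ^ le) - ((305 / 256 : ℝ) - ((71 / 256 : ℝ) * (qn x z)))) * (cqd x)) * z)) rfl ?_
  refine rcs (v := (((rz : ℝ) / 2 ^ re) * (qoi x z))) rfl ?_
  refine rcs (v := ((((((lz : ℝ) / 2 ^ le) - ((305 / 256 : ℝ) - ((71 / 256 : ℝ) * (qn x z)))) * (cqd x)) * z) + (((rz : ℝ) / 2 ^ re) * (qoi x z)))) rfl ?_
  refine rcs (v := (((((((lz : ℝ) / 2 ^ le) - ((305 / 256 : ℝ) - ((71 / 256 : ℝ) * (qn x z)))) * (cqd x)) * x) + (((rz : ℝ) / 2 ^ re) * (qor x z))) * ((((((lz : ℝ) / 2 ^ le) - ((305 / 256 : ℝ) - ((71 / 256 : ℝ) * (qn x z)))) * (cqd x)) * x) + (((rz : ℝ) / 2 ^ re) * (qor x z))))) rfl ?_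
  refine rcs (v := (((((((lz : ℝ) / 2 ^ le) - ((305 / 256 : ℝ) - ((71 / 256 : ℝ) * (qn x z)))) * (cqd x)) * z) + (((rz : ℝ) / 2 ^ re) * (qoi x z))) * ((((((lz : ℝ) / 2 ^ le) - ((305 / 256 : ℝ) - ((71 / 256 : ℝ) * (qn x z)))) * (cqd x)) * z) + (((rz : ℝ) / 2 ^ re) * (qoi x z))))) rfl ?_
  refine rcs (v := ((((((((lz : ℝ) / 2 ^ le) - ((305 / 256 : ℝ) - ((71 / 256 : ℝ) * (qn x z)))) * (cqd x)) * x) + (((rz : ℝ) / 2 ^ re) * (qor x z))) * ((((((lz : ℝ) / 2 ^ le) - ((305 / 256 : ℝ) - ((71 / 256 : ℝ) * (qn x z)))) * (cqd x)) * x) + (((rz : ℝ) / 2 ^ re) * (qor x z)))) + (((((((lz : ℝ) / 2 ^ le) - ((305 / 256 : ℝ) - ((71 / 256 : ℝ) * (qn x z)))) * (cqd x)) * z) + (((rz : ℝ) / 2 ^ re) * (qoi x z))) * ((((((lz : ℝ) / 2 ^ le) - ((305 / 256 : ℝ) - ((71 / 256 : ℝ) * (qn x z)))) * (cqd x)) * z) + (((rz : ℝ) / 2 ^ re) * (qoi x z)))))) rfl ?_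
  refine rcs (v := (81 / 16 : ℝ)) (by norm_num [step, realAlg]) ?_
  refine rcs (v := ((81 / 16 : ℝ) - ((9 / 64 : ℝ) * (qn x z)))) rfl ?_
  refine rcs (v := (125 / 256 : ℝ)) (by norm_num [step, realAlg]) ?_
  refine rcs (v := ((125 / 256 : ℝ) * (cqB x z))) rfl ?_
  refine rcs (v := (((81 / 16 : ℝ) - ((9 / 64 : ℝ) * (qn x z))) + ((125 / 256 : ℝ) * (cqB x z)))) rfl ?_
  refine rcs (v := ((((81 / 16 : ℝ) - ((9 / 64 : ℝ) * (qn x z))) + ((125 / 256 : ℝ) * (cqB x z))) - (83 / 512 : ℝ))) rfl ?_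
  refine rcs (v := (4 * ((lz : ℝ) / 2 ^ le))) (by simp only [step, realAlg]; push_cast; ring) ?_
  refine rcs (v := ((4 * ((lz : ℝ) / 2 ^ le)) * ((((81 / 16 : ℝ) - ((9 / 64 : ℝ) * (qn x z))) + ((125 / 256 : ℝ) * (cqB x z))) - (83 / 512 : ℝ)))) rfl ?_
  refine rcs (v := (((4 * ((lz : ℝ) / 2 ^ le)) * ((((81 / 16 : ℝ) - ((9 / 64 : ℝ) * (qn x z))) + ((125 / 256 : ℝ) * (cqB x z))) - (83 / 512 : ℝ))) * (cqd x))) rfl ?_
  refine rcs (v := ((((4 * ((lz : ℝ) / 2 ^ le)) * ((((81 / 16 : ℝ) - ((9 / 64 : ℝ) * (qn x z))) + ((125 / 256 : ℝ) * (cqB x z))) - (83 / 512 : ℝ))) * (cqd x)) * (cqd x))) rfl ?_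
  refine rcs (v := ((43 / 32 : ℝ) * ((((((((lz : ℝ) / 2 ^ le) - ((305 / 256 : ℝ) - ((71 / 256 : ℝ) * (qn x z)))) * (cqd x)) * x) + (((rz : ℝ) / 2 ^ re) * (qor x z))) * ((((((lz : ℝ) / 2 ^ le) - ((305 / 256 : ℝ) - ((71 / 256 : ℝ) * (qn x z)))) * (cqd x)) * x) + (((rz : ℝ) / 2 ^ re) * (qor x z)))) + (((((((lz : ℝ) / 2 ^ le) - ((305 / 256 : ℝ) - ((71 / 256 : ℝ) * (qn x z)))) * (cqd x)) * z) + (((rz : ℝ) / 2 ^ re) * (qoi x z))) * ((((((lz : ℝ) / 2 ^ le) - ((305 / 256 : ℝ) - ((71 / 256 : ℝ) * (qn x z)))) * (cqd x)) * z) + (((rz : ℝ) / 2 ^ re) * (qoi x z))))))) rfl ?_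
  refine rcs (v := (((((4 * ((lz : ℝ) / 2 ^ le)) * ((((81 / 16 : ℝ) - ((9 / 64 : ℝ) * (qn x z))) + ((125 / 256 : ℝ) * (cqB x z))) - (83 / 512 : ℝ))) * (cqd x)) * (cqd x)) - ((43 / 32 : ℝ) * ((((((((lz : ℝ) / 2 ^ le) - ((305 / 256 : ℝ) - ((71 / 256 : ℝ) * (qn x z)))) * (cqd x)) * x) + (((rz : ℝ) / 2 ^ re) * (qor x z))) * ((((((lz : ℝ) / 2 ^ le) - ((305 / 256 : ℝ) - ((71 / 256 : ℝ) * (qn x z)))) * (cqd x)) * x) + (((rz : ℝ) / 2 ^ re) * (qor x z)))) + (((((((lz : ℝ) / 2 ^ le) - ((305 / 256 : ℝ) - ((71 / 256 : ℝ) * (qn x z)))) * (cqd x)) * z) + (((rz : ℝ) / 2 ^ re) * (qoi x z))) * ((((((lz : ℝ) / 2 ^ le) - ((305 / 256 : ℝ) - ((71 / 256 : ℝ) * (qn x z)))) * (cqd x)) * z) + (((rz : ℝ) / 2 ^ re) * (qoi x z)))))))) rfl ?_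
  refine rcs (v := ((((((4 * ((lz : ℝ) / 2 ^ le)) * ((((81 / 16 : ℝ) - ((9 / 64 : ℝ) * (qn x z))) + ((125 / 256 : ℝ) * (cqB x z))) - (83 / 512 : ℝ))) * (cqd x)) * (cqd x)) - ((43 / 32 : ℝ) * ((((((((lz : ℝ) / 2 ^ le) - ((305 / 256 : ℝ) - ((71 / 256 : ℝ) * (qn x z)))) * (cqd x)) * x) + (((rz : ℝ) / 2 ^ re) * (qor x z))) * ((((((lz : ℝ) / 2 ^ le) - ((305 / 256 : ℝ) - ((71 / 256 : ℝ) * (qn x z)))) * (cqd x)) * x) + (((rz : ℝ) / 2 ^ re) * (qor x z)))) + (((((((lz : ℝ) / 2 ^ le) - ((305 / 256 : ℝ) - ((71 / 256 : ℝ) * (qn x z)))) * (cqd x)) * z) + (((rz : ℝ) / 2 ^ re) * (qoi x z))) * ((((((lz : ℝ) / 2 ^ le) - ((305 / 256 : ℝ) - ((71 / 256 : ℝ) * (qn x z)))) * (cqd x)) * z) + (((rz : ℝ) / 2 ^ re) * (qoi x z))))))) * (qE x z))) rfl ?_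
  refine rcs (v := (((lz : ℝ) / 2 ^ le) * (cqd x))) rfl ?_
  refine rcs (v := ((qgr x z) * (qgr x z))) rfl ?_
  refine rcs (v := ((qgi x z) * (qgi x z))) rfl ?_
  refine rcs (v := (((qgr x z) * (qgr x z)) + ((qgi x z) * (qgi x z)))) rfl ?_
  refine rcs (v := ((((lz : ℝ) / 2 ^ le) * (cqd x)) * (((qgr x z) * (qgr x z)) + ((qgi x z) * (qgi x z))))) rfl ?_
  refine rcs (v := (((((((4 * ((lz : ℝ) / 2 ^ le)) * ((((81 / 16 : ℝ) - ((9 / 64 : ℝ) * (qn x z))) + ((125 / 256 : ℝ) * (cqB x z))) - (83 / 512 : ℝ))) * (cqd x)) * (cqd x)) - ((43 / 32 : ℝ) * ((((((((lz : ℝ) / 2 ^ le) - ((305 / 256 : ℝ) - ((71 / 256 : ℝ) * (qn x z)))) * (cqd x)) * x) + (((rz : ℝ) / 2 ^ re) * (qor x z))) * ((((((lz : ℝ) / 2 ^ le) - ((305 / 256 : ℝ) - ((71 / 256 : ℝ) * (qn x z)))) * (cqd x)) * x) + (((rz : ℝ) / 2 ^ re) * (qor x z)))) + (((((((lz : ℝ) / 2 ^ le) - ((305 / 256 : ℝ)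 - ((71 / 256 : ℝ) * (qn x z)))) * (cqd x)) * z) + (((rz : ℝ) / 2 ^ re) * (qoi x z))) * ((((((lz : ℝ) / 2 ^ le) - ((305 / 256 : ℝ) - ((71 / 256 : ℝ) * (qn x z)))) * (cqd x)) * z) + (((rz : ℝ) / 2 ^ re) * (qoi x z))))))) * (qE x z)) - ((((lz : ℝ) / 2 ^ le) * (cqd x)) * (((qgr x z) * (qgr x z)) + ((qgi x z) * (qgi x z)))))) rfl ?_
  rfl

theorem res_cPE (β : ℕ → ℝ) (x z : ℝ) :
    res (realAlg β x z) cPE = qE x z - 1 / 4096 := by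
  unfold res cPE
  refine rcs (v := x) rfl ?_
  refine rcs (v := z) rfl ?_
  refine rcs (v := (x * x)) rfl ?_
  refine rcs (v := (z * z)) rfl ?_
  refine rcs (v := (qn x z)) rfl ?_
  refine rcs (v := (1 : ℝ)) (by norm_num [step, realAlg]) ?_
  refine rcs (v := ((1 : ℝ) - (qn x z))) rfl ?_
  refine rcs (v := (x + x)) rfl ?_
  refine rcs (v := (cqd x)) rfl ?_
  refine rcs (v := (x * z)) rfl ?_
  refine rcs (v := (((1 : ℝ) - (qn x z)) * (cqd x))) rfl ?_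
  refine rcs (v := (qVr x z)) rfl ?_
  refine rcs (v := (((1 : ℝ) - (qn x z)) + ((1 : ℝ) - (qn x z)))) rfl ?_
  refine rcs (v := (x * (cqd x))) rfl ?_
  refine rcs (v := ((((1 : ℝ) - (qn x z)) + ((1 : ℝ) - (qn x z))) - (x * (cqd x)))) rfl ?_
  refine rcs (v := (qVi x z)) rfl ?_
  refine rcs (v := ((z * z) + (z * z))) rfl ?_
  refine rcs (v := (((z * z) + (z * z)) + (z * z))) rfl ?_
  refine rcs (v := ((x * x) - (((z * z) + (z * z)) + (z * z)))) rfl ?_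
  refine rcs (v := (x * ((x * x) - (((z * z) + (z * z)) + (z * z))))) rfl ?_
  refine rcs (v := (173 / 1024 : ℝ)) (by norm_num [step, realAlg]) ?_
  refine rcs (v := ((173 / 1024 : ℝ) * (qn x z))) rfl ?_
  refine rcs (v := (77 / 4096 : ℝ)) (by norm_num [step, realAlg]) ?_
  refine rcs (v := ((77 / 4096 : ℝ) * (x * ((x * x) - (((z * z) + (z * z)) + (z * z)))))) rfl ?_
  refine rcs (v := (cqB x z)) rfl ?_
  refine rcs (v := ((x * x) - (z * z))) rfl ?_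
  refine rcs (v := (-(33 / 2048) : ℝ)) (by norm_num [step, realAlg]) ?_
  refine rcs (v := (((x * x) - (z * z)) * (qVi x z))) rfl ?_
  refine rcs (v := ((x * z) + (x * z))) rfl ?_
  refine rcs (v := (((x * z) + (x * z)) * (qVr x z))) rfl ?_
  refine rcs (v := ((((x * x) - (z * z)) * (qVi x z)) + (((x * z) + (x * z)) * (qVr x z)))) rfl ?_
  refine rcs (v := (qw x z)) rfl ?_
  refine rcs (v := (413 / 65536 : ℝ)) (by norm_num [step, realAlg]) ?_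
  refine rcs (v := (9 / 64 : ℝ)) (by norm_num [step, realAlg]) ?_
  refine rcs (v := ((9 / 64 : ℝ) * (qn x z))) rfl ?_
  refine rcs (v := ((413 / 65536 : ℝ) - ((9 / 64 : ℝ) * (qn x z)))) rfl ?_
  refine rcs (v := (((413 / 65536 : ℝ) - ((9 / 64 : ℝ) * (qn x z))) + (cqB x z))) rfl ?_
  refine rcs (v := ((((413 / 65536 : ℝ) - ((9 / 64 : ℝ) * (qn x z))) + (cqB x z)) * (cqd x))) rfl ?_
  refine rcs (v := (qE x z)) rfl ?_
  refine rcs (v := (1 / 4096 : ℝ)) (by norm_num [step, realAlg]) ?_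
  refine rcs (v := ((qE x z) - (1 / 4096 : ℝ))) rfl ?_
  rfl

end Pool.H61.Rh
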