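import Pool.Agent.H81.Co.C3a

/-! # C3b: the kernel checks of the zones -/

set_option autoImplicit false
set_option maxRecDepth 100000

namespace Pool.H61.Rh

open Complex Pool.H47.Kc

def mkZ (eX eY : Nat) (aX aY : Int) (sX sY nX nY bx by' : Nat) : Zone :=
  ⟨0, eX, eY, 0, aX, aY, 0, sX, sY, 0, nX, nY, bx, by'⟩

def ckZ1 (lz : Int) (le : Nat) (Z : Zone) : Bool :=
  ((check Z [] (cP1 lz le 1 0)).and (check Z [] (cP1 lz le 535 9))).and (check Z [] cPE)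

def ckZ2 (lz : Int) (le : Nat) (Z : Zone) : Bool :=
  ((check Z [] (cP2 lz le 1 0)).and (check Z [] (cP2 lz le 535 9))).and (check Z [] cPE)

/-- what the elimination needs at a point -/
def Good (x z : ℝ) : Prop :=
  0 < qE x z ∧ ∃ K3 Ph Cl lam : ℝ, 0 < lam ∧ QCls x z K3 Ph Cl ∧
    0 ≤ qF K3 Ph Cl lam 1 x z ∧ 0 ≤ qF K3 Ph Cl lam (535 / 512) x z

private theorem C3b_encl (t : ℝ) : Encl [] t (fun _ => 0) := by
  intro i
  simp [Pool.H47.Kc.get, pval]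

theorem good1 (lz : Int) (le eX eY : Nat) (aX aY : Int) (sX sY nX nY bx by' : Nat)
    (h : ckZ1 lz le (mkZ eX eY aX aY sX sY nX nY bx by') = true) (hl : 0 < lz) (x z : ℝ)
    (hx0 : (aX : ℝ) / 2 ^ eX ≤ x) (hx1 : x ≤ (aX + sX * nX : ℝ) / 2 ^ eX)
    (hz0 : (aY : ℝ) / 2 ^ eY ≤ z) (hz1 : z ≤ (aY + sY * nY : ℝ) / 2 ^ eY)
    (hn : qn x z ≤ 1 / 4) : Good x z := by
  unfold ckZ1 at h
  simp only [Bool.and_eq_true] at h
  obtain ⟨⟨h1, h2⟩, h3⟩ := h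
  have hm : (mkZ eX eY aX aY sX sY nX nY bx by').Mem 0 x z :=
    ⟨by simp [mkZ], by simp [mkZ], hx0, hx1, hz0, hz1⟩
  have k1 := check_sound _ _ _ h1 0 x z hm _ (C3b_encl 0)
  have k2 := check_sound _ _ _ h2 0 x z hm _ (C3b_encl 0)
  have k3 := check_sound _ _ _ h3 0 x z hm _ (C3b_encl 0)
  rw [res_cP1] at k1 k2
  rw [res_cPE] at k3
  refine ⟨by linarith, _, _, _, (lz : ℝ) / 2 ^ le, ?_, Or.inl ⟨hn, rfl, rfl, rfl⟩, ?_, ?_⟩
  · have : (0 : ℝ) < lz := by exact_mod_cast hl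
    positivity
  · convert k1 using 2
    norm_num
  · convert k2 using 2
    norm_num

theorem good2 (lz : Int) (le eX eY : Nat) (aX aY : Int) (sX sY nX nY bx by' : Nat)
    (h : ckZ2 lz le (mkZ eX eY aX aY sX sY nX nY bx by') = true) (hl : 0 < lz) (x z : ℝ)
    (hx0 : (aX : ℝ) / 2 ^ eX ≤ x) (hx1 : x ≤ (aX + sX * nX : ℝ) / 2 ^ eX)
    (hz0 : (aY : ℝ) / 2 ^ eY ≤ z) (hz1 : z ≤ (aY + sY * nY : ℝ) / 2 ^ eY)
    (hn : qn x z ≤ 79 / 100) : Good x z := by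
  unfold ckZ2 at h
  simp only [Bool.and_eq_true] at h
  obtain ⟨⟨h1, h2⟩, h3⟩ := h
  have hm : (mkZ eX eY aX aY sX sY nX nY bx by').Mem 0 x z :=
    ⟨by simp [mkZ], by simp [mkZ], hx0, hx1, hz0, hz1⟩
  have k1 := check_sound _ _ _ h1 0 x z hm _ (C3b_encl 0)
  have k2 := check_sound _ _ _ h2 0 x z hm _ (C3b_encl 0)
  have k3 := check_sound _ _ _ h3 0 x z hm _ (C3b_encl 0)
  rw [res_cP2] at k1 k2
  rw [res_cPE] at k3
  refine ⟨by linarith, _, _, _, (lz : ℝ) / 2 ^ le, ?_, Or.inr ⟨hn, rfl, rfl, rfl⟩, ?_, ?_⟩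
  · have : (0 : ℝ) < lz := by exact_mod_cast hl
    positivity
  · convert k1 using 2
    norm_num
  · convert k2 using 2
    norm_num


end Pool.H61.Rh
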