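import Pool.Agent.H81.Co.C3b

/-! # C3z2: the kernel checks of the zones, part 2 -/

set_option autoImplicit false
set_option maxRecDepth 100000

namespace Pool.H61.Rh

open Complex Pool.H47.Kc

theorem cz25 : ckZ1 5 2 (mkZ 10 10 (368) (128) 16 128 1 1 3648 225) = true := by decide +kernel
theorem cz26 : ckZ1 6 2 (mkZ 10 10 (384) (128) 16 32 1 1 3648 225) = true := by decide +kernel
theorem cz27 : ckZ1 6 2 (mkZ 10 10 (384) (160) 16 32 1 1 3648 225) = true := by decide +kernel
theorem cz28 : ckZ1 5 2 (mkZ 10 10 (384) (192) 17 32 1 1 3648 225) = true := by decide +kernel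
theorem cz29 : ckZ1 5 2 (mkZ 10 10 (384) (224) 18 32 1 1 3648 225) = true := by decide +kernel
theorem cz30 : ckZ2 5 2 (mkZ 10 10 (-656) (256) 64 128 2 1 3662 226) = true := by decide +kernel
theorem cz31 : ckZ2 5 2 (mkZ 10 10 (-528) (256) 64 128 2 1 3646 225) = true := by decide +kernel
theorem cz32 : ckZ2 6 2 (mkZ 10 10 (-400) (256) 32 64 4 2 3630 224) = true := by decide +kernel
theorem cz33 : ckZ1 7 2 (mkZ 10 10 (-272) (256) 16 32 8 4 3664 226) = true := by decide +kernel
theorem cz34 : ckZ1 6 2 (mkZ 10 10 (-144) (256) 8 32 16 4 3648 225) = true := by decide +kernel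
theorem cz35 : ckZ1 6 2 (mkZ 10 10 (-16) (256) 16 32 8 4 3616 223) = true := by decide +kernel
theorem cz36 : ckZ1 5 2 (mkZ 10 10 (112) (256) 16 64 8 2 3632 224) = true := by decide +kernel
theorem cz37 : ckZ2 3 2 (mkZ 10 10 (240) (256) 16 64 8 2 3582 221) = true := by decide +kernel
theorem cz38 : ckZ2 4 2 (mkZ 10 10 (368) (256) 16 128 1 1 3598 222) = true := by decide +kernel
theorem cz39 : ckZ1 5 2 (mkZ 10 10 (384) (256) 20 32 1 1 3648 225) = true := by decide +kernel
theorem cz40 : ckZ2 4 2 (mkZ 11 10 (768) (288) 21 32 2 1 3870 238) = true := by decide +kernel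
theorem cz41 : ckZ2 4 2 (mkZ 11 10 (768) (320) 23 32 2 1 3870 238) = true := by decide +kernel
theorem cz42 : ckZ2 4 2 (mkZ 10 10 (384) (352) 12 32 2 1 3598 222) = true := by decide +kernel
theorem cz43 : ckZ2 5 2 (mkZ 10 10 (-400) (384) 64 128 2 1 3630 224) = true := by decide +kernel
theorem cz44 : ckZ2 5 2 (mkZ 10 10 (-272) (384) 32 64 4 2 3614 223) = true := by decide +kernel
theorem cz45 : ckZ2 5 2 (mkZ 10 10 (-144) (384) 8 16 16 8 3598 222) = true := by decide +kernel
theorem cz46 : ckZ2 5 2 (mkZ 10 10 (-16) (384) 8 32 16 4 3582 221) = true := by decide +kernel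
theorem cz47 : ckZ2 4 2 (mkZ 10 10 (112) (384) 16 32 8 4 3582 221) = true := by decide +kernel
theorem cz48 : ckZ2 3 2 (mkZ 10 10 (240) (384) 8 32 16 4 3598 222) = true := by decide +kernel
theorem cz49 : ckZ2 3 2 (mkZ 10 10 (368) (384) 16 64 1 2 3598 222) = true := by decide +kernel

end Pool.H61.Rh
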