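import Pool.Agent.H81.Co.C3b

/-! # C3z3: the kernel checks of the zones, part 3 -/

set_option autoImplicit false
set_option maxRecDepth 100000

namespace Pool.H61.Rh

open Complex Pool.H47.Kc

theorem cz50 : ckZ2 4 2 (mkZ 10 10 (384) (384) 13 32 2 1 3598 222) = true := by decide +kernel
theorem cz51 : ckZ2 3 2 (mkZ 10 10 (384) (416) 14 32 2 1 3598 222) = true := by decide +kernel
theorem cz52 : ckZ2 3 2 (mkZ 11 10 (768) (448) 31 32 2 1 3870 238) = true := by decide +kernel
theorem cz53 : ckZ2 3 2 (mkZ 11 10 (768) (480) 33 32 2 1 3870 238) = true := by decide +kernel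
theorem cz54 : ckZ2 4 2 (mkZ 10 10 (-144) (512) 16 64 8 2 3598 222) = true := by decide +kernel
theorem cz55 : ckZ2 4 2 (mkZ 10 10 (-16) (512) 16 32 8 4 3582 221) = true := by decide +kernel
theorem cz56 : ckZ2 4 2 (mkZ 10 10 (112) (512) 8 32 16 4 3598 222) = true := by decide +kernel
theorem cz57 : ckZ2 3 2 (mkZ 10 10 (240) (512) 8 32 16 4 3614 223) = true := by decide +kernel
theorem cz58 : ckZ2 3 2 (mkZ 10 10 (368) (512) 16 64 1 2 3614 223) = true := by decide +kernel
theorem cz59 : ckZ2 3 2 (mkZ 10 10 (384) (512) 12 32 3 1 3614 223) = true := by decide +kernel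
theorem cz60 : ckZ2 3 2 (mkZ 10 10 (384) (544) 13 32 3 1 3614 223) = true := by decide +kernel
theorem cz61 : ckZ2 3 2 (mkZ 12 10 (1536) (576) 43 32 4 1 4158 255) = true := by decide +kernel
theorem cz62 : ckZ2 3 2 (mkZ 13 10 (3072) (608) 47 32 8 1 4430 271) = true := by decide +kernel
theorem cz63 : ckZ2 4 2 (mkZ 10 10 (-16) (640) 16 64 8 2 3598 222) = true := by decide +kernel
theorem cz64 : ckZ2 4 2 (mkZ 10 10 (112) (640) 8 32 16 4 3614 223) = true := by decide +kernel
theorem cz65 : ckZ2 3 2 (mkZ 10 10 (240) (640) 4 16 32 8 3614 223) = true := by decide +kernel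
theorem cz66 : ckZ2 3 2 (mkZ 10 10 (368) (640) 4 16 12 8 3630 224) = true := by decide +kernel
theorem cz67 : ckZ2 3 2 (mkZ 11 10 (832) (640) 19 32 2 1 3886 239) = true := by decide +kernel
theorem cz68 : ckZ2 3 2 (mkZ 10 10 (416) (672) 8 32 3 1 3630 224) = true := by decide +kernel
theorem cz69 : ckZ2 3 2 (mkZ 13 10 (3328) (704) 29 32 8 1 4446 272) = true := by decide +kernel
theorem cz70 : ckZ2 3 2 (mkZ 13 10 (3328) (736) 35 16 8 2 4446 272) = true := by decide +kernel
theorem cz71 : ckZ2 3 2 (mkZ 10 10 (240) (768) 4 16 32 8 3630 224) = true := by decide +kernel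
theorem cz72 : ckZ2 3 2 (mkZ 10 10 (368) (768) 3 16 16 8 3630 224) = true := by decide +kernel
theorem cz73 : ckZ2 3 2 (mkZ 12 10 (1664) (768) 13 16 12 1 4174 256) = true := by decide +kernel
theorem cz74 : ckZ2 3 2 (mkZ 13 10 (3328) (784) 21 8 16 2 4446 272) = true := by decide +kernel

end Pool.H61.Rh
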