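import Pool.Agent.H81.Co.C3z1
import Pool.Agent.H81.Co.C3z2
import Pool.Agent.H81.Co.C3z3

/-! # C3c: covering of the domain by the zones -/

set_option autoImplicit false
set_option maxRecDepth 100000

namespace Pool.H61.Rh

open Complex

theorem qn_le (M N x z : ℝ) (h1 : -M ≤ x) (h2 : x ≤ M) (h3 : -N ≤ z) (h4 : z ≤ N)
    (h5 : M * M + N * N ≤ 1 / 4) : qn x z ≤ 1 / 4 := by
  unfold qn
  have a := abs_le.mpr ⟨h1, h2⟩
  have b := abs_le.mpr ⟨h3, h4⟩
  have a' := mul_self_le_mul_self (abs_nonneg x) a
  have b' := mul_self_le_mul_self (abs_nonneg z) b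
  rw [abs_mul_abs_self] at a' b'
  linarith

theorem rb (X b x z : ℝ) (hx : 111 / 1000 ≤ 1 - 2 * x) (hz0 : 0 ≤ z) (hz : z ≤ b)
    (he : 59 / 1000 * (1 - qn x z) ≤ (1 - 2 * x) ^ 2) (hX : X ≤ 12 / 25)
    (hXb : (1 - 2 * X) ^ 2 + 59 / 1000 * (X * X + b * b) ≤ 59 / 1000) : x ≤ X := by
  by_contra hc
  push Not at hc
  unfold qn at he
  have h1 : z * z ≤ b * b := mul_self_le_mul_self hz0 hz
  have h2 : 0 < (x - X) * (4000 - 4059 * (x + X)) := by
    apply mul_pos
    · linarith
    · linarith
  nlinarith

theorem band0 (x z : ℝ) (hz0 : 0 ≤ z) (hz1 : z ≤ 1 / 8) (hn : qn x z ≤ 79 / 100)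
    (hd : 111 / 1000 ≤ 1 - 2 * x) (he : 59 / 1000 * (1 - qn x z) ≤ (1 - 2 * x) ^ 2)
    (hs : 433 / 250 * z ≤ 889 / 1000 + x) : Good x z := by
  have hx0 : -(57 / 64) ≤ x := by
    have hn' := hn
    unfold qn at hn'
    nlinarith [mul_self_nonneg z]
  rcases le_or_gt x (-(49 / 64)) with h0 | h1
  · exact good2 3 2 10 10 (-912) (0) 64 128 2 1 3678 227 cz0 (by norm_num) x z
      (by norm_num; linarith only [hx0, h0, hz0, hz1]) (by norm_num; linarith only [hx0, h0, hz0, hz1]) (by norm_num; linarith only [hx0, h0, hz0, hz1]) (by norm_num; linarith only [hx0, h0, hz0, hz1])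
      hn
  rcases le_or_gt x (-(41 / 64)) with h2 | h3
  · exact good2 5 2 10 10 (-784) (0) 64 128 2 1 3662 226 cz1 (by norm_num) x z
      (by norm_num; linarith only [h1, h2, hz0, hz1]) (by norm_num; linarith only [h1, h2, hz0, hz1]) (by norm_num; linarith only [h1, h2, hz0, hz1]) (by norm_num; linarith only [h1, h2, hz0, hz1])
      hn
  rcases le_or_gt x (-(33 / 64)) with h4 | h5
  · exact good2 5 2 10 10 (-656) (0) 64 128 2 1 3646 225 cz2 (by norm_num) x z
      (by norm_num; linarith only [h3, h4, hz0, hz1]) (by norm_num; linarith only [h3, h4, hz0, hz1]) (by norm_num; linarith only [h3, h4, hz0, hz1]) (by norm_num; linarith only [h3, h4, hz0, hz1])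
      hn
  rcases le_or_gt x (-(25 / 64)) with h6 | h7
  · exact good2 6 2 10 10 (-528) (0) 32 128 4 1 3630 224 cz3 (by norm_num) x z
      (by norm_num; linarith only [h5, h6, hz0, hz1]) (by norm_num; linarith only [h5, h6, hz0, hz1]) (by norm_num; linarith only [h5, h6, hz0, hz1]) (by norm_num; linarith only [h5, h6, hz0, hz1])
      hn
  rcases le_or_gt x (-(17 / 64)) with h8 | h9
  · exact good1 8 2 10 10 (-400) (0) 32 64 4 2 3680 227 cz4 (by norm_num) x z
      (by norm_num; linarith only [h7, h8, hz0, hz1]) (by norm_num; linarith only [h7, h8, hz0, hz1]) (by norm_num; linarith only [h7, h8, hz0, hz1]) (by norm_num; linarith only [h7, h8, hz0, hz1])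
      (qn_le (25 / 64) (1 / 8) x z (by linarith only [h7, h8, hz0, hz1]) (by linarith only [h7, h8, hz0, hz1]) (by linarith only [h7, h8, hz0, hz1]) (by linarith only [h7, h8, hz0, hz1]) (by norm_num))
  rcases le_or_gt x (-(9 / 64)) with h10 | h11
  · exact good1 12 2 10 10 (-272) (0) 16 32 8 4 3664 226 cz5 (by norm_num) x z
      (by norm_num; linarith only [h9, h10, hz0, hz1]) (by norm_num; linarith only [h9, h10, hz0, hz1]) (by norm_num; linarith only [h9, h10, hz0, hz1]) (by norm_num; linarith only [h9, h10, hz0, hz1])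
      (qn_le (17 / 64) (1 / 8) x z (by linarith only [h9, h10, hz0, hz1]) (by linarith only [h9, h10, hz0, hz1]) (by linarith only [h9, h10, hz0, hz1]) (by linarith only [h9, h10, hz0, hz1]) (by norm_num))
  rcases le_or_gt x (-(1 / 64)) with h12 | h13
  · exact good1 10 2 10 10 (-144) (0) 16 32 8 4 3632 224 cz6 (by norm_num) x z
      (by norm_num; linarith only [h11, h12, hz0, hz1]) (by norm_num; linarith only [h11, h12, hz0, hz1]) (by norm_num; linarith only [h11, h12, hz0, hz1]) (by norm_num; linarith only [h11, h12, hz0, hz1])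
      (qn_le (9 / 64) (1 / 8) x z (by linarith only [h11, h12, hz0, hz1]) (by linarith only [h11, h12, hz0, hz1]) (by linarith only [h11, h12, hz0, hz1]) (by linarith only [h11, h12, hz0, hz1]) (by norm_num))
  rcases le_or_gt x (7 / 64) with h14 | h15
  · exact good1 12 2 10 10 (-16) (0) 32 64 4 2 3616 223 cz7 (by norm_num) x z
      (by norm_num; linarith only [h13, h14, hz0, hz1]) (by norm_num; linarith only [h13, h14, hz0, hz1]) (by norm_num; linarith only [h13, h14, hz0, hz1]) (by norm_num; linarith only [h13, h14, hz0, hz1])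
      (qn_le (7 / 64) (1 / 8) x z (by linarith only [h13, h14, hz0, hz1]) (by linarith only [h13, h14, hz0, hz1]) (by linarith only [h13, h14, hz0, hz1]) (by linarith only [h13, h14, hz0, hz1]) (by norm_num))
  rcases le_or_gt x (15 / 64) with h16 | h17
  · exact good1 5 2 10 10 (112) (0) 32 128 4 1 3616 223 cz8 (by norm_num) x z
      (by norm_num; linarith only [h15, h16, hz0, hz1]) (by norm_num; linarith only [h15, h16, hz0, hz1]) (by norm_num; linarith only [h15, h16, hz0, hz1]) (by norm_num; linarith only [h15, h16, hz0, hz1])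
      (qn_le (15 / 64) (1 / 8) x z (by linarith only [h15, h16, hz0, hz1]) (by linarith only [h15, h16, hz0, hz1]) (by linarith only [h15, h16, hz0, hz1]) (by linarith only [h15, h16, hz0, hz1]) (by norm_num))
  rcases le_or_gt x (23 / 64) with h18 | h19
  · exact good1 5 2 10 10 (240) (0) 16 64 8 2 3632 224 cz9 (by norm_num) x z
      (by norm_num; linarith only [h17, h18, hz0, hz1]) (by norm_num; linarith only [h17, h18, hz0, hz1]) (by norm_num; linarith only [h17, h18, hz0, hz1]) (by norm_num; linarith only [h17, h18, hz0, hz1])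
      (qn_le (23 / 64) (1 / 8) x z (by linarith only [h17, h18, hz0, hz1]) (by linarith only [h17, h18, hz0, hz1]) (by linarith only [h17, h18, hz0, hz1]) (by linarith only [h17, h18, hz0, hz1]) (by norm_num))
  rcases le_or_gt x (3 / 8) with h20 | h21
  · exact good1 6 2 10 10 (368) (0) 16 128 1 1 3648 225 cz10 (by norm_num) x z
      (by norm_num; linarith only [h19, h20, hz0, hz1]) (by norm_num; linarith only [h19, h20, hz0, hz1]) (by norm_num; linarith only [h19, h20, hz0, hz1]) (by norm_num; linarith only [h19, h20, hz0, hz1])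
      (qn_le (3 / 8) (1 / 8) x z (by linarith only [h19, h20, hz0, hz1]) (by linarith only [h19, h20, hz0, hz1]) (by linarith only [h19, h20, hz0, hz1]) (by linarith only [h19, h20, hz0, hz1]) (by norm_num))
  rcases le_or_gt z (1 / 32) with g22 | g23
  · have hX : x ≤ 199 / 512 := rb (199 / 512) (1 / 32) x z hd (by linarith only [hz0, g22]) (by linarith only [hz0, g22]) he (by norm_num) (by norm_num)
    exact good1 6 2 10 10 (384) (0) 14 32 1 1 3648 225 cz11 (by norm_num) x z
      (by norm_num; linarith only [h21, hX, hz0, g22]) (by norm_num; linarith only [h21, hX, hz0, g22]) (by norm_num; linarith only [h21, hX, hz0, g22]) (by norm_num; linarith only [h21, hX, hz0, g22])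
      (qn_le (199 / 512) (1 / 32) x z (by linarith only [h21, hX, hz0, g22]) (by linarith only [h21, hX, hz0, g22]) (by linarith only [h21, hX, hz0, g22]) (by linarith only [h21, hX, hz0, g22]) (by norm_num))
  rcases le_or_gt z (1 / 16) with g24 | g25
  · have hX : x ≤ 199 / 512 := rb (199 / 512) (1 / 16) x z hd (by linarith only [g23, g24, hz0]) (by linarith only [g23, g24, hz0]) he (by norm_num) (by norm_num)
    exact good1 6 2 10 10 (384) (32) 14 32 1 1 3648 225 cz12 (by norm_num) x z
      (by norm_num; linarith only [h21, hX, g23, g24, hz0]) (by norm_num; linarith only [h21, hX, g23, g24, hz0]) (by norm_num; linarith only [h21, hX, g23, g24, hz0]) (by norm_num; linarith only [h21, hX, g23, g24, hz0])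
      (qn_le (199 / 512) (1 / 16) x z (by linarith only [h21, hX, g23, g24, hz0]) (by linarith only [h21, hX, g23, g24, hz0]) (by linarith only [h21, hX, g23, g24, hz0]) (by linarith only [h21, hX, g23, g24, hz0]) (by norm_num))
  rcases le_or_gt z (3 / 32) with g26 | g27
  · have hX : x ≤ 399 / 1024 := rb (399 / 1024) (3 / 32) x z hd (by linarith only [g25, g26, hz0]) (by linarith only [g25, g26, hz0]) he (by norm_num) (by norm_num)
    exact good1 6 2 10 10 (384) (64) 15 32 1 1 3648 225 cz13 (by norm_num) x z
      (by norm_num; linarith only [h21, hX, g25, g26, hz0]) (by norm_num; linarith only [h21, hX, g25, g26, hz0]) (by norm_num; linarith only [h21, hX, g25, g26, hz0]) (by norm_num; linarith only [h21, hX, g25, g26, hz0])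
      (qn_le (399 / 1024) (3 / 32) x z (by linarith only [h21, hX, g25, g26, hz0]) (by linarith only [h21, hX, g25, g26, hz0]) (by linarith only [h21, hX, g25, g26, hz0]) (by linarith only [h21, hX, g25, g26, hz0]) (by norm_num))
  have hX : x ≤ 399 / 1024 := rb (399 / 1024) (1 / 8) x z hd (by linarith only [g27, hz1, hz0]) (by linarith only [g27, hz1, hz0]) he (by norm_num) (by norm_num)
  exact good1 6 2 10 10 (384) (96) 15 32 1 1 3648 225 cz14 (by norm_num) x z
    (by norm_num; linarith only [h21, hX, g27, hz1, hz0]) (by norm_num; linarith only [h21, hX, g27, hz1, hz0]) (by norm_num; linarith only [h21, hX, g27, hz1, hz0]) (by norm_num; linarith only [h21, hX, g27, hz1, hz0])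
    (qn_le (399 / 1024) (1 / 8) x z (by linarith only [h21, hX, g27, hz1, hz0]) (by linarith only [h21, hX, g27, hz1, hz0]) (by linarith only [h21, hX, g27, hz1, hz0]) (by linarith only [h21, hX, g27, hz1, hz0]) (by norm_num))

theorem band1 (x z : ℝ) (hz0 : 1 / 8 ≤ z) (hz1 : z ≤ 1 / 4) (hn : qn x z ≤ 79 / 100)
    (hd : 111 / 1000 ≤ 1 - 2 * x) (he : 59 / 1000 * (1 - qn x z) ≤ (1 - 2 * x) ^ 2)
    (hs : 433 / 250 * z ≤ 889 / 1000 + x) : Good x z := by
  have hx0 : -(57 / 64) ≤ x := by
    have hn' := hn
    unfold qn at hn'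
    nlinarith [mul_self_nonneg z]
  rcases le_or_gt x (-(49 / 64)) with h30 | h31
  · exact good2 3 2 10 10 (-912) (128) 64 128 2 1 3678 227 cz15 (by norm_num) x z
      (by norm_num; linarith only [hx0, h30, hz0, hz1]) (by norm_num; linarith only [hx0, h30, hz0, hz1]) (by norm_num; linarith only [hx0, h30, hz0, hz1]) (by norm_num; linarith only [hx0, h30, hz0, hz1])
      hn
  rcases le_or_gt x (-(41 / 64)) with h32 | h33
  · exact good2 4 2 10 10 (-784) (128) 64 128 2 1 3662 226 cz16 (by norm_num) x z
      (by norm_num; linarith only [h31, h32, hz0, hz1]) (by norm_num; linarith only [h31, h32, hz0, hz1]) (by norm_num; linarith only [h31, h32, hz0, hz1]) (by norm_num; linarith only [h31, h32, hz0, hz1])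
      hn
  rcases le_or_gt x (-(33 / 64)) with h34 | h35
  · exact good2 5 2 10 10 (-656) (128) 64 128 2 1 3646 225 cz17 (by norm_num) x z
      (by norm_num; linarith only [h33, h34, hz0, hz1]) (by norm_num; linarith only [h33, h34, hz0, hz1]) (by norm_num; linarith only [h33, h34, hz0, hz1]) (by norm_num; linarith only [h33, h34, hz0, hz1])
      hn
  rcases le_or_gt x (-(25 / 64)) with h36 | h37
  · exact good2 6 2 10 10 (-528) (128) 32 128 4 1 3646 225 cz18 (by norm_num) x z
      (by norm_num; linarith only [h35, h36, hz0, hz1]) (by norm_num; linarith only [h35, h36, hz0, hz1]) (by norm_num; linarith only [h35, h36, hz0, hz1]) (by norm_num; linarith only [h35, h36, hz0, hz1])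
      hn
  rcases le_or_gt x (-(17 / 64)) with h38 | h39
  · exact good1 7 2 10 10 (-400) (128) 32 64 4 2 3680 227 cz19 (by norm_num) x z
      (by norm_num; linarith only [h37, h38, hz0, hz1]) (by norm_num; linarith only [h37, h38, hz0, hz1]) (by norm_num; linarith only [h37, h38, hz0, hz1]) (by norm_num; linarith only [h37, h38, hz0, hz1])
      (qn_le (25 / 64) (1 / 4) x z (by linarith only [h37, h38, hz0, hz1]) (by linarith only [h37, h38, hz0, hz1]) (by linarith only [h37, h38, hz0, hz1]) (by linarith only [h37, h38, hz0, hz1]) (by norm_num))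
  rcases le_or_gt x (-(9 / 64)) with h40 | h41
  · exact good1 10 2 10 10 (-272) (128) 16 32 8 4 3664 226 cz20 (by norm_num) x z
      (by norm_num; linarith only [h39, h40, hz0, hz1]) (by norm_num; linarith only [h39, h40, hz0, hz1]) (by norm_num; linarith only [h39, h40, hz0, hz1]) (by norm_num; linarith only [h39, h40, hz0, hz1])
      (qn_le (17 / 64) (1 / 4) x z (by linarith only [h39, h40, hz0, hz1]) (by linarith only [h39, h40, hz0, hz1]) (by linarith only [h39, h40, hz0, hz1]) (by linarith only [h39, h40, hz0, hz1]) (by norm_num))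
  rcases le_or_gt x (-(1 / 64)) with h42 | h43
  · exact good1 7 2 10 10 (-144) (128) 16 32 8 4 3632 224 cz21 (by norm_num) x z
      (by norm_num; linarith only [h41, h42, hz0, hz1]) (by norm_num; linarith only [h41, h42, hz0, hz1]) (by norm_num; linarith only [h41, h42, hz0, hz1]) (by norm_num; linarith only [h41, h42, hz0, hz1])
      (qn_le (9 / 64) (1 / 4) x z (by linarith only [h41, h42, hz0, hz1]) (by linarith only [h41, h42, hz0, hz1]) (by linarith only [h41, h42, hz0, hz1]) (by linarith only [h41, h42, hz0, hz1]) (by norm_num))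
  rcases le_or_gt x (7 / 64) with h44 | h45
  · exact good1 7 2 10 10 (-16) (128) 16 64 8 2 3616 223 cz22 (by norm_num) x z
      (by norm_num; linarith only [h43, h44, hz0, hz1]) (by norm_num; linarith only [h43, h44, hz0, hz1]) (by norm_num; linarith only [h43, h44, hz0, hz1]) (by norm_num; linarith only [h43, h44, hz0, hz1])
      (qn_le (7 / 64) (1 / 4) x z (by linarith only [h43, h44, hz0, hz1]) (by linarith only [h43, h44, hz0, hz1]) (by linarith only [h43, h44, hz0, hz1]) (by linarith only [h43, h44, hz0, hz1]) (by norm_num))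
  rcases le_or_gt x (15 / 64) with h46 | h47
  · exact good1 4 2 10 10 (112) (128) 32 128 4 1 3616 223 cz23 (by norm_num) x z
      (by norm_num; linarith only [h45, h46, hz0, hz1]) (by norm_num; linarith only [h45, h46, hz0, hz1]) (by norm_num; linarith only [h45, h46, hz0, hz1]) (by norm_num; linarith only [h45, h46, hz0, hz1])
      (qn_le (15 / 64) (1 / 4) x z (by linarith only [h45, h46, hz0, hz1]) (by linarith only [h45, h46, hz0, hz1]) (by linarith only [h45, h46, hz0, hz1]) (by linarith only [h45, h46, hz0, hz1]) (by norm_num))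
  rcases le_or_gt x (23 / 64) with h48 | h49
  · exact good1 4 2 10 10 (240) (128) 16 64 8 2 3632 224 cz24 (by norm_num) x z
      (by norm_num; linarith only [h47, h48, hz0, hz1]) (by norm_num; linarith only [h47, h48, hz0, hz1]) (by norm_num; linarith only [h47, h48, hz0, hz1]) (by norm_num; linarith only [h47, h48, hz0, hz1])
      (qn_le (23 / 64) (1 / 4) x z (by linarith only [h47, h48, hz0, hz1]) (by linarith only [h47, h48, hz0, hz1]) (by linarith only [h47, h48, hz0, hz1]) (by linarith only [h47, h48, hz0, hz1]) (by norm_num))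
  rcases le_or_gt x (3 / 8) with h50 | h51
  · exact good1 5 2 10 10 (368) (128) 16 128 1 1 3648 225 cz25 (by norm_num) x z
      (by norm_num; linarith only [h49, h50, hz0, hz1]) (by norm_num; linarith only [h49, h50, hz0, hz1]) (by norm_num; linarith only [h49, h50, hz0, hz1]) (by norm_num; linarith only [h49, h50, hz0, hz1])
      (qn_le (3 / 8) (1 / 4) x z (by linarith only [h49, h50, hz0, hz1]) (by linarith only [h49, h50, hz0, hz1]) (by linarith only [h49, h50, hz0, hz1]) (by linarith only [h49, h50, hz0, hz1]) (by norm_num))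
  rcases le_or_gt z (5 / 32) with g52 | g53
  · have hX : x ≤ 25 / 64 := rb (25 / 64) (5 / 32) x z hd (by linarith only [hz0, g52]) (by linarith only [hz0, g52]) he (by norm_num) (by norm_num)
    exact good1 6 2 10 10 (384) (128) 16 32 1 1 3648 225 cz26 (by norm_num) x z
      (by norm_num; linarith only [h51, hX, hz0, g52]) (by norm_num; linarith only [h51, hX, hz0, g52]) (by norm_num; linarith only [h51, hX, hz0, g52]) (by norm_num; linarith only [h51, hX, hz0, g52])
      (qn_le (25 / 64) (5 / 32) x z (by linarith only [h51, hX, hz0, g52]) (by linarith only [h51, hX, hz0, g52]) (by linarith only [h51, hX, hz0, g52]) (by linarith only [h51, hX, hz0, g52]) (by norm_num))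
  rcases le_or_gt z (3 / 16) with g54 | g55
  · have hX : x ≤ 25 / 64 := rb (25 / 64) (3 / 16) x z hd (by linarith only [g53, g54, hz0]) (by linarith only [g53, g54, hz0]) he (by norm_num) (by norm_num)
    exact good1 6 2 10 10 (384) (160) 16 32 1 1 3648 225 cz27 (by norm_num) x z
      (by norm_num; linarith only [h51, hX, g53, g54, hz0]) (by norm_num; linarith only [h51, hX, g53, g54, hz0]) (by norm_num; linarith only [h51, hX, g53, g54, hz0]) (by norm_num; linarith only [h51, hX, g53, g54, hz0])
      (qn_le (25 / 64) (3 / 16) x z (by linarith only [h51, hX, g53, g54, hz0]) (by linarith only [h51, hX, g53, g54, hz0]) (by linarith only [h51, hX, g53, g54, hz0]) (by linarith only [h51, hX, g53, g54, hz0]) (by norm_num))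
  rcases le_or_gt z (7 / 32) with g56 | g57
  · have hX : x ≤ 401 / 1024 := rb (401 / 1024) (7 / 32) x z hd (by linarith only [g55, g56, hz0]) (by linarith only [g55, g56, hz0]) he (by norm_num) (by norm_num)
    exact good1 5 2 10 10 (384) (192) 17 32 1 1 3648 225 cz28 (by norm_num) x z
      (by norm_num; linarith only [h51, hX, g55, g56, hz0]) (by norm_num; linarith only [h51, hX, g55, g56, hz0]) (by norm_num; linarith only [h51, hX, g55, g56, hz0]) (by norm_num; linarith only [h51, hX, g55, g56, hz0])
      (qn_le (401 / 1024) (7 / 32) x z (by linarith only [h51, hX, g55, g56, hz0]) (by linarith only [h51, hX, g55, g56, hz0]) (by linarith only [h51, hX, g55, g56, hz0]) (by linarith only [h51, hX, g55, g56, hz0]) (by norm_num))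
  have hX : x ≤ 201 / 512 := rb (201 / 512) (1 / 4) x z hd (by linarith only [g57, hz1, hz0]) (by linarith only [g57, hz1, hz0]) he (by norm_num) (by norm_num)
  exact good1 5 2 10 10 (384) (224) 18 32 1 1 3648 225 cz29 (by norm_num) x z
    (by norm_num; linarith only [h51, hX, g57, hz1, hz0]) (by norm_num; linarith only [h51, hX, g57, hz1, hz0]) (by norm_num; linarith only [h51, hX, g57, hz1, hz0]) (by norm_num; linarith only [h51, hX, g57, hz1, hz0])
    (qn_le (201 / 512) (1 / 4) x z (by linarith only [h51, hX, g57, hz1, hz0]) (by linarith only [h51, hX, g57, hz1, hz0]) (by linarith only [h51, hX, g57, hz1, hz0]) (by linarith only [h51, hX, g57, hz1, hz0]) (by norm_num))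

theorem band2 (x z : ℝ) (hz0 : 1 / 4 ≤ z) (hz1 : z ≤ 3 / 8) (hn : qn x z ≤ 79 / 100)
    (hd : 111 / 1000 ≤ 1 - 2 * x) (he : 59 / 1000 * (1 - qn x z) ≤ (1 - 2 * x) ^ 2)
    (hs : 433 / 250 * z ≤ 889 / 1000 + x) : Good x z := by
  have hx0 : -(57 / 64) ≤ x := by
    have hn' := hn
    unfold qn at hn'
    nlinarith [mul_self_nonneg z]
  rcases le_or_gt x (-(49 / 64)) with h60 | h61
  · exfalso; linarith only [hx0, h60, hz0, hs]
  rcases le_or_gt x (-(41 / 64)) with h62 | h63
  · exfalso; linarith only [h61, h62, hz0, hs]
  rcases le_or_gt x (-(33 / 64)) with h64 | h65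
  · exact good2 5 2 10 10 (-656) (256) 64 128 2 1 3662 226 cz30 (by norm_num) x z
      (by norm_num; linarith only [h63, h64, hz0, hz1]) (by norm_num; linarith only [h63, h64, hz0, hz1]) (by norm_num; linarith only [h63, h64, hz0, hz1]) (by norm_num; linarith only [h63, h64, hz0, hz1])
      hn
  rcases le_or_gt x (-(25 / 64)) with h66 | h67
  · exact good2 5 2 10 10 (-528) (256) 64 128 2 1 3646 225 cz31 (by norm_num) x z
      (by norm_num; linarith only [h65, h66, hz0, hz1]) (by norm_num; linarith only [h65, h66, hz0, hz1]) (by norm_num; linarith only [h65, h66, hz0, hz1]) (by norm_num; linarith only [h65, h66, hz0, hz1])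
      hn
  rcases le_or_gt x (-(17 / 64)) with h68 | h69
  · exact good2 6 2 10 10 (-400) (256) 32 64 4 2 3630 224 cz32 (by norm_num) x z
      (by norm_num; linarith only [h67, h68, hz0, hz1]) (by norm_num; linarith only [h67, h68, hz0, hz1]) (by norm_num; linarith only [h67, h68, hz0, hz1]) (by norm_num; linarith only [h67, h68, hz0, hz1])
      hn
  rcases le_or_gt x (-(9 / 64)) with h70 | h71
  · exact good1 7 2 10 10 (-272) (256) 16 32 8 4 3664 226 cz33 (by norm_num) x z
      (by norm_num; linarith only [h69, h70, hz0, hz1]) (by norm_num; linarith only [h69, h70, hz0, hz1]) (by norm_num; linarith only [h69, h70, hz0, hz1]) (by norm_num; linarith only [h69, h70, hz0, hz1])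
      (qn_le (17 / 64) (3 / 8) x z (by linarith only [h69, h70, hz0, hz1]) (by linarith only [h69, h70, hz0, hz1]) (by linarith only [h69, h70, hz0, hz1]) (by linarith only [h69, h70, hz0, hz1]) (by norm_num))
  rcases le_or_gt x (-(1 / 64)) with h72 | h73
  · exact good1 6 2 10 10 (-144) (256) 8 32 16 4 3648 225 cz34 (by norm_num) x z
      (by norm_num; linarith only [h71, h72, hz0, hz1]) (by norm_num; linarith only [h71, h72, hz0, hz1]) (by norm_num; linarith only [h71, h72, hz0, hz1]) (by norm_num; linarith only [h71, h72, hz0, hz1])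
      (qn_le (9 / 64) (3 / 8) x z (by linarith only [h71, h72, hz0, hz1]) (by linarith only [h71, h72, hz0, hz1]) (by linarith only [h71, h72, hz0, hz1]) (by linarith only [h71, h72, hz0, hz1]) (by norm_num))
  rcases le_or_gt x (7 / 64) with h74 | h75
  · exact good1 6 2 10 10 (-16) (256) 16 32 8 4 3616 223 cz35 (by norm_num) x z
      (by norm_num; linarith only [h73, h74, hz0, hz1]) (by norm_num; linarith only [h73, h74, hz0, hz1]) (by norm_num; linarith only [h73, h74, hz0, hz1]) (by norm_num; linarith only [h73, h74, hz0, hz1])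
      (qn_le (7 / 64) (3 / 8) x z (by linarith only [h73, h74, hz0, hz1]) (by linarith only [h73, h74, hz0, hz1]) (by linarith only [h73, h74, hz0, hz1]) (by linarith only [h73, h74, hz0, hz1]) (by norm_num))
  rcases le_or_gt x (15 / 64) with h76 | h77
  · exact good1 5 2 10 10 (112) (256) 16 64 8 2 3632 224 cz36 (by norm_num) x z
      (by norm_num; linarith only [h75, h76, hz0, hz1]) (by norm_num; linarith only [h75, h76, hz0, hz1]) (by norm_num; linarith only [h75, h76, hz0, hz1]) (by norm_num; linarith only [h75, h76, hz0, hz1])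
      (qn_le (15 / 64) (3 / 8) x z (by linarith only [h75, h76, hz0, hz1]) (by linarith only [h75, h76, hz0, hz1]) (by linarith only [h75, h76, hz0, hz1]) (by linarith only [h75, h76, hz0, hz1]) (by norm_num))
  rcases le_or_gt x (23 / 64) with h78 | h79
  · exact good2 3 2 10 10 (240) (256) 16 64 8 2 3582 221 cz37 (by norm_num) x z
      (by norm_num; linarith only [h77, h78, hz0, hz1]) (by norm_num; linarith only [h77, h78, hz0, hz1]) (by norm_num; linarith only [h77, h78, hz0, hz1]) (by norm_num; linarith only [h77, h78, hz0, hz1])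
      hn
  rcases le_or_gt x (3 / 8) with h80 | h81
  · exact good2 4 2 10 10 (368) (256) 16 128 1 1 3598 222 cz38 (by norm_num) x z
      (by norm_num; linarith only [h79, h80, hz0, hz1]) (by norm_num; linarith only [h79, h80, hz0, hz1]) (by norm_num; linarith only [h79, h80, hz0, hz1]) (by norm_num; linarith only [h79, h80, hz0, hz1])
      hn
  rcases le_or_gt z (9 / 32) with g82 | g83
  · have hX : x ≤ 101 / 256 := rb (101 / 256) (9 / 32) x z hd (by linarith only [hz0, g82]) (by linarith only [hz0, g82]) he (by norm_num) (by norm_num)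
    exact good1 5 2 10 10 (384) (256) 20 32 1 1 3648 225 cz39 (by norm_num) x z
      (by norm_num; linarith only [h81, hX, hz0, g82]) (by norm_num; linarith only [h81, hX, hz0, g82]) (by norm_num; linarith only [h81, hX, hz0, g82]) (by norm_num; linarith only [h81, hX, hz0, g82])
      (qn_le (101 / 256) (9 / 32) x z (by linarith only [h81, hX, hz0, g82]) (by linarith only [h81, hX, hz0, g82]) (by linarith only [h81, hX, hz0, g82]) (by linarith only [h81, hX, hz0, g82]) (by norm_num))
  rcases le_or_gt z (5 / 16) with g84 | g85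
  · have hX : x ≤ 405 / 1024 := rb (405 / 1024) (5 / 16) x z hd (by linarith only [g83, g84, hz0]) (by linarith only [g83, g84, hz0]) he (by norm_num) (by norm_num)
    exact good2 4 2 11 10 (768) (288) 21 32 2 1 3870 238 cz40 (by norm_num) x z
      (by norm_num; linarith only [h81, hX, g83, g84, hz0]) (by norm_num; linarith only [h81, hX, g83, g84, hz0]) (by norm_num; linarith only [h81, hX, g83, g84, hz0]) (by norm_num; linarith only [h81, hX, g83, g84, hz0])
      hn
  rcases le_or_gt z (11 / 32) with g86 | g87
  · have hX : x ≤ 407 / 1024 := rb (407 / 1024) (11 / 32) x z hd (by linarith only [g85, g86, hz0]) (by linarith only [g85, g86, hz0]) he (by norm_num) (by norm_num)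
    exact good2 4 2 11 10 (768) (320) 23 32 2 1 3870 238 cz41 (by norm_num) x z
      (by norm_num; linarith only [h81, hX, g85, g86, hz0]) (by norm_num; linarith only [h81, hX, g85, g86, hz0]) (by norm_num; linarith only [h81, hX, g85, g86, hz0]) (by norm_num; linarith only [h81, hX, g85, g86, hz0])
      hn
  have hX : x ≤ 51 / 128 := rb (51 / 128) (3 / 8) x z hd (by linarith only [g87, hz1, hz0]) (by linarith only [g87, hz1, hz0]) he (by norm_num) (by norm_num)
  exact good2 4 2 10 10 (384) (352) 12 32 2 1 3598 222 cz42 (by norm_num) x z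
    (by norm_num; linarith only [h81, hX, g87, hz1, hz0]) (by norm_num; linarith only [h81, hX, g87, hz1, hz0]) (by norm_num; linarith only [h81, hX, g87, hz1, hz0]) (by norm_num; linarith only [h81, hX, g87, hz1, hz0])
    hn

theorem band3 (x z : ℝ) (hz0 : 3 / 8 ≤ z) (hz1 : z ≤ 1 / 2) (hn : qn x z ≤ 79 / 100)
    (hd : 111 / 1000 ≤ 1 - 2 * x) (he : 59 / 1000 * (1 - qn x z) ≤ (1 - 2 * x) ^ 2)
    (hs : 433 / 250 * z ≤ 889 / 1000 + x) : Good x z := by
  have hx0 : -(57 / 64) ≤ x := by
    have hn' := hn
    unfold qn at hn'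
    nlinarith [mul_self_nonneg z]
  rcases le_or_gt x (-(49 / 64)) with h90 | h91
  · exfalso; linarith only [hx0, h90, hz0, hs]
  rcases le_or_gt x (-(41 / 64)) with h92 | h93
  · exfalso; linarith only [h91, h92, hz0, hs]
  rcases le_or_gt x (-(33 / 64)) with h94 | h95
  · exfalso; linarith only [h93, h94, hz0, hs]
  rcases le_or_gt x (-(25 / 64)) with h96 | h97
  · exfalso; linarith only [h95, h96, hz0, hs]
  rcases le_or_gt x (-(17 / 64)) with h98 | h99
  · exact good2 5 2 10 10 (-400) (384) 64 128 2 1 3630 224 cz43 (by norm_num) x z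
      (by norm_num; linarith only [h97, h98, hz0, hz1]) (by norm_num; linarith only [h97, h98, hz0, hz1]) (by norm_num; linarith only [h97, h98, hz0, hz1]) (by norm_num; linarith only [h97, h98, hz0, hz1])
      hn
  rcases le_or_gt x (-(9 / 64)) with h100 | h101
  · exact good2 5 2 10 10 (-272) (384) 32 64 4 2 3614 223 cz44 (by norm_num) x z
      (by norm_num; linarith only [h99, h100, hz0, hz1]) (by norm_num; linarith only [h99, h100, hz0, hz1]) (by norm_num; linarith only [h99, h100, hz0, hz1]) (by norm_num; linarith only [h99, h100, hz0, hz1])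
      hn
  rcases le_or_gt x (-(1 / 64)) with h102 | h103
  · exact good2 5 2 10 10 (-144) (384) 8 16 16 8 3598 222 cz45 (by norm_num) x z
      (by norm_num; linarith only [h101, h102, hz0, hz1]) (by norm_num; linarith only [h101, h102, hz0, hz1]) (by norm_num; linarith only [h101, h102, hz0, hz1]) (by norm_num; linarith only [h101, h102, hz0, hz1])
      hn
  rcases le_or_gt x (7 / 64) with h104 | h105
  · exact good2 5 2 10 10 (-16) (384) 8 32 16 4 3582 221 cz46 (by norm_num) x z
      (by norm_num; linarith only [h103, h104, hz0, hz1]) (by norm_num; linarith only [h103, h104, hz0, hz1]) (by norm_num; linarith only [h103, h104, hz0, hz1]) (by norm_num; linarith only [h103, h104, hz0, hz1])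
      hn
  rcases le_or_gt x (15 / 64) with h106 | h107
  · exact good2 4 2 10 10 (112) (384) 16 32 8 4 3582 221 cz47 (by norm_num) x z
      (by norm_num; linarith only [h105, h106, hz0, hz1]) (by norm_num; linarith only [h105, h106, hz0, hz1]) (by norm_num; linarith only [h105, h106, hz0, hz1]) (by norm_num; linarith only [h105, h106, hz0, hz1])
      hn
  rcases le_or_gt x (23 / 64) with h108 | h109
  · exact good2 3 2 10 10 (240) (384) 8 32 16 4 3598 222 cz48 (by norm_num) x z
      (by norm_num; linarith only [h107, h108, hz0, hz1]) (by norm_num; linarith only [h107, h108, hz0, hz1]) (by norm_num; linarith only [h107, h108, hz0, hz1]) (by norm_num; linarith only [h107, h108, hz0, hz1])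
      hn
  rcases le_or_gt x (3 / 8) with h110 | h111
  · exact good2 3 2 10 10 (368) (384) 16 64 1 2 3598 222 cz49 (by norm_num) x z
      (by norm_num; linarith only [h109, h110, hz0, hz1]) (by norm_num; linarith only [h109, h110, hz0, hz1]) (by norm_num; linarith only [h109, h110, hz0, hz1]) (by norm_num; linarith only [h109, h110, hz0, hz1])
      hn
  rcases le_or_gt z (13 / 32) with g112 | g113
  · have hX : x ≤ 205 / 512 := rb (205 / 512) (13 / 32) x z hd (by linarith only [hz0, g112]) (by linarith only [hz0, g112]) he (by norm_num) (by norm_num)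
    exact good2 4 2 10 10 (384) (384) 13 32 2 1 3598 222 cz50 (by norm_num) x z
      (by norm_num; linarith only [h111, hX, hz0, g112]) (by norm_num; linarith only [h111, hX, hz0, g112]) (by norm_num; linarith only [h111, hX, hz0, g112]) (by norm_num; linarith only [h111, hX, hz0, g112])
      hn
  rcases le_or_gt z (7 / 16) with g114 | g115
  · have hX : x ≤ 103 / 256 := rb (103 / 256) (7 / 16) x z hd (by linarith only [g113, g114, hz0]) (by linarith only [g113, g114, hz0]) he (by norm_num) (by norm_num)
    exact good2 3 2 10 10 (384) (416) 14 32 2 1 3598 222 cz51 (by norm_num) x z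
      (by norm_num; linarith only [h111, hX, g113, g114, hz0]) (by norm_num; linarith only [h111, hX, g113, g114, hz0]) (by norm_num; linarith only [h111, hX, g113, g114, hz0]) (by norm_num; linarith only [h111, hX, g113, g114, hz0])
      hn
  rcases le_or_gt z (15 / 32) with g116 | g117
  · have hX : x ≤ 415 / 1024 := rb (415 / 1024) (15 / 32) x z hd (by linarith only [g115, g116, hz0]) (by linarith only [g115, g116, hz0]) he (by norm_num) (by norm_num)
    exact good2 3 2 11 10 (768) (448) 31 32 2 1 3870 238 cz52 (by norm_num) x z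
      (by norm_num; linarith only [h111, hX, g115, g116, hz0]) (by norm_num; linarith only [h111, hX, g115, g116, hz0]) (by norm_num; linarith only [h111, hX, g115, g116, hz0]) (by norm_num; linarith only [h111, hX, g115, g116, hz0])
      hn
  have hX : x ≤ 417 / 1024 := rb (417 / 1024) (1 / 2) x z hd (by linarith only [g117, hz1, hz0]) (by linarith only [g117, hz1, hz0]) he (by norm_num) (by norm_num)
  exact good2 3 2 11 10 (768) (480) 33 32 2 1 3870 238 cz53 (by norm_num) x z
    (by norm_num; linarith only [h111, hX, g117, hz1, hz0]) (by norm_num; linarith only [h111, hX, g117, hz1, hz0]) (by norm_num; linarith only [h111, hX, g117, hz1, hz0]) (by norm_num; linarith only [h111, hX, g117, hz1, hz0])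
    hn

theorem band4 (x z : ℝ) (hz0 : 1 / 2 ≤ z) (hz1 : z ≤ 5 / 8) (hn : qn x z ≤ 79 / 100)
    (hd : 111 / 1000 ≤ 1 - 2 * x) (he : 59 / 1000 * (1 - qn x z) ≤ (1 - 2 * x) ^ 2)
    (hs : 433 / 250 * z ≤ 889 / 1000 + x) : Good x z := by
  have hx0 : -(57 / 64) ≤ x := by
    have hn' := hn
    unfold qn at hn'
    nlinarith [mul_self_nonneg z]
  rcases le_or_gt x (-(49 / 64)) with h120 | h121
  · exfalso; linarith only [hx0, h120, hz0, hs]
  rcases le_or_gt x (-(41 / 64)) with h122 | h123
  · exfalso; linarith only [h121, h122, hz0, hs]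
  rcases le_or_gt x (-(33 / 64)) with h124 | h125
  · exfalso; linarith only [h123, h124, hz0, hs]
  rcases le_or_gt x (-(25 / 64)) with h126 | h127
  · exfalso; linarith only [h125, h126, hz0, hs]
  rcases le_or_gt x (-(17 / 64)) with h128 | h129
  · exfalso; linarith only [h127, h128, hz0, hs]
  rcases le_or_gt x (-(9 / 64)) with h130 | h131
  · exfalso; linarith only [h129, h130, hz0, hs]
  rcases le_or_gt x (-(1 / 64)) with h132 | h133
  · exact good2 4 2 10 10 (-144) (512) 16 64 8 2 3598 222 cz54 (by norm_num) x z
      (by norm_num; linarith only [h131, h132, hz0, hz1]) (by norm_num; linarith only [h131, h132, hz0, hz1]) (by norm_num; linarith only [h131, h132, hz0, hz1]) (by norm_num; linarith only [h131, h132, hz0, hz1])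
      hn
  rcases le_or_gt x (7 / 64) with h134 | h135
  · exact good2 4 2 10 10 (-16) (512) 16 32 8 4 3582 221 cz55 (by norm_num) x z
      (by norm_num; linarith only [h133, h134, hz0, hz1]) (by norm_num; linarith only [h133, h134, hz0, hz1]) (by norm_num; linarith only [h133, h134, hz0, hz1]) (by norm_num; linarith only [h133, h134, hz0, hz1])
      hn
  rcases le_or_gt x (15 / 64) with h136 | h137
  · exact good2 4 2 10 10 (112) (512) 8 32 16 4 3598 222 cz56 (by norm_num) x z
      (by norm_num; linarith only [h135, h136, hz0, hz1]) (by norm_num; linarith only [h135, h136, hz0, hz1]) (by norm_num; linarith only [h135, h136, hz0, hz1]) (by norm_num; linarith only [h135, h136, hz0, hz1])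
      hn
  rcases le_or_gt x (23 / 64) with h138 | h139
  · exact good2 3 2 10 10 (240) (512) 8 32 16 4 3614 223 cz57 (by norm_num) x z
      (by norm_num; linarith only [h137, h138, hz0, hz1]) (by norm_num; linarith only [h137, h138, hz0, hz1]) (by norm_num; linarith only [h137, h138, hz0, hz1]) (by norm_num; linarith only [h137, h138, hz0, hz1])
      hn
  rcases le_or_gt x (3 / 8) with h140 | h141
  · exact good2 3 2 10 10 (368) (512) 16 64 1 2 3614 223 cz58 (by norm_num) x z
      (by norm_num; linarith only [h139, h140, hz0, hz1]) (by norm_num; linarith only [h139, h140, hz0, hz1]) (by norm_num; linarith only [h139, h140, hz0, hz1]) (by norm_num; linarith only [h139, h140, hz0, hz1])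
      hn
  rcases le_or_gt z (17 / 32) with g142 | g143
  · have hX : x ≤ 105 / 256 := rb (105 / 256) (17 / 32) x z hd (by linarith only [hz0, g142]) (by linarith only [hz0, g142]) he (by norm_num) (by norm_num)
    exact good2 3 2 10 10 (384) (512) 12 32 3 1 3614 223 cz59 (by norm_num) x z
      (by norm_num; linarith only [h141, hX, hz0, g142]) (by norm_num; linarith only [h141, hX, hz0, g142]) (by norm_num; linarith only [h141, hX, hz0, g142]) (by norm_num; linarith only [h141, hX, hz0, g142])
      hn
  rcases le_or_gt z (9 / 16) with g144 | g145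
  · have hX : x ≤ 423 / 1024 := rb (423 / 1024) (9 / 16) x z hd (by linarith only [g143, g144, hz0]) (by linarith only [g143, g144, hz0]) he (by norm_num) (by norm_num)
    exact good2 3 2 10 10 (384) (544) 13 32 3 1 3614 223 cz60 (by norm_num) x z
      (by norm_num; linarith only [h141, hX, g143, g144, hz0]) (by norm_num; linarith only [h141, hX, g143, g144, hz0]) (by norm_num; linarith only [h141, hX, g143, g144, hz0]) (by norm_num; linarith only [h141, hX, g143, g144, hz0])
      hn
  rcases le_or_gt z (19 / 32) with g146 | g147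
  · have hX : x ≤ 427 / 1024 := rb (427 / 1024) (19 / 32) x z hd (by linarith only [g145, g146, hz0]) (by linarith only [g145, g146, hz0]) he (by norm_num) (by norm_num)
    exact good2 3 2 12 10 (1536) (576) 43 32 4 1 4158 255 cz61 (by norm_num) x z
      (by norm_num; linarith only [h141, hX, g145, g146, hz0]) (by norm_num; linarith only [h141, hX, g145, g146, hz0]) (by norm_num; linarith only [h141, hX, g145, g146, hz0]) (by norm_num; linarith only [h141, hX, g145, g146, hz0])
      hn
  have hX : x ≤ 431 / 1024 := rb (431 / 1024) (5 / 8) x z hd (by linarith only [g147, hz1, hz0]) (by linarith only [g147, hz1, hz0]) he (by norm_num) (by norm_num)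
  exact good2 3 2 13 10 (3072) (608) 47 32 8 1 4430 271 cz62 (by norm_num) x z
    (by norm_num; linarith only [h141, hX, g147, hz1, hz0]) (by norm_num; linarith only [h141, hX, g147, hz1, hz0]) (by norm_num; linarith only [h141, hX, g147, hz1, hz0]) (by norm_num; linarith only [h141, hX, g147, hz1, hz0])
    hn

theorem band5 (x z : ℝ) (hz0 : 5 / 8 ≤ z) (hz1 : z ≤ 3 / 4) (hn : qn x z ≤ 79 / 100)
    (hd : 111 / 1000 ≤ 1 - 2 * x) (he : 59 / 1000 * (1 - qn x z) ≤ (1 - 2 * x) ^ 2)
    (hs : 433 / 250 * z ≤ 889 / 1000 + x) : Good x z := by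
  have hx0 : -(57 / 64) ≤ x := by
    have hn' := hn
    unfold qn at hn'
    nlinarith [mul_self_nonneg z]
  rcases le_or_gt x (-(49 / 64)) with h150 | h151
  · exfalso; linarith only [hx0, h150, hz0, hs]
  rcases le_or_gt x (-(41 / 64)) with h152 | h153
  · exfalso; linarith only [h151, h152, hz0, hs]
  rcases le_or_gt x (-(33 / 64)) with h154 | h155
  · exfalso; linarith only [h153, h154, hz0, hs]
  rcases le_or_gt x (-(25 / 64)) with h156 | h157
  · exfalso; linarith only [h155, h156, hz0, hs]
  rcases le_or_gt x (-(17 / 64)) with h158 | h159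
  · exfalso; linarith only [h157, h158, hz0, hs]
  rcases le_or_gt x (-(9 / 64)) with h160 | h161
  · exfalso; linarith only [h159, h160, hz0, hs]
  rcases le_or_gt x (-(1 / 64)) with h162 | h163
  · exfalso; linarith only [h161, h162, hz0, hs]
  rcases le_or_gt x (7 / 64) with h164 | h165
  · exact good2 4 2 10 10 (-16) (640) 16 64 8 2 3598 222 cz63 (by norm_num) x z
      (by norm_num; linarith only [h163, h164, hz0, hz1]) (by norm_num; linarith only [h163, h164, hz0, hz1]) (by norm_num; linarith only [h163, h164, hz0, hz1]) (by norm_num; linarith only [h163, h164, hz0, hz1])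
      hn
  rcases le_or_gt x (15 / 64) with h166 | h167
  · exact good2 4 2 10 10 (112) (640) 8 32 16 4 3614 223 cz64 (by norm_num) x z
      (by norm_num; linarith only [h165, h166, hz0, hz1]) (by norm_num; linarith only [h165, h166, hz0, hz1]) (by norm_num; linarith only [h165, h166, hz0, hz1]) (by norm_num; linarith only [h165, h166, hz0, hz1])
      hn
  rcases le_or_gt x (23 / 64) with h168 | h169
  · exact good2 3 2 10 10 (240) (640) 4 16 32 8 3614 223 cz65 (by norm_num) x z
      (by norm_num; linarith only [h167, h168, hz0, hz1]) (by norm_num; linarith only [h167, h168, hz0, hz1]) (by norm_num; linarith only [h167, h168, hz0, hz1]) (by norm_num; linarith only [h167, h168, hz0, hz1])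
      hn
  rcases le_or_gt x (13 / 32) with h170 | h171
  · exact good2 3 2 10 10 (368) (640) 4 16 12 8 3630 224 cz66 (by norm_num) x z
      (by norm_num; linarith only [h169, h170, hz0, hz1]) (by norm_num; linarith only [h169, h170, hz0, hz1]) (by norm_num; linarith only [h169, h170, hz0, hz1]) (by norm_num; linarith only [h169, h170, hz0, hz1])
      hn
  rcases le_or_gt z (21 / 32) with g172 | g173
  · have hX : x ≤ 435 / 1024 := rb (435 / 1024) (21 / 32) x z hd (by linarith only [hz0, g172]) (by linarith only [hz0, g172]) he (by norm_num) (by norm_num)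
    exact good2 3 2 11 10 (832) (640) 19 32 2 1 3886 239 cz67 (by norm_num) x z
      (by norm_num; linarith only [h171, hX, hz0, g172]) (by norm_num; linarith only [h171, hX, hz0, g172]) (by norm_num; linarith only [h171, hX, hz0, g172]) (by norm_num; linarith only [h171, hX, hz0, g172])
      hn
  rcases le_or_gt z (11 / 16) with g174 | g175
  · have hX : x ≤ 55 / 128 := rb (55 / 128) (11 / 16) x z hd (by linarith only [g173, g174, hz0]) (by linarith only [g173, g174, hz0]) he (by norm_num) (by norm_num)
    exact good2 3 2 10 10 (416) (672) 8 32 3 1 3630 224 cz68 (by norm_num) x z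
      (by norm_num; linarith only [h171, hX, g173, g174, hz0]) (by norm_num; linarith only [h171, hX, g173, g174, hz0]) (by norm_num; linarith only [h171, hX, g173, g174, hz0]) (by norm_num; linarith only [h171, hX, g173, g174, hz0])
      hn
  rcases le_or_gt z (23 / 32) with g176 | g177
  · have hX : x ≤ 445 / 1024 := rb (445 / 1024) (23 / 32) x z hd (by linarith only [g175, g176, hz0]) (by linarith only [g175, g176, hz0]) he (by norm_num) (by norm_num)
    exact good2 3 2 13 10 (3328) (704) 29 32 8 1 4446 272 cz69 (by norm_num) x z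
      (by norm_num; linarith only [h171, hX, g175, g176, hz0]) (by norm_num; linarith only [h171, hX, g175, g176, hz0]) (by norm_num; linarith only [h171, hX, g175, g176, hz0]) (by norm_num; linarith only [h171, hX, g175, g176, hz0])
      hn
  have hX : x ≤ 451 / 1024 := rb (451 / 1024) (3 / 4) x z hd (by linarith only [g177, hz1, hz0]) (by linarith only [g177, hz1, hz0]) he (by norm_num) (by norm_num)
  exact good2 3 2 13 10 (3328) (736) 35 16 8 2 4446 272 cz70 (by norm_num) x z
    (by norm_num; linarith only [h171, hX, g177, hz1, hz0]) (by norm_num; linarith only [h171, hX, g177, hz1, hz0]) (by norm_num; linarith only [h171, hX, g177, hz1, hz0]) (by norm_num; linarith only [h171, hX, g177, hz1, hz0])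
    hn

theorem band6 (x z : ℝ) (hz0 : 3 / 4 ≤ z) (hz1 : z ≤ 77 / 100) (hn : qn x z ≤ 79 / 100)
    (hd : 111 / 1000 ≤ 1 - 2 * x) (he : 59 / 1000 * (1 - qn x z) ≤ (1 - 2 * x) ^ 2)
    (hs : 433 / 250 * z ≤ 889 / 1000 + x) : Good x z := by
  have hx0 : -(57 / 64) ≤ x := by
    have hn' := hn
    unfold qn at hn'
    nlinarith [mul_self_nonneg z]
  rcases le_or_gt x (-(49 / 64)) with h180 | h181
  · exfalso; linarith only [hx0, h180, hz0, hs]
  rcases le_or_gt x (-(41 / 64)) with h182 | h183
  · exfalso; linarith only [h181, h182, hz0, hs]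
  rcases le_or_gt x (-(33 / 64)) with h184 | h185
  · exfalso; linarith only [h183, h184, hz0, hs]
  rcases le_or_gt x (-(25 / 64)) with h186 | h187
  · exfalso; linarith only [h185, h186, hz0, hs]
  rcases le_or_gt x (-(17 / 64)) with h188 | h189
  · exfalso; linarith only [h187, h188, hz0, hs]
  rcases le_or_gt x (-(9 / 64)) with h190 | h191
  · exfalso; linarith only [h189, h190, hz0, hs]
  rcases le_or_gt x (-(1 / 64)) with h192 | h193
  · exfalso; linarith only [h191, h192, hz0, hs]
  rcases le_or_gt x (7 / 64) with h194 | h195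
  · exfalso; linarith only [h193, h194, hz0, hs]
  rcases le_or_gt x (15 / 64) with h196 | h197
  · exfalso; linarith only [h195, h196, hz0, hs]
  rcases le_or_gt x (23 / 64) with h198 | h199
  · exact good2 3 2 10 10 (240) (768) 4 16 32 8 3630 224 cz71 (by norm_num) x z
      (by norm_num; linarith only [h197, h198, hz0, hz1]) (by norm_num; linarith only [h197, h198, hz0, hz1]) (by norm_num; linarith only [h197, h198, hz0, hz1]) (by norm_num; linarith only [h197, h198, hz0, hz1])
      hn
  rcases le_or_gt x (13 / 32) with h200 | h201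
  · exact good2 3 2 10 10 (368) (768) 3 16 16 8 3630 224 cz72 (by norm_num) x z
      (by norm_num; linarith only [h199, h200, hz0, hz1]) (by norm_num; linarith only [h199, h200, hz0, hz1]) (by norm_num; linarith only [h199, h200, hz0, hz1]) (by norm_num; linarith only [h199, h200, hz0, hz1])
      hn
  rcases le_or_gt z (49 / 64) with g202 | g203
  · have hX : x ≤ 455 / 1024 := rb (455 / 1024) (49 / 64) x z hd (by linarith only [hz0, g202]) (by linarith only [hz0, g202]) he (by norm_num) (by norm_num)
    exact good2 3 2 12 10 (1664) (768) 13 16 12 1 4174 256 cz73 (by norm_num) x z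
      (by norm_num; linarith only [h201, hX, hz0, g202]) (by norm_num; linarith only [h201, hX, hz0, g202]) (by norm_num; linarith only [h201, hX, hz0, g202]) (by norm_num; linarith only [h201, hX, hz0, g202])
      hn
  have hX : x ≤ 229 / 512 := rb (229 / 512) (77 / 100) x z hd (by linarith only [g203, hz1, hz0]) (by linarith only [g203, hz1, hz0]) he (by norm_num) (by norm_num)
  exact good2 3 2 13 10 (3328) (784) 21 8 16 2 4446 272 cz74 (by norm_num) x z
    (by norm_num; linarith only [h201, hX, g203, hz1, hz0]) (by norm_num; linarith only [h201, hX, g203, hz1, hz0]) (by norm_num; linarith only [h201, hX, g203, hz1, hz0]) (by norm_num; linarith only [h201, hX, g203, hz1, hz0])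
    hn

theorem good_nonneg (x z : ℝ) (hz : 0 ≤ z) (hn : qn x z ≤ 79 / 100)
    (hd : 111 / 1000 ≤ 1 - 2 * x) (he : 59 / 1000 * (1 - qn x z) ≤ (1 - 2 * x) ^ 2)
    (hs : 433 / 250 * z ≤ 889 / 1000 + x) : Good x z := by
  rcases le_or_gt z (1 / 8) with h0 | h0
  · exact band0 x z hz h0 hn hd he hs
  rcases le_or_gt z (1 / 4) with h1 | h1
  · exact band1 x z (by linarith) h1 hn hd he hs
  rcases le_or_gt z (3 / 8) with h2 | h2
  · exact band2 x z (by linarith) h2 hn hd he hs
  rcases le_or_gt z (1 / 2) with h3 | h3
  · exact band3 x z (by linarith) h3 hn hd he hs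
  rcases le_or_gt z (5 / 8) with h4 | h4
  · exact band4 x z (by linarith) h4 hn hd he hs
  rcases le_or_gt z (3 / 4) with h5 | h5
  · exact band5 x z (by linarith) h5 hn hd he hs
  exact band6 x z (by linarith) (by linarith) hn hd he hs

end Pool.H61.Rh
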