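import Pool.Agent.H81.Co.C3b

/-! # C3z1: the kernel checks of the zones, part 1 -/

set_option autoImplicit false
set_option maxRecDepth 100000

namespace Pool.H61.Rh

open Complex Pool.H47.Kc

theorem cz0 : ckZ2 3 2 (mkZ 10 10 (-912) (0) 64 128 2 1 3678 227) = true := by decide +kernel
theorem cz1 : ckZ2 5 2 (mkZ 10 10 (-784) (0) 64 128 2 1 3662 226) = true := by decide +kernel
theorem cz2 : ckZ2 5 2 (mkZ 10 10 (-656) (0) 64 128 2 1 3646 225) = true := by decide +kernel
theorem cz3 : ckZ2 6 2 (mkZ 10 10 (-528) (0) 32 128 4 1 3630 224) = true := by decide +kernel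
theorem cz4 : ckZ1 8 2 (mkZ 10 10 (-400) (0) 32 64 4 2 3680 227) = true := by decide +kernel
theorem cz5 : ckZ1 12 2 (mkZ 10 10 (-272) (0) 16 32 8 4 3664 226) = true := by decide +kernel
theorem cz6 : ckZ1 10 2 (mkZ 10 10 (-144) (0) 16 32 8 4 3632 224) = true := by decide +kernel
theorem cz7 : ckZ1 12 2 (mkZ 10 10 (-16) (0) 32 64 4 2 3616 223) = true := by decide +kernel
theorem cz8 : ckZ1 5 2 (mkZ 10 10 (112) (0) 32 128 4 1 3616 223) = true := by decide +kernel
theorem cz9 : ckZ1 5 2 (mkZ 10 10 (240) (0) 16 64 8 2 3632 224) = true := by decide +kernel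
theorem cz10 : ckZ1 6 2 (mkZ 10 10 (368) (0) 16 128 1 1 3648 225) = true := by decide +kernel
theorem cz11 : ckZ1 6 2 (mkZ 10 10 (384) (0) 14 32 1 1 3648 225) = true := by decide +kernel
theorem cz12 : ckZ1 6 2 (mkZ 10 10 (384) (32) 14 32 1 1 3648 225) = true := by decide +kernel
theorem cz13 : ckZ1 6 2 (mkZ 10 10 (384) (64) 15 32 1 1 3648 225) = true := by decide +kernel
theorem cz14 : ckZ1 6 2 (mkZ 10 10 (384) (96) 15 32 1 1 3648 225) = true := by decide +kernel
theorem cz15 : ckZ2 3 2 (mkZ 10 10 (-912) (128) 64 128 2 1 3678 227) = true := by decide +kernel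
theorem cz16 : ckZ2 4 2 (mkZ 10 10 (-784) (128) 64 128 2 1 3662 226) = true := by decide +kernel
theorem cz17 : ckZ2 5 2 (mkZ 10 10 (-656) (128) 64 128 2 1 3646 225) = true := by decide +kernel
theorem cz18 : ckZ2 6 2 (mkZ 10 10 (-528) (128) 32 128 4 1 3646 225) = true := by decide +kernel
theorem cz19 : ckZ1 7 2 (mkZ 10 10 (-400) (128) 32 64 4 2 3680 227) = true := by decide +kernel
theorem cz20 : ckZ1 10 2 (mkZ 10 10 (-272) (128) 16 32 8 4 3664 226) = true := by decide +kernel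
theorem cz21 : ckZ1 7 2 (mkZ 10 10 (-144) (128) 16 32 8 4 3632 224) = true := by decide +kernel
theorem cz22 : ckZ1 7 2 (mkZ 10 10 (-16) (128) 16 64 8 2 3616 223) = true := by decide +kernel
theorem cz23 : ckZ1 4 2 (mkZ 10 10 (112) (128) 32 128 4 1 3616 223) = true := by decide +kernel
theorem cz24 : ckZ1 4 2 (mkZ 10 10 (240) (128) 16 64 8 2 3632 224) = true := by decide +kernel

end Pool.H61.Rh
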